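import Pool.Agent.Zex.Targets

/-!
# The action is almost invariant
-/

set_option autoImplicit false

open Set MeasureTheory Filter Topology Metric Asymptotics
open scoped Manifold ContDiff

namespace Pool.Agent.Zex

namespace ANV_

variable {V : Type} [NormedAddCommGroup V] [NormedSpace ℝ V]

theorem Rt_apply (J : V →L[ℝ] V) (s : ℝ) (z : V) :
    Rt J s z = Real.cos s • z + Real.sin s • J z := by
  simp [Rt]

theorem hasDerivAt_Rt {J : V →L[ℝ] V} (hJ : ∀ v, J (J v) = -v) (z : V) (t : ℝ) :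
    HasDerivAt (fun s => Rt J s z) (J (Rt J t z)) t := by
  have h1 : HasDerivAt (fun s : ℝ => Real.cos s • z + Real.sin s • J z)
      ((-Real.sin t) • z + Real.cos t • J z) t :=
    ((Real.hasDerivAt_cos t).smul_const z).add ((Real.hasDerivAt_sin t).smul_const (J z))
  have h2 : (fun s => Rt J s z) = fun s : ℝ => Real.cos s • z + Real.sin s • J z := by
    funext s
    exact Rt_apply J s z
  have h3 : J (Rt J t z) = (-Real.sin t) • z + Real.cos t • J z := by
    rw [Rt_apply, map_add, map_smul, map_smul, hJ]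
    simp only [smul_neg, neg_smul]
    abel
  rw [h2, h3]
  exact h1

theorem contDiff_Rt (J : V →L[ℝ] V) (z : V) : ContDiff ℝ 1 (fun s => Rt J s z) := by
  have h2 : (fun s => Rt J s z) = fun s : ℝ => Real.cos s • z + Real.sin s • J z := by
    funext s
    exact Rt_apply J s z
  rw [h2]
  exact (Real.contDiff_cos.smul contDiff_const).add (Real.contDiff_sin.smul contDiff_const)

theorem Rt_two_pi (J : V →L[ℝ] V) (z : V) : Rt J (2 * Real.pi) z = Rt J 0 z := by
  rw [Rt_apply, Rt_apply]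
  simp

theorem comp_deriv {J : V →L[ℝ] V} (hJ : ∀ v, J (J v) = -v) (F : V → V) (z : V) (t : ℝ)
    (hd : DifferentiableAt ℝ F (Rt J t z)) :
    HasDerivAt (fun s => F (Rt J s z)) (fderiv ℝ F (Rt J t z) (J (Rt J t z))) t :=
  hd.hasFDerivAt.comp_hasDerivAt t (hasDerivAt_Rt hJ z t)

theorem act_eq (Ω : V →L[ℝ] V →L[ℝ] ℝ) {J : V →L[ℝ] V} (hJ : ∀ v, J (J v) = -v) {P : V → V}
    (hP : Differentiable ℝ P) (z : V) :
    act Ω J P z = ∫ t in (0 : ℝ)..(2 * Real.pi), Ω (P (Rt J t z))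
      (deriv (fun t => P (Rt J t z)) t) := by
  unfold act
  congr 1
  funext t
  have h : HasDerivAt (fun t => P (Rt J t z)) (fderiv ℝ P (Rt J t z) (J (Rt J t z))) t :=
    (hP (Rt J t z)).hasFDerivAt.comp_hasDerivAt t (hasDerivAt_Rt hJ z t)
  rw [h.deriv]

end ANV_

open ANV_

theorem p_ANV (hVAR : T_VAR) (hARE : T_ARE) (hBDD : T_BDD) : T_ANV := by
  intro V _ _ _ Ω L J r T P N hΩ hEll hr hT0 hT hSy hP hN hP0 hN0 hP1 hNR hTP
  obtain ⟨C₀, -, hC₀⟩ := hBDD V Ω L J hEll.pres hEll.cs hEll.comm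
  have hJ : ∀ v, J (J v) = -v := hEll.cs.sq
  set C : ℝ := max C₀ 1 with hC
  have hC1 : 1 ≤ C := le_max_right _ _
  have hCpos : 0 < C := by linarith
  have hRt : ∀ (t : ℝ) (z : V), ‖Rt J t z‖ ≤ C * ‖z‖ := by
    intro t z
    exact ((Rt J t).le_opNorm z).trans
      (mul_le_mul_of_nonneg_right ((hC₀ t).trans (le_max_left _ _)) (norm_nonneg _))
  have hT1 : ContDiffAt ℝ 1 T 0 := hT.of_le (by exact_mod_cast hr)
  have hev : ∀ᶠ y in 𝓝 (0 : V), ContDiffAt ℝ 1 T y ∧ Pres Ω (fderiv ℝ T y) :=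
    (hT1.eventually (by simp)).and hSy
  obtain ⟨ρ, hρ, hρ'⟩ := Metric.eventually_nhds_iff_ball.1 hev
  have hTPat : ContDiffAt ℝ 1 (fun z => T (P z)) 0 := by
    have h1 : ContDiffAt ℝ 1 T (P 0) := by rw [hP0]; exact hT1
    exact h1.comp (0 : V) ((hP.of_le (by simp)).contDiffAt)
  have hPN : ContDiff ℝ 1 (fun z => P (N z)) := (hP.comp hN).of_le (by simp)
  have hb1 : ∃ K₁ : ℝ, 0 ≤ K₁ ∧ ∀ᶠ y in 𝓝 (0 : V), ‖fderiv ℝ (fun z => T (P z)) y‖ ≤ K₁ := by
    have hc : ContinuousAt (fderiv ℝ (fun z => T (P z))) 0 :=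
      (hTPat.fderiv_right (m := 0) (by simp)).continuousAt
    refine ⟨‖fderiv ℝ (fun z => T (P z)) 0‖ + 1, by positivity, ?_⟩
    filter_upwards [hc.norm.eventually (gt_mem_nhds (lt_add_one _))] with y hy
    exact hy.le
  have hb2 : ∃ K₂ : ℝ, 0 ≤ K₂ ∧ ∀ᶠ y in 𝓝 (0 : V), ‖fderiv ℝ (fun z => P (N z)) y‖ ≤ K₂ := by
    have hc : ContinuousAt (fderiv ℝ (fun z => P (N z))) 0 :=
      (hPN.contDiffAt.fderiv_right (m := 0) (by simp)).continuousAt
    refine ⟨‖fderiv ℝ (fun z => P (N z)) 0‖ + 1, by positivity, ?_⟩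
    filter_upwards [hc.norm.eventually (gt_mem_nhds (lt_add_one _))] with y hy
    exact hy.le
  obtain ⟨K₁, hK₁, hK₁'⟩ := hb1
  obtain ⟨K₂, hK₂, hK₂'⟩ := hb2
  set D : ℝ := 2 * Real.pi * (‖Ω‖ * (C ^ r * ((K₁ + K₂) * (‖J‖ * C)))) with hD
  have hDn : 0 ≤ D := by
    have := Real.pi_pos
    positivity
  rw [isLittleO_iff]
  intro ε hε
  have hε' : 0 < ε / (D + 1) := by positivity
  have hlo := (isLittleO_iff.1 hTP) hε'
  have hPball : ∀ᶠ y in 𝓝 (0 : V), P y ∈ ball (0 : V) ρ := by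
    have hc : ContinuousAt P 0 := hP.continuous.continuousAt
    have := hc.eventually (Metric.ball_mem_nhds (P 0) hρ)
    rw [hP0] at this
    exact this
  have hall := ((hlo.and hPball).and (hK₁'.and hK₂')).and (hTPat.eventually (by simp))
  obtain ⟨δ, hδ, hδ'⟩ := Metric.eventually_nhds_iff_ball.1 hall
  have hz : ∀ᶠ z in 𝓝 (0 : V), z ∈ ball (0 : V) (δ / C) :=
    Metric.ball_mem_nhds _ (by positivity)
  filter_upwards [hz] with z hz
  rw [mem_ball_zero_iff, lt_div_iff₀ hCpos] at hz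
  have hin : ∀ t : ℝ, Rt J t z ∈ ball (0 : V) δ := by
    intro t
    rw [mem_ball_zero_iff]
    refine (hRt t z).trans_lt ?_
    rw [mul_comm]
    exact hz
  -- the curves
  set c : ℝ → V := fun t => P (Rt J t z) with hcdef
  set b : ℝ → V := fun t => P (N (Rt J t z)) with hbdef
  have hcC : ContDiff ℝ 1 c := (hP.of_le (by simp)).comp (contDiff_Rt J z)
  have hbC : ContDiff ℝ 1 b := hPN.comp (contDiff_Rt J z)
  have hcball : ∀ t, c t ∈ ball (0 : V) ρ := fun t => ((hδ' _ (hin t)).1.1.2)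
  have haC : ContDiff ℝ 1 (fun t => T (c t)) := by
    rw [contDiff_iff_contDiffAt]
    intro t
    exact (hρ' _ (hcball t)).1.comp t hcC.contDiffAt
  have hc0 : c 0 = c (2 * Real.pi) := by
    simp only [hcdef, Rt_two_pi]
  have hb0 : b 0 = b (2 * Real.pi) := by
    simp only [hbdef, Rt_two_pi]
  have hactz : act Ω J P z = ∫ t in (0 : ℝ)..(2 * Real.pi), Ω (T (c t))
      (deriv (fun t => T (c t)) t) := by
    rw [hARE V Ω T ρ c hΩ.alt hρ' hcC hcball hc0, act_eq Ω hJ (hP.differentiable (by simp)) z]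
  have hactN : act Ω J P (N z) = ∫ t in (0 : ℝ)..(2 * Real.pi), Ω (b t) (deriv b t) := by
    rw [act_eq Ω hJ (hP.differentiable (by simp)) (N z)]
    have hfun : (fun t => P (Rt J t (N z))) = b := by
      funext t
      simp only [hbdef, hNR]
    congr 1
    funext t
    have h1 : P (Rt J t (N z)) = b t := congrFun hfun t
    rw [hfun, h1]
  have hdiff : act Ω J P (N z) - act Ω J P z = ∫ t in (0 : ℝ)..(2 * Real.pi),
      Ω (b t - T (c t)) (deriv (fun t => T (c t)) t + deriv b t) := by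
    rw [hactz, hactN]
    exact hVAR V Ω (fun t => T (c t)) b hΩ.alt haC hbC (by simp only [hc0]) hb0
  have hda : ∀ t, ‖deriv (fun t => T (c t)) t‖ ≤ K₁ * (‖J‖ * (C * ‖z‖)) := by
    intro t
    have hd : DifferentiableAt ℝ (fun z => T (P z)) (Rt J t z) :=
      (hδ' _ (hin t)).2.differentiableAt (by simp)
    have h : HasDerivAt (fun t => T (c t))
        (fderiv ℝ (fun z => T (P z)) (Rt J t z) (J (Rt J t z))) t :=
      comp_deriv hJ (fun z => T (P z)) z t hd
    rw [h.deriv]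
    refine (ContinuousLinearMap.le_opNorm _ _).trans ?_
    refine mul_le_mul (hδ' _ (hin t)).1.2.1 ?_ (norm_nonneg _) hK₁
    refine (ContinuousLinearMap.le_opNorm _ _).trans ?_
    exact mul_le_mul_of_nonneg_left (hRt t z) (norm_nonneg _)
  have hdb : ∀ t, ‖deriv b t‖ ≤ K₂ * (‖J‖ * (C * ‖z‖)) := by
    intro t
    have hd : DifferentiableAt ℝ (fun z => P (N z)) (Rt J t z) :=
      (hPN.differentiable (by simp)) _
    have h : HasDerivAt b
        (fderiv ℝ (fun z => P (N z)) (Rt J t z) (J (Rt J t z))) t :=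
      comp_deriv hJ (fun z => P (N z)) z t hd
    rw [h.deriv]
    refine (ContinuousLinearMap.le_opNorm _ _).trans ?_
    refine mul_le_mul (hδ' _ (hin t)).1.2.2 ?_ (norm_nonneg _) hK₂
    refine (ContinuousLinearMap.le_opNorm _ _).trans ?_
    exact mul_le_mul_of_nonneg_left (hRt t z) (norm_nonneg _)
  have hdf : ∀ t, ‖b t - T (c t)‖ ≤ ε / (D + 1) * (C ^ r * ‖z‖ ^ r) := by
    intro t
    have h1 := (hδ' _ (hin t)).1.1.1
    rw [norm_sub_rev]
    refine h1.trans ?_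
    refine mul_le_mul_of_nonneg_left ?_ hε'.le
    rw [Real.norm_of_nonneg (by positivity), ← mul_pow]
    exact pow_le_pow_left₀ (norm_nonneg _) (hRt t z) r
  rw [hdiff]
  have hbound : ∀ t ∈ Set.uIoc (0 : ℝ) (2 * Real.pi),
      ‖Ω (b t - T (c t)) (deriv (fun t => T (c t)) t + deriv b t)‖ ≤
      ‖Ω‖ * (ε / (D + 1) * (C ^ r * ‖z‖ ^ r)) * ((K₁ + K₂) * (‖J‖ * (C * ‖z‖))) := by
    intro t _
    refine (ContinuousLinearMap.le_opNorm₂ Ω _ _).trans ?_
    refine mul_le_mul ?_ ?_ (norm_nonneg _) (by positivity)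
    · exact mul_le_mul_of_nonneg_left (hdf t) (by positivity)
    · refine (norm_add_le _ _).trans ?_
      rw [add_mul]
      exact add_le_add (hda t) (hdb t)
  refine (intervalIntegral.norm_integral_le_of_norm_le_const hbound).trans ?_
  have hpi : |2 * Real.pi - 0| = 2 * Real.pi := by
    rw [sub_zero, abs_of_pos (by have := Real.pi_pos; positivity)]
  rw [hpi, Real.norm_of_nonneg (by positivity)]
  have hkey : ‖Ω‖ * (ε / (D + 1) * (C ^ r * ‖z‖ ^ r)) * ((K₁ + K₂) * (‖J‖ * (C * ‖z‖))) *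
      (2 * Real.pi) = ε / (D + 1) * D * ‖z‖ ^ (r + 1) := by
    rw [hD]
    ring
  rw [hkey]
  refine mul_le_mul_of_nonneg_right ?_ (by positivity)
  rw [div_mul_eq_mul_div, div_le_iff₀ (by positivity)]
  nlinarith

end Pool.Agent.Zex
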