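import Pool.Agent.Zex.Targets

/-!
# Symplectic maps preserve the area of small closed curves
-/

set_option autoImplicit false

open Set MeasureTheory Filter Topology Metric Asymptotics
open scoped Manifold ContDiff

namespace Pool.Agent.Zex

theorem p_ARE (hVAR : T_VAR) : T_ARE := by
  intro V _ _ _ Ω T ρ c hΩ hT hc hball hper
  have hπ : 0 < 2 * Real.pi := by positivity
  obtain ⟨t0, ht0, hmax⟩ := isCompact_Icc.exists_isMaxOn (nonempty_Icc.2 hπ.le)
    (hc.continuous.norm.continuousOn (s := Icc 0 (2 * Real.pi)))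
  set R : ℝ := ‖c t0‖ with hRd
  have hR : R < ρ := by
    have := hball t0
    rwa [mem_ball_zero_iff] at this
  have hR0 : 0 ≤ R := norm_nonneg _
  have hcR : ∀ t ∈ Icc 0 (2 * Real.pi), ‖c t‖ ≤ R := fun t ht => hmax ht
  have hKsub : closedBall (0 : V) R ⊆ ball (0 : V) ρ := closedBall_subset_ball hR
  have hτK : ∀ τ ∈ Icc (0 : ℝ) 1, ∀ t ∈ Icc 0 (2 * Real.pi), τ • c t ∈ closedBall (0 : V) R := by
    intro τ hτ t ht
    rw [mem_closedBall_zero_iff, norm_smul, Real.norm_eq_abs, abs_of_nonneg hτ.1]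
    calc τ * ‖c t‖ ≤ 1 * ‖c t‖ := mul_le_mul_of_nonneg_right hτ.2 (norm_nonneg _)
      _ ≤ R := by rw [one_mul]; exact hcR t ht
  have hτb : ∀ τ ∈ Icc (0 : ℝ) 1, ∀ t, τ • c t ∈ ball (0 : V) ρ := by
    intro τ hτ t
    have h1 := hball t
    rw [mem_ball_zero_iff] at h1 ⊢
    rw [norm_smul, Real.norm_eq_abs, abs_of_nonneg hτ.1]
    calc τ * ‖c t‖ ≤ 1 * ‖c t‖ := mul_le_mul_of_nonneg_right hτ.2 (norm_nonneg _)
      _ < ρ := by rw [one_mul]; exact h1
  have hTd : ContDiffOn ℝ 1 T (ball (0 : V) ρ) := fun y hy => (hT y hy).1.contDiffWithinAt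
  have hfc : ContinuousOn (fderiv ℝ T) (ball (0 : V) ρ) :=
    hTd.continuousOn_fderiv_of_isOpen isOpen_ball le_rfl
  obtain ⟨M, hM⟩ : ∃ M, ∀ y ∈ closedBall (0 : V) R, ‖fderiv ℝ T y‖ ≤ M :=
    (isCompact_closedBall 0 R).exists_bound_of_continuousOn (hfc.mono hKsub)
  have hM0 : 0 ≤ M := (norm_nonneg _).trans (hM 0 (mem_closedBall_self hR0))
  have hc' : Continuous (deriv c) := hc.continuous_deriv le_rfl
  obtain ⟨C', hC'⟩ : ∃ C', ∀ t ∈ Icc 0 (2 * Real.pi), ‖deriv c t‖ ≤ C' :=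
    isCompact_Icc.exists_bound_of_continuousOn hc'.continuousOn
  have hC'0 : 0 ≤ C' := (norm_nonneg _).trans (hC' t0 ht0)
  have hTdiff : ∀ y ∈ ball (0 : V) ρ, HasFDerivAt T (fderiv ℝ T y) y := fun y hy =>
    ((hT y hy).1.differentiableAt one_ne_zero).hasFDerivAt
  have hTlip : ∀ x ∈ closedBall (0 : V) R, ∀ y ∈ closedBall (0 : V) R,
      ‖T y - T x‖ ≤ M * ‖y - x‖ := by
    intro x hx y hy
    exact (convex_closedBall (0 : V) R).norm_image_sub_le_of_norm_hasFDerivWithin_le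
      (fun z hz => (hTdiff z (hKsub hz)).hasFDerivWithinAt) hM hx hy
  -- the curves
  set A : ℝ → ℝ → V := fun τ t => T (τ • c t) with hA
  have hAd : ∀ τ ∈ Icc (0 : ℝ) 1, ∀ t,
      HasDerivAt (A τ) (fderiv ℝ T (τ • c t) (τ • deriv c t)) t := by
    intro τ hτ t
    have h1 : HasDerivAt (fun t => τ • c t) (τ • deriv c t) t :=
      ((hc.differentiable one_ne_zero) t).hasDerivAt.const_smul τ
    exact (hTdiff _ (hτb τ hτ t)).comp_hasDerivAt t h1
  have hAd' : ∀ τ ∈ Icc (0 : ℝ) 1, ∀ t, deriv (A τ) t = fderiv ℝ T (τ • c t) (τ • deriv c t) :=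
    fun τ hτ t => (hAd τ hτ t).deriv
  have hAc : ∀ τ ∈ Icc (0 : ℝ) 1, ContDiff ℝ 1 (A τ) := by
    intro τ hτ
    rw [contDiff_iff_contDiffAt]
    intro t
    exact (hT _ (hτb τ hτ t)).1.comp t (contDiff_const.smul hc).contDiffAt
  set Φ : ℝ → ℝ := fun τ => ∫ t in (0 : ℝ)..(2 * Real.pi), Ω (A τ t) (deriv (A τ) t) with hΦ
  set S : ℝ := ∫ t in (0 : ℝ)..(2 * Real.pi), Ω (c t) (deriv c t) with hS
  have hvar : ∀ τ ∈ Icc (0 : ℝ) 1, ∀ τ' ∈ Icc (0 : ℝ) 1, Φ τ' - Φ τ =
      ∫ t in (0 : ℝ)..(2 * Real.pi), Ω (A τ' t - A τ t) (deriv (A τ) t + deriv (A τ') t) := by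
    intro τ hτ τ' hτ'
    exact hVAR V Ω (A τ) (A τ') hΩ (hAc τ hτ) (hAc τ' hτ') (by simp only [hA]; rw [hper])
      (by simp only [hA]; rw [hper])
  have hder : ∀ τ ∈ Icc (0 : ℝ) 1, HasDerivWithinAt Φ (2 * τ * S) (Icc 0 1) τ := by
    intro τ hτ
    rw [hasDerivWithinAt_iff_tendsto_slope]
    have hl : ∀ᶠ τ' in 𝓝[Icc (0 : ℝ) 1 \ {τ}] τ, τ' ∈ Icc (0 : ℝ) 1 ∧ τ' ≠ τ := by
      filter_upwards [self_mem_nhdsWithin] with τ' hτ'
      exact ⟨hτ'.1, hτ'.2⟩
    have heq : (fun τ' => ∫ t in (0 : ℝ)..(2 * Real.pi),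
        Ω ((τ' - τ)⁻¹ • (A τ' t - A τ t)) (deriv (A τ) t + deriv (A τ') t))
        =ᶠ[𝓝[Icc (0 : ℝ) 1 \ {τ}] τ] slope Φ τ := by
      filter_upwards [hl] with τ' hτ'
      rw [slope_def_module, hvar τ hτ τ' hτ'.1, smul_eq_mul, ← intervalIntegral.integral_const_mul]
      refine intervalIntegral.integral_congr fun t _ => ?_
      simp only [map_smul, _root_.smul_apply, smul_eq_mul]
    refine Tendsto.congr' heq ?_
    have hlim : ∫ t in (0 : ℝ)..(2 * Real.pi), Ω (fderiv ℝ T (τ • c t) (c t))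
        (fderiv ℝ T (τ • c t) (τ • deriv c t) + fderiv ℝ T (τ • c t) (τ • deriv c t)) =
        2 * τ * S := by
      rw [hS, ← intervalIntegral.integral_const_mul]
      refine intervalIntegral.integral_congr fun t _ => ?_
      have h1 := (hT _ (hτb τ hτ t)).2 (c t) (τ • deriv c t)
      simp only [map_add, map_smul, smul_eq_mul] at h1 ⊢
      rw [h1]
      ring
    rw [← hlim]
    refine intervalIntegral.tendsto_integral_filter_of_dominated_convergence
      (fun _ => ‖Ω‖ * (M * R) * (M * C' + M * C')) ?_ ?_ ?_ ?_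
    · filter_upwards [hl] with τ' hτ'
      have h1 : Continuous (fun t => A τ' t - A τ t) :=
        (hAc τ' hτ'.1).continuous.sub (hAc τ hτ).continuous
      have h2 : Continuous (fun t => deriv (A τ) t + deriv (A τ') t) :=
        ((hAc τ hτ).continuous_deriv le_rfl).add ((hAc τ' hτ'.1).continuous_deriv le_rfl)
      have h3 : Continuous (fun t => Ω ((τ' - τ)⁻¹ • (A τ' t - A τ t))
          (deriv (A τ) t + deriv (A τ') t)) :=
        (Ω.continuous.comp (h1.const_smul _)).clm_apply h2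
      exact h3.aestronglyMeasurable
    · filter_upwards [hl] with τ' hτ'
      refine Eventually.of_forall fun t ht => ?_
      rw [uIoc_of_le hπ.le] at ht
      have ht' : t ∈ Icc 0 (2 * Real.pi) := Ioc_subset_Icc_self ht
      have h1 : ‖(τ' - τ)⁻¹ • (A τ' t - A τ t)‖ ≤ M * R := by
        have h2 := hTlip _ (hτK τ hτ t ht') _ (hτK τ' hτ'.1 t ht')
        rw [← sub_smul, norm_smul] at h2
        have h3 : 0 < ‖τ' - τ‖ := norm_pos_iff.2 (sub_ne_zero.2 hτ'.2)
        rw [norm_smul, norm_inv, inv_mul_le_iff₀ h3]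
        calc ‖A τ' t - A τ t‖ ≤ M * (‖τ' - τ‖ * ‖c t‖) := h2
          _ ≤ M * (‖τ' - τ‖ * R) := by
              refine mul_le_mul_of_nonneg_left ?_ hM0
              exact mul_le_mul_of_nonneg_left (hcR t ht') h3.le
          _ = ‖τ' - τ‖ * (M * R) := by ring
      have h4 : ∀ σ ∈ Icc (0 : ℝ) 1, ‖deriv (A σ) t‖ ≤ M * C' := by
        intro σ hσ
        rw [hAd' σ hσ]
        calc ‖fderiv ℝ T (σ • c t) (σ • deriv c t)‖ ≤ ‖fderiv ℝ T (σ • c t)‖ * ‖σ • deriv c t‖ :=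
              ContinuousLinearMap.le_opNorm _ _
          _ ≤ M * C' := by
              refine mul_le_mul (hM _ (hτK σ hσ t ht')) ?_ (norm_nonneg _) hM0
              rw [norm_smul, Real.norm_eq_abs, abs_of_nonneg hσ.1]
              calc σ * ‖deriv c t‖ ≤ 1 * ‖deriv c t‖ :=
                    mul_le_mul_of_nonneg_right hσ.2 (norm_nonneg _)
                _ ≤ C' := by rw [one_mul]; exact hC' t ht'
      calc ‖Ω ((τ' - τ)⁻¹ • (A τ' t - A τ t)) (deriv (A τ) t + deriv (A τ') t)‖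
          ≤ ‖Ω‖ * ‖(τ' - τ)⁻¹ • (A τ' t - A τ t)‖ * ‖deriv (A τ) t + deriv (A τ') t‖ :=
            Ω.le_opNorm₂ _ _
        _ ≤ ‖Ω‖ * (M * R) * (M * C' + M * C') := by
            refine mul_le_mul ?_ ?_ (norm_nonneg _) (by positivity)
            · exact mul_le_mul_of_nonneg_left h1 (norm_nonneg Ω)
            · exact (norm_add_le _ _).trans (add_le_add (h4 τ hτ) (h4 τ' hτ'.1))
    · exact intervalIntegrable_const
    · refine Eventually.of_forall fun t _ => ?_
      have h1 : Tendsto (fun τ' => (τ' - τ)⁻¹ • (A τ' t - A τ t)) (𝓝[Icc (0 : ℝ) 1 \ {τ}] τ)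
          (𝓝 (fderiv ℝ T (τ • c t) (c t))) := by
        have h2 : HasDerivAt (fun s : ℝ => s • c t) (c t) τ := by
          have := (hasDerivAt_id τ).smul_const (c t)
          simpa using this
        have h3 : HasDerivAt (fun s : ℝ => T (s • c t)) (fderiv ℝ T (τ • c t) (c t)) τ :=
          (hTdiff _ (hτb τ hτ t)).comp_hasDerivAt τ h2
        have h4 := (hasDerivAt_iff_tendsto_slope.1 h3).mono_left
          (nhdsWithin_mono τ (fun x hx => hx.2 : Icc (0 : ℝ) 1 \ {τ} ⊆ {τ}ᶜ))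
        refine h4.congr fun τ' => ?_
        rw [slope_def_module]
      have h5 : Tendsto (fun τ' => deriv (A τ') t) (𝓝[Icc (0 : ℝ) 1 \ {τ}] τ)
          (𝓝 (fderiv ℝ T (τ • c t) (τ • deriv c t))) := by
        have h6 : Tendsto (fun τ' : ℝ => fderiv ℝ T (τ' • c t) (τ' • deriv c t))
            (𝓝[Icc (0 : ℝ) 1 \ {τ}] τ) (𝓝 (fderiv ℝ T (τ • c t) (τ • deriv c t))) := by
          have h7 : ContinuousAt (fun τ' : ℝ => fderiv ℝ T (τ' • c t)) τ := by
            have h8 : ContinuousAt (fderiv ℝ T) (τ • c t) :=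
              hfc.continuousAt (isOpen_ball.mem_nhds (hτb τ hτ t))
            exact ContinuousAt.comp (f := fun τ' : ℝ => τ' • c t) h8
              (continuous_id.smul continuous_const).continuousAt
          have h9 : ContinuousAt (fun τ' : ℝ => fderiv ℝ T (τ' • c t) (τ' • deriv c t)) τ :=
            h7.clm_apply (continuous_id.smul continuous_const).continuousAt
          exact h9.tendsto.mono_left nhdsWithin_le_nhds
        refine h6.congr' ?_
        filter_upwards [hl] with τ' hτ'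
        rw [hAd' τ' hτ'.1]
      have h10 : Tendsto (fun τ' => deriv (A τ) t + deriv (A τ') t) (𝓝[Icc (0 : ℝ) 1 \ {τ}] τ)
          (𝓝 (fderiv ℝ T (τ • c t) (τ • deriv c t) + fderiv ℝ T (τ • c t) (τ • deriv c t))) := by
        rw [hAd' τ hτ]
        exact tendsto_const_nhds.add h5
      exact (Ω.isBoundedBilinearMap.continuous.tendsto _).comp (h1.prodMk_nhds h10)
  -- conclusion
  have hF : ∀ τ ∈ Icc (0 : ℝ) 1, HasDerivWithinAt (fun τ => Φ τ - τ ^ 2 * S) 0 (Icc 0 1) τ := by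
    intro τ hτ
    have h1 : HasDerivWithinAt (fun τ : ℝ => τ ^ 2 * S) (2 * τ * S) (Icc 0 1) τ := by
      have h2 := ((hasDerivAt_pow 2 τ).mul_const S).hasDerivWithinAt (s := Icc 0 1)
      simpa using h2
    have h3 := (hder τ hτ).sub h1
    rwa [sub_self] at h3
  have hconst := constant_of_derivWithin_zero (f := fun τ => Φ τ - τ ^ 2 * S) (a := 0) (b := 1)
    (fun τ hτ => (hF τ hτ).differentiableWithinAt)
    (fun τ hτ => (hF τ (Ico_subset_Icc_self hτ)).derivWithin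
      (uniqueDiffOn_Icc one_pos τ (Ico_subset_Icc_self hτ)))
  have h1 := hconst 1 (right_mem_Icc.2 zero_le_one)
  have h0 : Φ 0 = 0 := by
    rw [hΦ]
    have h2 : ∀ t, Ω (A 0 t) (deriv (A 0) t) = 0 := by
      intro t
      rw [hAd' 0 (left_mem_Icc.2 zero_le_one), zero_smul, zero_smul, map_zero, map_zero]
    simp only [h2]
    exact intervalIntegral.integral_zero
  simp only [h0] at h1
  have h2 : Φ 1 = ∫ t in (0 : ℝ)..(2 * Real.pi), Ω (T (c t)) (deriv (fun t => T (c t)) t) := by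
    simp only [hΦ, hA, one_smul]
  rw [← h2]
  linarith

end Pool.Agent.Zex
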