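import Pool.Agent.Zex.Defs

/-!
# Symplectic periodic points all of whose exponents vanish: the targets of the jobs
-/

set_option autoImplicit false

open Set MeasureTheory Filter Topology Metric Asymptotics
open scoped Manifold ContDiff

namespace Pool.Agent.Zex

open Pool.Agent.Pal (E Ch IsDiffeo IsVolume Rob Uni Mod Near Nbd OneSink ext)

/-! ## Linear algebra -/

/-- The spectral radius formula. -/
def T_GRW : Prop := ∀ (V : Type) [NormedAddCommGroup V] [NormedSpace ℝ V] [FiniteDimensional ℝ V]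
  (L : V →L[ℝ] V),
  (∀ z : ℂ, ((L : V →ₗ[ℝ] V).charpoly.map (algebraMap ℝ ℂ)).IsRoot z → ‖z‖ ≤ 1) → SubExp L

/-- The inverse of a map that preserves `Ω`. -/
def T_INV : Prop := ∀ (V : Type) [NormedAddCommGroup V] [NormedSpace ℝ V] [FiniteDimensional ℝ V]
  (Ω : V →L[ℝ] V →L[ℝ] ℝ) (L : V →L[ℝ] V), Sf Ω → Pres Ω L →
  ∃ L' : V →L[ℝ] V, (∀ v, L' (L v) = v) ∧ (∀ v, L (L' v) = v) ∧ Pres Ω L' ∧
    (SubExp L → SubExp L')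

/-- A vector in a real eigenspace or in a plane on which `L` is a rotation. -/
def T_EV : Prop := ∀ (V : Type) [NormedAddCommGroup V] [NormedSpace ℝ V] [FiniteDimensional ℝ V]
  (L L' : V →L[ℝ] V), Nontrivial V → (∀ v, L' (L v) = v) → (∀ v, L (L' v) = v) → SubExp L →
  SubExp L' → ∃ (v : V) (c : ℝ), v ≠ 0 ∧ |c| ≤ 1 ∧ L (L v) = (2 * c) • L v - v ∧
    (|c| = 1 → L v = c • v)

/-- The case of a symplectic plane. -/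
def T_PLA : Prop := ∀ (V : Type) [NormedAddCommGroup V] [NormedSpace ℝ V] [FiniteDimensional ℝ V]
  (Ω : V →L[ℝ] V →L[ℝ] ℝ) (L : V →L[ℝ] V) (v : V) (c : ℝ), Sf Ω → Pres Ω L → SubExp L →
  v ≠ 0 → |c| ≤ 1 → L (L v) = (2 * c) • L v - v → (|c| = 1 → L v = c • v) → Ω v (L v) ≠ 0 →
  ∃ (Z : Submodule ℝ V) (LZ : Z →L[ℝ] Z), Module.finrank ℝ Z < Module.finrank ℝ V ∧
    Sf (rs Ω Z) ∧ Pres (rs Ω Z) LZ ∧ SubExp LZ ∧ (Good (rs Ω Z) LZ → Good Ω L)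

/-- Normal form with respect to an invariant isotropic subspace `W` on which `L` preserves the
inner product `q`. -/
structure Blk {V : Type} [NormedAddCommGroup V] [NormedSpace ℝ V] (Ω : V →L[ℝ] V →L[ℝ] ℝ)
    (L : V →L[ℝ] V) (W Z : Submodule ℝ V) (q : W →L[ℝ] W →L[ℝ] ℝ) (A : W →L[ℝ] W)
    (LZ : Z →L[ℝ] Z) (Φ : (W × Z × W) ≃L[ℝ] V) : Prop where
  form : ∀ x y : W × Z × W, Ω (Φ x) (Φ y) = rs Ω Z x.2.1 y.2.1 + q x.1 y.2.2 - q x.2.2 y.1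
  q_symm : ∀ a b, q a b = q b a
  q_pos : ∀ a, a ≠ 0 → 0 < q a a
  q_pres : ∀ a b, q (A a) (A b) = q a b
  map_W : ∀ a : W, L (Φ (a, 0, 0)) = Φ (A a, 0, 0)
  map_Z : ∀ z : Z, ∃ a : W, L (Φ (0, z, 0)) = Φ (a, LZ z, 0)

/-- The normal form exists. -/
def T_SPL : Prop := ∀ (V : Type) [NormedAddCommGroup V] [NormedSpace ℝ V] [FiniteDimensional ℝ V]
  (Ω : V →L[ℝ] V →L[ℝ] ℝ) (L : V →L[ℝ] V) (v : V) (c : ℝ), Sf Ω → Pres Ω L → SubExp L →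
  v ≠ 0 → |c| ≤ 1 → L (L v) = (2 * c) • L v - v → (|c| = 1 → L v = c • v) → Ω v (L v) = 0 →
  ∃ (W Z : Submodule ℝ V) (q : W →L[ℝ] W →L[ℝ] ℝ) (A : W →L[ℝ] W) (LZ : Z →L[ℝ] Z)
    (Φ : (W × Z × W) ≃L[ℝ] V), Blk Ω L W Z q A LZ Φ ∧
    Module.finrank ℝ Z < Module.finrank ℝ V ∧ Sf (rs Ω Z) ∧ SubExp LZ

/-- The Cayley transform argument. -/
def T_STP : Prop := ∀ (V : Type) [NormedAddCommGroup V] [NormedSpace ℝ V] [FiniteDimensional ℝ V]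
  (Ω : V →L[ℝ] V →L[ℝ] ℝ) (L : V →L[ℝ] V) (W Z : Submodule ℝ V) (q : W →L[ℝ] W →L[ℝ] ℝ)
  (A : W →L[ℝ] W) (LZ : Z →L[ℝ] Z) (Φ : (W × Z × W) ≃L[ℝ] V), Sf Ω → Pres Ω L →
  Sf (rs Ω Z) → Blk Ω L W Z q A LZ Φ → Pres (rs Ω Z) LZ ∧ (Good (rs Ω Z) LZ → Good Ω L)

/-- A symplectic map with subexponential growth is a limit of elliptic ones. -/
def T_LA : Prop := ∀ (V : Type) [NormedAddCommGroup V] [NormedSpace ℝ V] [FiniteDimensional ℝ V]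
  (Ω : V →L[ℝ] V →L[ℝ] ℝ) (L : V →L[ℝ] V), Sf Ω → Pres Ω L → SubExp L → Good Ω L

/-- A small rotation makes the powers of an elliptic map dense in the circle. -/
def T_DNS : Prop := ∀ (V : Type) [NormedAddCommGroup V] [NormedSpace ℝ V] [FiniteDimensional ℝ V]
  (Ω : V →L[ℝ] V →L[ℝ] ℝ) (L J : V →L[ℝ] V), Sf Ω → Pres Ω L → Cs Ω J →
  (∀ v, L (J v) = J (L v)) → ∀ ε : ℝ, 0 < ε → ∃ t : ℝ, |t| ≤ ε ∧ Ell Ω (Rt J t ∘L L) J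

/-- The result of the linear part. -/
def T_LIN : Prop := ∀ (V : Type) [NormedAddCommGroup V] [NormedSpace ℝ V] [FiniteDimensional ℝ V]
  (Ω : V →L[ℝ] V →L[ℝ] ℝ) (L : V →L[ℝ] V), Sf Ω → Pres Ω L → SubExp L →
  ∀ ε : ℝ, 0 < ε → ∃ L' J : V →L[ℝ] V, ‖L' - L‖ < ε ∧ Ell Ω L' J

/-! ## The almost invariant function -/

/-- Homogeneous polynomial maps. -/
def T_HPF : Prop := ∀ (V : Type) [NormedAddCommGroup V] [NormedSpace ℝ V] [FiniteDimensional ℝ V]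
  (j : ℕ), FiniteDimensional ℝ (hp V j) ∧ ∀ e ∈ hp V j,
    (∀ A B : V →L[ℝ] V, (fun z => A (e (B z))) ∈ hp V j) ∧ ContDiff ℝ ∞ e ∧
    (∀ (t : ℝ) (z : V), e (t • z) = t ^ j • e z) ∧ ∃ C : ℝ, ∀ z, ‖e z‖ ≤ C * ‖z‖ ^ j

/-- The leading term of a `C^j` map. -/
def T_TAY : Prop := ∀ (V : Type) [NormedAddCommGroup V] [NormedSpace ℝ V] [FiniteDimensional ℝ V]
  (j : ℕ) (u : V → V), 1 ≤ j → ContDiffAt ℝ j u 0 → u =o[𝓝 0] (fun z => ‖z‖ ^ (j - 1)) →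
  ∃ e ∈ hp V j, (fun z => u z - e z) =o[𝓝 0] (fun z => ‖z‖ ^ j)

/-- The powers of an elliptic map are bounded. -/
def T_BDD : Prop := ∀ (V : Type) [NormedAddCommGroup V] [NormedSpace ℝ V] [FiniteDimensional ℝ V]
  (Ω : V →L[ℝ] V →L[ℝ] ℝ) (L J : V →L[ℝ] V), Pres Ω L → Cs Ω J → (∀ v, L (J v) = J (L v)) →
  ∃ C : ℝ, (∀ n : ℕ, ‖L ^ n‖ ≤ C) ∧ ∀ t : ℝ, ‖Rt J t‖ ≤ C

/-- The homological equation. -/
def T_COH : Prop := ∀ (V : Type) [NormedAddCommGroup V] [NormedSpace ℝ V] [FiniteDimensional ℝ V]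
  (Ω : V →L[ℝ] V →L[ℝ] ℝ) (L J : V →L[ℝ] V) (j : ℕ) (e : V → V), Sf Ω → Ell Ω L J →
  e ∈ hp V j → ∃ q ∈ hp V j, ∃ n ∈ hp V j, (∀ z, n z = e z + L (q z) - q (L z)) ∧
    ∀ (t : ℝ) (z : V), n (Rt J t z) = Rt J t (n z)

/-- The normal form. -/
def T_NF : Prop := ∀ (V : Type) [NormedAddCommGroup V] [NormedSpace ℝ V] [FiniteDimensional ℝ V]
  (Ω : V →L[ℝ] V →L[ℝ] ℝ) (L J : V →L[ℝ] V) (r : ℕ) (T : V → V), Sf Ω → Ell Ω L J → 1 ≤ r →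
  T 0 = 0 → ContDiffAt ℝ r T 0 → fderiv ℝ T 0 = L →
  ∃ P N : V → V, ContDiff ℝ ∞ P ∧ ContDiff ℝ ∞ N ∧ P 0 = 0 ∧ N 0 = 0 ∧
    fderiv ℝ P 0 = ContinuousLinearMap.id ℝ V ∧
    (∀ (t : ℝ) (z : V), N (Rt J t z) = Rt J t (N z)) ∧
    (fun z => T (P z) - P (N z)) =o[𝓝 0] (fun z => ‖z‖ ^ r)

/-- The variation of the area of a closed curve. -/
def T_VAR : Prop := ∀ (V : Type) [NormedAddCommGroup V] [NormedSpace ℝ V]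
  (Ω : V →L[ℝ] V →L[ℝ] ℝ) (a b : ℝ → V), (∀ v, Ω v v = 0) → ContDiff ℝ 1 a → ContDiff ℝ 1 b →
  a 0 = a (2 * Real.pi) → b 0 = b (2 * Real.pi) →
  (∫ t in (0 : ℝ)..(2 * Real.pi), Ω (b t) (deriv b t)) -
    (∫ t in (0 : ℝ)..(2 * Real.pi), Ω (a t) (deriv a t)) =
    ∫ t in (0 : ℝ)..(2 * Real.pi), Ω (b t - a t) (deriv a t + deriv b t)

/-- A symplectic map preserves the area of small closed curves. -/
def T_ARE : Prop := ∀ (V : Type) [NormedAddCommGroup V] [NormedSpace ℝ V] [FiniteDimensional ℝ V]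
  (Ω : V →L[ℝ] V →L[ℝ] ℝ) (T : V → V) (ρ : ℝ) (c : ℝ → V), (∀ v, Ω v v = 0) →
  (∀ y ∈ ball (0 : V) ρ, ContDiffAt ℝ 1 T y ∧ Pres Ω (fderiv ℝ T y)) → ContDiff ℝ 1 c →
  (∀ t, c t ∈ ball (0 : V) ρ) → c 0 = c (2 * Real.pi) →
  ∫ t in (0 : ℝ)..(2 * Real.pi), Ω (T (c t)) (deriv (fun t => T (c t)) t) =
    ∫ t in (0 : ℝ)..(2 * Real.pi), Ω (c t) (deriv c t)

/-- The action is smooth with a nondegenerate minimum at `0`. -/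
def T_ACT : Prop := ∀ (V : Type) [NormedAddCommGroup V] [NormedSpace ℝ V] [FiniteDimensional ℝ V]
  (Ω : V →L[ℝ] V →L[ℝ] ℝ) (J : V →L[ℝ] V) (P : V → V), Cs Ω J → ContDiff ℝ ∞ P → P 0 = 0 →
  fderiv ℝ P 0 = ContinuousLinearMap.id ℝ V →
  ContDiff ℝ ∞ (act Ω J P) ∧ act Ω J P 0 = 0 ∧ fderiv ℝ (act Ω J P) 0 = 0 ∧
    ∃ b : ℝ, 0 < b ∧ ∀ᶠ z in 𝓝 (0 : V), b * ‖z‖ ^ 2 ≤ act Ω J P z

/-- The action is almost invariant under `N`. -/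
def T_ANV : Prop := ∀ (V : Type) [NormedAddCommGroup V] [NormedSpace ℝ V] [FiniteDimensional ℝ V]
  (Ω : V →L[ℝ] V →L[ℝ] ℝ) (L J : V →L[ℝ] V) (r : ℕ) (T P N : V → V), Sf Ω → Ell Ω L J → 1 ≤ r →
  T 0 = 0 → ContDiffAt ℝ r T 0 → Sy Ω T → ContDiff ℝ ∞ P → ContDiff ℝ ∞ N → P 0 = 0 →
  N 0 = 0 → fderiv ℝ P 0 = ContinuousLinearMap.id ℝ V →
  (∀ (t : ℝ) (z : V), N (Rt J t z) = Rt J t (N z)) →
  (fun z => T (P z) - P (N z)) =o[𝓝 0] (fun z => ‖z‖ ^ r) →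
  (fun z => act Ω J P (N z) - act Ω J P z) =o[𝓝 0] (fun z => ‖z‖ ^ (r + 1))

/-- The almost invariant function of a symplectic germ with an elliptic derivative. -/
def T_SBK : Prop := ∀ (V : Type) [NormedAddCommGroup V] [NormedSpace ℝ V] [FiniteDimensional ℝ V]
  (Ω : V →L[ℝ] V →L[ℝ] ℝ) (L J : V →L[ℝ] V) (r : ℕ) (T : V → V), Sf Ω → Ell Ω L J → 1 ≤ r →
  T 0 = 0 → ContDiffAt ℝ r T 0 → fderiv ℝ T 0 = L → Sy Ω T →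
  ∃ (I : V → ℝ) (b : ℝ), ContDiffAt ℝ ∞ I 0 ∧ I 0 = 0 ∧ 0 < b ∧
    (∀ᶠ y in 𝓝 (0 : V), b * ‖y‖ ^ 2 ≤ I y) ∧
    (fun y => I (T y) - I y) =o[𝓝 0] (fun y => ‖y‖ ^ (r + 1))

/-! ## The local perturbation -/

/-- The inverse of a smooth family of small modifications of the identity. -/
def T_FAM : Prop := ∀ (F V : Type) [NormedAddCommGroup F] [NormedSpace ℝ F]
  [FiniteDimensional ℝ F] [NormedAddCommGroup V] [NormedSpace ℝ V] [FiniteDimensional ℝ V]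
  (G : F × V → V), ContDiff ℝ ∞ G → (∀ (y : F) (u : V), ‖fderiv ℝ (fun w => G (y, w)) u‖ ≤ 1 / 2) →
  ∃ R : F × V → V, ContDiff ℝ ∞ R ∧ (∀ (y : F) (u : V), R (y, u + G (y, u)) = u) ∧
    ∀ (y : F) (z : V), R (y, z) + G (y, R (y, z)) = z

/-- The determinant of `1 + S` for a skew map `S`. -/
def T_DTS : Prop := ∀ (V : Type) [NormedAddCommGroup V] [NormedSpace ℝ V] [FiniteDimensional ℝ V]
  (Ω : V →L[ℝ] V →L[ℝ] ℝ) (S : V →L[ℝ] V), Sf Ω → (∀ v w, Ω (S v) w = -Ω v (S w)) →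
  (ContinuousLinearMap.id ℝ V + S).det = (ContinuousLinearMap.id ℝ V - S).det

/-- The symplectic gradient of a cut off quadratic form, as a smooth family. -/
def T_HAM : Prop := ∀ (V : Type) [NormedAddCommGroup V] [NormedSpace ℝ V] [FiniteDimensional ℝ V]
  (Ω : V →L[ℝ] V →L[ℝ] ℝ) (σ : ℝ), Sf Ω → 0 < σ →
  ∃ X : (V →L[ℝ] V) × V → V, ContDiff ℝ ∞ X ∧ (∀ (Y : V →L[ℝ] V) (u : V), σ ≤ ‖u‖ → X (Y, u) = 0) ∧
    (∀ Y : V →L[ℝ] V, (∀ v w, Ω (Y v) w = -Ω v (Y w)) →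
      (∀ᶠ u in 𝓝 (0 : V), X (Y, u) = Y u) ∧
      ∀ u v w, Ω (fderiv ℝ (fun z => X (Y, z)) u v) w = -Ω v (fderiv ℝ (fun z => X (Y, z)) u w)) ∧
    ∀ u, X (0, u) = 0

/-- Extension of a symplectic linear map. -/
def T_SYX : Prop := ∀ (n : ℕ) (Ω : E n →L[ℝ] E n →L[ℝ] ℝ) (σ : ℝ) (r : ℕ) (δ : ℝ), Sf Ω →
  0 < σ → 0 < δ → ∃ η : ℝ, 0 < η ∧ ∀ B : E n →L[ℝ] E n, Pres Ω B →
    ‖B - ContinuousLinearMap.id ℝ (E n)‖ ≤ η →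
    ∃ L : E n → E n, Mod (closedBall 0 σ) L ∧ Near r δ L ∧ (∀ z, (fderiv ℝ L z).det = 1) ∧
      ∀ᶠ z in 𝓝 (0 : E n), L z = B z

/-! ## The theorem -/

/-- A chart in which `μ` is Lebesgue measure can be translated. -/
def T_TRL : Prop := ∀ (n : ℕ) (M : Type) [TopologicalSpace M] [ChartedSpace (E n) M]
  [IsManifold 𝓘(ℝ, E n) ∞ M] [MeasurableSpace M] [BorelSpace M] (μ : Measure M)
  (e : OpenPartialHomeomorph M (E n)) (p : M), Uni μ e → p ∈ e.source →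
  ∃ e₀ : OpenPartialHomeomorph M (E n), Uni μ e₀ ∧ e₀.source = e.source ∧
    (∀ x, e₀ x = e x - e p) ∧ ∀ y, e₀.symm y = e.symm (y + e p)

def T_MAIN6 : Prop := ∀ (n : ℕ) (M : Type) [MetricSpace M] [ChartedSpace (E n) M]
  [IsManifold 𝓘(ℝ, E n) ∞ M] [CompactSpace M] [ConnectedSpace M] [MeasurableSpace M]
  [BorelSpace M] (μ : Measure M) (s : ℕ∞) (r : ℕ) (f : M → M) (U : Set (M → M)) (m : ℕ) (p : M)
  (e : OpenPartialHomeomorph M (E n)) (Ω : E n →L[ℝ] E n →L[ℝ] ℝ),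
  1 ≤ n → 1 ≤ r → (r : ℕ∞) ≤ s → IsVolume n μ → IsDiffeo n s f → MeasurePreserving f μ μ →
  Rob n s r U → f ∈ U → 1 ≤ m → f^[m] p = p → (∀ i, 0 < i → i < m → f^[i] p ≠ p) →
  Uni μ e → p ∈ e.source → Sf Ω →
  (∀ᶠ y in 𝓝 (e p), Pres Ω (fderiv ℝ (e ∘ f^[m] ∘ e.symm) y)) →
  (∀ z : ℂ, ((fderiv ℝ (e ∘ f^[m] ∘ e.symm) (e p) : E n →ₗ[ℝ] E n).charpoly.map
    (algebraMap ℝ ℂ)).IsRoot z → ‖z‖ = 1) →
  ∃ g ∈ U, IsDiffeo n s g ∧ Nbd n g {g' | OneSink μ g'}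

end Pool.Agent.Zex
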