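import Mathlib
import Pool.Agent.Zex.Targets

/-!
# Powers of an elliptic symplectic map are bounded
-/

set_option autoImplicit false

open Set MeasureTheory Filter Topology Metric Asymptotics
open scoped Manifold ContDiff

namespace Pool.Agent.Zex

namespace BDD_

variable {V : Type} [NormedAddCommGroup V] [NormedSpace ℝ V]

/-- the quadratic form of a compatible complex structure is bounded below -/
theorem lower [FiniteDimensional ℝ V] (Ω : V →L[ℝ] V →L[ℝ] ℝ) (J : V →L[ℝ] V) (hJ : Cs Ω J) :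
    ∃ κ : ℝ, 0 < κ ∧ ∀ v : V, κ * ‖v‖ ^ 2 ≤ Ω v (J v) := by
  have hc : Continuous fun v : V => Ω v (J v) := by fun_prop
  have hcomp : IsCompact (sphere (0 : V) 1) := isCompact_sphere 0 1
  rcases (sphere (0 : V) 1).eq_empty_or_nonempty with he | hne
  · refine ⟨1, one_pos, fun v => ?_⟩
    have hv : v = 0 := by
      by_contra h
      have hn : ‖v‖ ≠ 0 := norm_ne_zero_iff.2 h
      have hm : (‖v‖⁻¹ • v) ∈ sphere (0 : V) 1 := by
        rw [mem_sphere_zero_iff_norm, norm_smul, norm_inv, norm_norm, inv_mul_cancel₀ hn]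
      rw [he] at hm
      exact hm
    subst hv
    simp
  · obtain ⟨w, hw, hmin⟩ := hcomp.exists_isMinOn hne hc.continuousOn
    have hw1 : ‖w‖ = 1 := mem_sphere_zero_iff_norm.1 hw
    have hw0 : w ≠ 0 := by
      intro h
      rw [h, norm_zero] at hw1
      exact zero_ne_one hw1
    refine ⟨Ω w (J w), hJ.pos w hw0, fun v => ?_⟩
    by_cases h : v = 0
    · subst h
      simp
    have hn : ‖v‖ ≠ 0 := norm_ne_zero_iff.2 h
    have hm : (‖v‖⁻¹ • v) ∈ sphere (0 : V) 1 := by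
      rw [mem_sphere_zero_iff_norm, norm_smul, norm_inv, norm_norm, inv_mul_cancel₀ hn]
    have h1 := hmin hm
    have h2 : Ω (‖v‖⁻¹ • v) (J (‖v‖⁻¹ • v)) = ‖v‖⁻¹ ^ 2 * Ω v (J v) := by
      rw [map_smul, map_smul, map_smul]
      simp only [smul_apply, smul_eq_mul]
      ring
    have h3 : Ω w (J w) ≤ ‖v‖⁻¹ ^ 2 * Ω v (J v) := by
      rw [← h2]
      exact h1
    calc Ω w (J w) * ‖v‖ ^ 2 ≤ (‖v‖⁻¹ ^ 2 * Ω v (J v)) * ‖v‖ ^ 2 :=
          mul_le_mul_of_nonneg_right h3 (sq_nonneg _)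
      _ = Ω v (J v) := by
          field_simp

/-- the quadratic form is invariant -/
theorem inv_pow (Ω : V →L[ℝ] V →L[ℝ] ℝ) (L J : V →L[ℝ] V) (hL : Pres Ω L)
    (hc : ∀ v, L (J v) = J (L v)) (n : ℕ) :
    ∀ v : V, Ω ((L ^ n) v) (J ((L ^ n) v)) = Ω v (J v) := by
  induction n with
  | zero => intro v; simp
  | succ n ih =>
    intro v
    have h : (L ^ (n + 1)) v = L ((L ^ n) v) := by
      rw [pow_succ']
      rfl
    rw [h, ← hc, hL, ih]

end BDD_

theorem p_BDD : T_BDD := by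
  intro V _ _ _ Ω L J hL hJ hc
  obtain ⟨κ, hκ, hlow⟩ := BDD_.lower Ω J hJ
  set M : ℝ := ‖Ω‖ * ‖J‖ with hM
  have hM0 : 0 ≤ M := by positivity
  have hup : ∀ v : V, Ω v (J v) ≤ M * ‖v‖ ^ 2 := by
    intro v
    calc Ω v (J v) ≤ ‖Ω v (J v)‖ := Real.le_norm_self _
      _ ≤ ‖Ω v‖ * ‖J v‖ := (Ω v).le_opNorm _
      _ ≤ (‖Ω‖ * ‖v‖) * (‖J‖ * ‖v‖) :=
          mul_le_mul (Ω.le_opNorm v) (J.le_opNorm v) (norm_nonneg _) (by positivity)
      _ = M * ‖v‖ ^ 2 := by rw [hM]; ring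
  refine ⟨max (√(M / κ)) (1 + ‖J‖), fun n => ?_, fun t => ?_⟩
  · refine le_trans ?_ (le_max_left _ _)
    refine ContinuousLinearMap.opNorm_le_bound _ (Real.sqrt_nonneg _) fun v => ?_
    have h1 : κ * ‖(L ^ n) v‖ ^ 2 ≤ M * ‖v‖ ^ 2 :=
      (hlow _).trans ((BDD_.inv_pow Ω L J hL hc n v).le.trans (hup v))
    have h2 : ‖(L ^ n) v‖ ^ 2 ≤ (√(M / κ) * ‖v‖) ^ 2 := by
      rw [mul_pow, Real.sq_sqrt (by positivity)]
      rw [div_mul_eq_mul_div, le_div_iff₀ hκ]
      linarith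
    exact (sq_le_sq₀ (norm_nonneg _) (by positivity)).1 h2
  · refine le_trans ?_ (le_max_right _ _)
    have h1 : ‖Real.cos t • ContinuousLinearMap.id ℝ V‖ ≤ 1 := by
      rw [norm_smul]
      have h2 : ‖Real.cos t‖ ≤ 1 := by
        rw [Real.norm_eq_abs]
        exact Real.abs_cos_le_one t
      exact (mul_le_mul h2 ContinuousLinearMap.norm_id_le (norm_nonneg _) zero_le_one).trans
        (by norm_num)
    have h3 : ‖Real.sin t • J‖ ≤ ‖J‖ := by
      rw [norm_smul]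
      have h2 : ‖Real.sin t‖ ≤ 1 := by
        rw [Real.norm_eq_abs]
        exact Real.abs_sin_le_one t
      exact (mul_le_mul_of_nonneg_right h2 (norm_nonneg _)).trans (by rw [one_mul])
    exact (norm_add_le _ _).trans (add_le_add h1 h3)

end Pool.Agent.Zex
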