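import Pool.Agent.Zex.Targets

/-!
# The homological equation (COH)
-/

set_option autoImplicit false

open Set MeasureTheory Filter Topology Metric Asymptotics
open scoped Manifold ContDiff

namespace Pool.Agent.Zex

namespace COH_

/-- iteration of a unipotent relation -/
lemma iter {V : Type} [NormedAddCommGroup V] [NormedSpace ℝ V] (L L' : V →L[ℝ] V) (u v : V → V)
    (hu : ∀ z, L' (u (L z)) = u z + v z) (hv : ∀ z, L' (v (L z)) = v z) :
    ∀ (n : ℕ) (z : V), (L' ^ n) (u ((L ^ n) z)) = u z + (n : ℝ) • v z := by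
  intro n
  induction n with
  | zero => intro z; simp
  | succ n ih =>
    intro z
    rw [pow_succ' L', pow_succ L]
    show L' ((L' ^ n) (u ((L ^ n) (L z)))) = _
    rw [ih (L z), map_add, map_smul, hu, hv]
    push_cast
    module

/-- no unipotent relations for bounded powers -/
lemma zero_of {V : Type} [NormedAddCommGroup V] [NormedSpace ℝ V] (L L' : V →L[ℝ] V) (u v : V → V)
    (C C' D : ℝ) (j : ℕ) (hC : ∀ n : ℕ, ‖L ^ n‖ ≤ C) (hC' : ∀ n : ℕ, ‖L' ^ n‖ ≤ C')
    (hD : ∀ z, ‖u z‖ ≤ D * ‖z‖ ^ j)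
    (hu : ∀ z, L' (u (L z)) = u z + v z) (hv : ∀ z, L' (v (L z)) = v z) (z : V) : v z = 0 := by
  have hC0 : 0 ≤ C := (norm_nonneg _).trans (hC 0)
  have hC0' : 0 ≤ C' := (norm_nonneg _).trans (hC' 0)
  by_contra hne
  have hpos : 0 < ‖v z‖ := norm_pos_iff.2 hne
  have hb : ∀ n : ℕ, (n : ℝ) * ‖v z‖ ≤ C' * (|D| * (C * ‖z‖) ^ j) + ‖u z‖ := by
    intro n
    have h1 := iter L L' u v hu hv n z
    have h2 : (n : ℝ) • v z = (L' ^ n) (u ((L ^ n) z)) - u z := by rw [h1]; abel
    have h3 : ‖(n : ℝ) • v z‖ = (n : ℝ) * ‖v z‖ := by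
      rw [norm_smul, Real.norm_of_nonneg (Nat.cast_nonneg n)]
    rw [← h3, h2]
    refine (norm_sub_le _ _).trans (add_le_add ?_ le_rfl)
    refine ((L' ^ n).le_opNorm _).trans ?_
    refine mul_le_mul (hC' n) ?_ (norm_nonneg _) hC0'
    refine (hD _).trans ?_
    have h4 : ‖(L ^ n) z‖ ≤ C * ‖z‖ :=
      ((L ^ n).le_opNorm z).trans (mul_le_mul_of_nonneg_right (hC n) (norm_nonneg _))
    have h5 : ‖(L ^ n) z‖ ^ j ≤ (C * ‖z‖) ^ j := pow_le_pow_left₀ (norm_nonneg _) h4 j
    calc D * ‖(L ^ n) z‖ ^ j ≤ |D| * ‖(L ^ n) z‖ ^ j :=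
          mul_le_mul_of_nonneg_right (le_abs_self D) (pow_nonneg (norm_nonneg _) j)
      _ ≤ |D| * (C * ‖z‖) ^ j := mul_le_mul_of_nonneg_left h5 (abs_nonneg D)
  obtain ⟨n, hn⟩ := exists_nat_gt ((C' * (|D| * (C * ‖z‖) ^ j) + ‖u z‖) / ‖v z‖)
  have := hb n
  rw [div_lt_iff₀ hpos] at hn
  linarith

/-- conjugation by `L` -/
noncomputable def conj {V : Type} [NormedAddCommGroup V] [NormedSpace ℝ V] (L L' : V →L[ℝ] V) :
    (V → V) →ₗ[ℝ] (V → V) where
  toFun := fun q z => L' (q (L z))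
  map_add' := fun p q => by funext z; simp
  map_smul' := fun c q => by funext z; simp

end COH_

open COH_ in
theorem p_COH (h1 : T_HPF) (h2 : T_BDD) (h3 : T_INV) : T_COH := by
  intro V _ _ _ Ω L J j e hΩ hL he
  obtain ⟨L', hL'1, hL'2, hL'p, _⟩ := h3 V Ω L hΩ hL.pres
  have hcomm' : ∀ v, L' (J v) = J (L' v) := by
    intro v
    have e1 : J v = L (J (L' v)) := by rw [hL.comm, hL'2]
    rw [e1, hL'1]
  obtain ⟨C, hC, _⟩ := h2 V Ω L J hL.pres hL.cs hL.comm
  obtain ⟨C', hC', _⟩ := h2 V Ω L' J hL'p hL.cs hcomm'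
  obtain ⟨hfin, hp1⟩ := h1 V j
  have : FiniteDimensional ℝ (hp V j) := hfin
  have hmem : ∀ q ∈ hp V j, conj L L' q ∈ hp V j := fun q hq => (hp1 q hq).1 L' L
  set U : hp V j →ₗ[ℝ] hp V j := (conj L L').restrict hmem with hU
  set T : hp V j →ₗ[ℝ] hp V j := U - LinearMap.id with hT
  have hTa : ∀ (q : hp V j) (z : V), (T q : V → V) z = L' ((q : V → V) (L z)) - (q : V → V) z := by
    intro q z
    rw [hT, LinearMap.sub_apply, LinearMap.id_apply]
    rfl
  have hdisj : Disjoint (LinearMap.ker T) (LinearMap.range T) := by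
    rw [Submodule.disjoint_def]
    rintro v hv ⟨u, huv⟩
    obtain ⟨D, hD⟩ := (hp1 u u.2).2.2.2
    have hu : ∀ z, L' ((u : V → V) (L z)) = (u : V → V) z + (v : V → V) z := by
      intro z
      have := hTa u z
      rw [huv] at this
      rw [this]; abel
    have hv' : ∀ z, L' ((v : V → V) (L z)) = (v : V → V) z := by
      intro z
      have := hTa v z
      rw [LinearMap.mem_ker.1 hv] at this
      exact (sub_eq_zero.1 this.symm)
    apply Subtype.ext
    funext z
    exact zero_of L L' u v C C' D j hC hC' hD hu hv' z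
  have htop : LinearMap.ker T ⊔ LinearMap.range T = ⊤ := by
    refine Submodule.eq_top_of_disjoint _ _ ?_ hdisj
    rw [add_comm, LinearMap.finrank_range_add_finrank_ker]
  have he' : (fun z => L' (e z)) ∈ hp V j := by
    have := (hp1 e he).1 L' (ContinuousLinearMap.id ℝ V)
    exact this
  have hx : (⟨fun z => L' (e z), he'⟩ : hp V j) ∈ LinearMap.ker T ⊔ LinearMap.range T := by
    rw [htop]; trivial
  obtain ⟨w, hw, y, ⟨q, hq⟩, hwy⟩ := Submodule.mem_sup.1 hx
  have hwL : ∀ z, (w : V → V) (L z) = L ((w : V → V) z) := by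
    intro z
    have := hTa w z
    rw [LinearMap.mem_ker.1 hw] at this
    have e2 : L' ((w : V → V) (L z)) = (w : V → V) z := sub_eq_zero.1 this.symm
    rw [← e2, hL'2]
  have hdec : ∀ z, L' (e z) = (w : V → V) z + (L' ((q : V → V) (L z)) - (q : V → V) z) := by
    intro z
    rw [← hTa q z, hq]
    have := congrArg (fun f : hp V j => (f : V → V) z) hwy
    exact this.symm
  have hn : (fun z => L ((w : V → V) z)) ∈ hp V j :=
    (hp1 w w.2).1 L (ContinuousLinearMap.id ℝ V)
  refine ⟨q, q.2, fun z => L ((w : V → V) z), hn, ?_, ?_⟩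
  · intro z
    have := congrArg L (hdec z)
    rw [hL'2, map_add, map_sub, hL'2] at this
    show L ((w : V → V) z) = e z + L ((q : V → V) z) - (q : V → V) (L z)
    rw [this]; abel
  · intro t z
    have hwpow : ∀ (n : ℕ) (x : V), (w : V → V) ((L ^ n) x) = (L ^ n) ((w : V → V) x) := by
      intro n
      induction n with
      | zero => intro x; simp
      | succ n ih =>
        intro x
        rw [pow_succ']
        show (w : V → V) (L ((L ^ n) x)) = L ((L ^ n) ((w : V → V) x))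
        rw [hwL, ih]
    have hch : ∀ k : ℕ, ∃ n : ℕ, ‖L ^ n - Rt J t‖ < 1 / ((k : ℝ) + 1) :=
      fun k => hL.dens t _ (by positivity)
    choose N hN using hch
    have hlim : Tendsto (fun k => L ^ N k) atTop (𝓝 (Rt J t)) := by
      rw [tendsto_iff_norm_sub_tendsto_zero]
      exact squeeze_zero (fun k => norm_nonneg _) (fun k => (hN k).le)
        tendsto_one_div_add_atTop_nhds_zero_nat
    have happ : ∀ x : V, Tendsto (fun k => (L ^ N k) x) atTop (𝓝 (Rt J t x)) := by
      intro x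
      exact ((ContinuousLinearMap.apply ℝ V x).continuous.tendsto (Rt J t)).comp hlim
    have hcont : Continuous (w : V → V) := (hp1 w w.2).2.1.continuous
    have l1 : Tendsto (fun k => (w : V → V) ((L ^ N k) z)) atTop (𝓝 ((w : V → V) (Rt J t z))) :=
      (hcont.tendsto _).comp (happ z)
    have l2 : Tendsto (fun k => (w : V → V) ((L ^ N k) z)) atTop (𝓝 (Rt J t ((w : V → V) z))) := by
      simp only [hwpow]
      exact happ _
    have hwR : (w : V → V) (Rt J t z) = Rt J t ((w : V → V) z) := tendsto_nhds_unique l1 l2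
    show L ((w : V → V) (Rt J t z)) = Rt J t (L ((w : V → V) z))
    rw [hwR]
    simp only [Rt, add_apply, smul_apply,
      ContinuousLinearMap.id_apply, map_add, map_smul, hL.comm]

end Pool.Agent.Zex
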