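import Pool.Agent.Zex.Targets

/-!
# A small rotation makes the circle a limit of powers
-/

set_option autoImplicit false

open Set MeasureTheory Filter Topology Metric Asymptotics
open scoped Manifold ContDiff

namespace Pool.Agent.Zex

namespace DNS_

variable {V : Type} [NormedAddCommGroup V] [NormedSpace ℝ V]

theorem rt_apply (J : V →L[ℝ] V) (t : ℝ) (v : V) :
    Rt J t v = Real.cos t • v + Real.sin t • J v := by
  simp [Rt]

theorem alt_swap {Ω : V →L[ℝ] V →L[ℝ] ℝ} {J : V →L[ℝ] V} (hJ : Cs Ω J) (v w : V) :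
    Ω v (J w) = -Ω (J v) w := by
  have h1 := hJ.pres v (J w)
  rw [hJ.sq w, map_neg] at h1
  linarith

theorem rt_pres {Ω : V →L[ℝ] V →L[ℝ] ℝ} {J : V →L[ℝ] V} (hJ : Cs Ω J) (t : ℝ) :
    Pres Ω (Rt J t) := by
  intro v w
  rw [rt_apply, rt_apply]
  simp only [map_add, map_smul, add_apply, smul_apply,
    smul_eq_mul]
  rw [alt_swap hJ v w, hJ.pres v w]
  have h := Real.cos_sq_add_sin_sq t
  linear_combination (Ω v w) * h

theorem rt_add {Ω : V →L[ℝ] V →L[ℝ] ℝ} {J : V →L[ℝ] V} (hJ : Cs Ω J) (s t : ℝ) :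
    Rt J (s + t) = Rt J s * Rt J t := by
  ext v
  rw [mul_apply_eq_comp, rt_apply, rt_apply, rt_apply, map_add, map_smul, map_smul,
    hJ.sq, Real.cos_add, Real.sin_add]
  module

theorem rt_nat {Ω : V →L[ℝ] V →L[ℝ] ℝ} {J : V →L[ℝ] V} (hJ : Cs Ω J) (t : ℝ) (n : ℕ) :
    Rt J t ^ n = Rt J (n * t) := by
  induction n with
  | zero =>
    ext v
    rw [rt_apply]
    simp
  | succ n ih =>
    rw [pow_succ, ih, ← rt_add hJ]
    congr 1
    push_cast
    ring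

theorem rt_dist (J : V →L[ℝ] V) (a b : ℝ) :
    ‖Rt J a - Rt J b‖ ≤ |a - b| * (1 + ‖J‖) := by
  have h1 : Rt J a - Rt J b = (Real.cos a - Real.cos b) • ContinuousLinearMap.id ℝ V
      + (Real.sin a - Real.sin b) • J := by
    unfold Rt
    module
  rw [h1]
  refine (norm_add_le _ _).trans ?_
  rw [norm_smul, norm_smul, Real.norm_eq_abs, Real.norm_eq_abs]
  have h2 : |Real.cos a - Real.cos b| ≤ |a - b| := Real.abs_cos_sub_cos_le a b
  have h3 : |Real.sin a - Real.sin b| ≤ |a - b| := Real.abs_sin_sub_sin_le a b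
  have h4 : ‖ContinuousLinearMap.id ℝ V‖ ≤ 1 := ContinuousLinearMap.norm_id_le
  have h5 : |Real.cos a - Real.cos b| * ‖ContinuousLinearMap.id ℝ V‖ ≤ |a - b| * 1 :=
    mul_le_mul h2 h4 (norm_nonneg _) (abs_nonneg _)
  have h6 : |Real.sin a - Real.sin b| * ‖J‖ ≤ |a - b| * ‖J‖ :=
    mul_le_mul_of_nonneg_right h3 (norm_nonneg _)
  linarith

theorem rt_period (J : V →L[ℝ] V) (a : ℝ) (l : ℤ) :
    Rt J (a - 2 * Real.pi * l) = Rt J a := by
  unfold Rt
  have h1 : a - 2 * Real.pi * l = a - l * (2 * Real.pi) := by ring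
  rw [h1, Real.cos_sub_int_mul_two_pi, Real.sin_sub_int_mul_two_pi]

/-- the inverse of `L` -/
theorem exists_inv [FiniteDimensional ℝ V] {Ω : V →L[ℝ] V →L[ℝ] ℝ} {L J : V →L[ℝ] V}
    (hΩ : Sf Ω) (hL : Pres Ω L) (hc : ∀ v, L (J v) = J (L v)) :
    ∃ L' : V →L[ℝ] V, L' * L = 1 ∧ Pres Ω L' ∧ ∀ v, L' (J v) = J (L' v) := by
  have hinj : Function.Injective (L : V →ₗ[ℝ] V) := by
    rw [injective_iff_map_eq_zero]
    intro v hv
    apply hΩ.nd
    intro w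
    rw [← hL v w]
    have : L v = 0 := hv
    rw [this, map_zero]
    rfl
  set e := LinearEquiv.ofInjectiveEndo (L : V →ₗ[ℝ] V) hinj with he
  have he1 : ∀ v, e v = L v := fun v => rfl
  refine ⟨LinearMap.toContinuousLinearMap (e.symm : V →ₗ[ℝ] V), ?_, ?_, ?_⟩
  · ext v
    show e.symm (L v) = v
    rw [← he1, e.symm_apply_apply]
  · intro v w
    show Ω (e.symm v) (e.symm w) = Ω v w
    rw [← hL, ← he1, ← he1, e.apply_symm_apply, e.apply_symm_apply]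
  · intro v
    show e.symm (J v) = J (e.symm v)
    rw [LinearEquiv.symm_apply_eq, he1, hc, ← he1, e.apply_symm_apply]

/-- recurrence -/
theorem recur [FiniteDimensional ℝ V] {L L' : V →L[ℝ] V} {C : ℝ} (hLL : L' * L = 1)
    (hC : ∀ n : ℕ, ‖L ^ n‖ ≤ C) (hC' : ∀ n : ℕ, ‖L' ^ n‖ ≤ C) (K : ℕ) (δ : ℝ) (hδ : 0 < δ) :
    ∃ n : ℕ, K ≤ n ∧ ‖L ^ n - 1‖ < δ := by
  have hC0 : 0 ≤ C := (norm_nonneg _).trans (hC 0)
  have : ProperSpace (V →L[ℝ] V) := FiniteDimensional.proper ℝ (V →L[ℝ] V)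
  obtain ⟨a, -, φ, hφ, hlim⟩ := tendsto_subseq_of_bounded
    (s := closedBall (0 : V →L[ℝ] V) C) isBounded_closedBall (x := fun i : ℕ => L ^ (K * i))
    (fun i => by
      rw [mem_closedBall, dist_zero_right]
      exact hC _)
  have hcau := hlim.cauchySeq
  rw [Metric.cauchySeq_iff] at hcau
  obtain ⟨N, hN⟩ := hcau (δ / (C + 1)) (by positivity)
  have h1 := hN (N + 1) (by omega) N le_rfl
  have h2 : φ N < φ (N + 1) := hφ (Nat.lt_succ_self N)
  obtain ⟨m, hm⟩ := Nat.exists_eq_add_of_lt h2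
  refine ⟨K * (m + 1), Nat.le_mul_of_pos_right K (Nat.succ_pos m), ?_⟩
  have hpow : ∀ n : ℕ, L' ^ n * L ^ n = 1 := by
    intro n
    induction n with
    | zero => simp
    | succ n ih =>
      calc L' ^ (n + 1) * L ^ (n + 1) = L' ^ n * (L' * L) * L ^ n := by
            rw [pow_succ, pow_succ' L]
            simp only [mul_assoc]
        _ = 1 := by rw [hLL, mul_one, ih]
  have h3 : L ^ (K * (m + 1)) - 1 = L' ^ (K * φ N) * (L ^ (K * φ (N + 1)) - L ^ (K * φ N)) := by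
    rw [mul_sub, hpow]
    congr 1
    have h4 : K * φ (N + 1) = K * φ N + K * (m + 1) := by rw [hm]; ring
    rw [h4, pow_add, ← mul_assoc, hpow, one_mul]
  rw [h3]
  simp only [Function.comp_apply, dist_eq_norm] at h1
  calc ‖L' ^ (K * φ N) * (L ^ (K * φ (N + 1)) - L ^ (K * φ N))‖
      ≤ ‖L' ^ (K * φ N)‖ * ‖L ^ (K * φ (N + 1)) - L ^ (K * φ N)‖ := norm_mul_le _ _
    _ ≤ C * (δ / (C + 1)) := mul_le_mul (hC' _) h1.le (norm_nonneg _) hC0
    _ < δ := by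
        rw [mul_div_assoc', div_lt_iff₀ (by positivity)]
        nlinarith

/-- the open sets of good angles -/
def Op (L : V →L[ℝ] V) (i : ℕ × ℚ) : Set ℝ :=
  {t | ∃ n : ℕ, ∃ l : ℤ, ‖L ^ n - 1‖ < 1 / ((i.1 : ℝ) + 1) ∧
    |n * t - i.2 - 2 * Real.pi * l| < 1 / ((i.1 : ℝ) + 1)}

theorem isOpen_Op (L : V →L[ℝ] V) (i : ℕ × ℚ) : IsOpen (Op L i) := by
  have h : Op L i = ⋃ (n : ℕ) (l : ℤ) (_ : ‖L ^ n - 1‖ < 1 / ((i.1 : ℝ) + 1)),
      {t : ℝ | |n * t - i.2 - 2 * Real.pi * l| < 1 / ((i.1 : ℝ) + 1)} := by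
    ext t
    simp only [Op, mem_ofPred_eq, mem_iUnion, exists_prop]
  rw [h]
  refine isOpen_iUnion fun n => isOpen_iUnion fun l => isOpen_iUnion fun _ => ?_
  exact isOpen_lt (by fun_prop) continuous_const

theorem dense_Op {L : V →L[ℝ] V}
    (hrec : ∀ (K : ℕ) (δ : ℝ), 0 < δ → ∃ n : ℕ, K ≤ n ∧ ‖L ^ n - 1‖ < δ) (i : ℕ × ℚ) :
    Dense (Op L i) := by
  rw [Metric.dense_iff]
  intro t r hr
  obtain ⟨K, hK⟩ := exists_nat_gt (Real.pi / r)
  have hk : 0 < 1 / ((i.1 : ℝ) + 1) := by positivity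
  obtain ⟨n, hn, hn2⟩ := hrec (K + 1) _ hk
  have hn0 : (0 : ℝ) < n := by
    have : 0 < n := by omega
    exact_mod_cast this
  have hnK : Real.pi / r < n := hK.trans (by exact_mod_cast (by omega : K < n))
  set l : ℤ := round ((n * t - i.2) / (2 * Real.pi)) with hl
  have hpi := Real.pi_pos
  have hround := abs_sub_round ((n * t - i.2) / (2 * Real.pi))
  rw [← hl] at hround
  refine ⟨(i.2 + 2 * Real.pi * l) / n, ?_, n, l, hn2, ?_⟩
  · rw [mem_ball, Real.dist_eq]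
    have h1 : ((i.2 : ℝ) + 2 * Real.pi * l) / n - t
        = -((n * t - i.2) / (2 * Real.pi) - l) * (2 * Real.pi) / n := by
      field_simp
      ring
    rw [h1, abs_div, abs_mul, abs_neg, abs_of_pos hn0, abs_of_pos (by positivity : 0 < 2 * Real.pi)]
    rw [div_lt_iff₀ hn0]
    rw [div_lt_iff₀ hr] at hnK
    nlinarith
  · have h1 : (n : ℝ) * (((i.2 : ℝ) + 2 * Real.pi * l) / n) - i.2 - 2 * Real.pi * l = 0 := by
      field_simp
      ring
    rw [h1, abs_zero]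
    exact hk

end DNS_

open DNS_ in
theorem p_DNS (hB : T_BDD) : T_DNS := by
  intro V _ _ _ Ω L J hΩ hL hJ hc ε hε
  obtain ⟨C1, hC1, hR⟩ := hB V Ω L J hL hJ hc
  obtain ⟨L', hLL, hL', hc'⟩ := exists_inv hΩ hL hc
  obtain ⟨C2, hC2, -⟩ := hB V Ω L' J hL' hJ hc'
  have hrec : ∀ (K : ℕ) (δ : ℝ), 0 < δ → ∃ n : ℕ, K ≤ n ∧ ‖L ^ n - 1‖ < δ :=
    fun K δ hδ => recur (C := max C1 C2) hLL (fun n => (hC1 n).trans (le_max_left _ _))
      (fun n => (hC2 n).trans (le_max_right _ _)) K δ hδ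
  have hdense : Dense (⋂ i : ℕ × ℚ, Op L i) :=
    dense_iInter_of_isOpen (fun i => isOpen_Op L i) (fun i => dense_Op hrec i)
  obtain ⟨t, ht1, ht2⟩ := hdense.exists_dist_lt 0 hε
  rw [dist_comm, Real.dist_eq, sub_zero] at ht2
  rw [mem_iInter] at ht1
  have hcomm : Commute (Rt J t) L := by
    show Rt J t * L = L * Rt J t
    ext v
    rw [mul_apply_eq_comp, mul_apply_eq_comp, rt_apply, rt_apply, map_add,
      map_smul, map_smul, hc]
  have hpow : ∀ n : ℕ, (Rt J t ∘L L) ^ n = Rt J (n * t) * L ^ n := by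
    intro n
    have h1 : (Rt J t ∘L L) ^ n = (Rt J t * L) ^ n := rfl
    rw [h1, hcomm.mul_pow, rt_nat hJ]
  refine ⟨t, ht2.le, ⟨?_, hJ, ?_, ?_⟩⟩
  · intro v w
    show Ω (Rt J t (L v)) (Rt J t (L w)) = Ω v w
    rw [rt_pres hJ, hL]
  · intro v
    show Rt J t (L (J v)) = J (Rt J t (L v))
    rw [rt_apply, rt_apply, hc, map_add, map_smul, map_smul]
  · intro s δ hδ
    have hC0 : 0 ≤ C1 := (norm_nonneg _).trans (hC1 0)
    set η : ℝ := δ / (C1 + 2 * (1 + ‖J‖)) with hη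
    have hden : 0 < C1 + 2 * (1 + ‖J‖) := by positivity
    have hη0 : 0 < η := by positivity
    obtain ⟨q, hq1, hq2⟩ := exists_rat_btwn (show s < s + η by linarith)
    obtain ⟨k, hk⟩ := exists_nat_one_div_lt hη0
    obtain ⟨n, l, hn, hnl⟩ := ht1 (k, q)
    refine ⟨n, ?_⟩
    rw [hpow]
    have e1 : Rt J (n * t) * L ^ n - Rt J s
        = Rt J (n * t) * (L ^ n - 1) + (Rt J (n * t - 2 * Real.pi * l) - Rt J s) := by
      rw [rt_period, mul_sub, mul_one]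
      abel
    rw [e1]
    have hn' : ‖L ^ n - 1‖ < η := hn.trans hk
    have hnl' : |(n : ℝ) * t - q - 2 * Real.pi * l| < η := hnl.trans hk
    have e2 : |(n : ℝ) * t - 2 * Real.pi * l - s| < 2 * η := by
      rw [abs_lt] at hnl' ⊢
      constructor <;> linarith [hnl'.1, hnl'.2]
    have e3 := rt_dist J (n * t - 2 * Real.pi * l) s
    have e4 : ‖Rt J (n * t) * (L ^ n - 1)‖ ≤ C1 * ‖L ^ n - 1‖ :=
      (norm_mul_le _ _).trans (mul_le_mul_of_nonneg_right (hR _) (norm_nonneg _))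
    have e5 : C1 * ‖L ^ n - 1‖ ≤ C1 * η := mul_le_mul_of_nonneg_left hn'.le hC0
    have e6 : |(n : ℝ) * t - 2 * Real.pi * l - s| * (1 + ‖J‖) < 2 * η * (1 + ‖J‖) :=
      mul_lt_mul_of_pos_right e2 (by positivity)
    have e7 : C1 * η + 2 * η * (1 + ‖J‖) = δ := by
      rw [hη]
      field_simp
    have e8 := norm_add_le (Rt J (n * t) * (L ^ n - 1))
      (Rt J (n * t - 2 * Real.pi * l) - Rt J s)
    linarith

end Pool.Agent.Zex
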