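import Pool.Agent.Zex.Targets

/-!
# ZEX-DTS: the determinant of `1 + S` for a skew map `S`
-/

set_option autoImplicit false

namespace Pool.Agent.Zex

/-- The determinant of `1 + S` for a skew map `S`. -/
theorem p_DTS : T_DTS := by
  intro V _ _ _ Ω S hΩ hS
  -- the isomorphism with the dual given by the form
  let B0 : V →ₗ[ℝ] Module.Dual ℝ V :=
    { toFun := fun x => (Ω x : V →ₗ[ℝ] ℝ)
      map_add' := fun x y => by
        ext w
        simp
      map_smul' := fun c x => by
        ext w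
        simp }
  have hB0 : Function.Injective B0 := by
    rw [← LinearMap.ker_eq_bot, LinearMap.ker_eq_bot']
    intro v hv
    apply hΩ.nd
    intro w
    have h1 := LinearMap.congr_fun hv w
    exact h1
  let B : V ≃ₗ[ℝ] Module.Dual ℝ V :=
    LinearMap.linearEquivOfInjective B0 hB0 (Subspace.dual_finrank_eq).symm
  have hB : ∀ x w, B x w = Ω x w := fun x w => rfl
  set A1 : V →ₗ[ℝ] V := ((ContinuousLinearMap.id ℝ V + S : V →L[ℝ] V) : V →ₗ[ℝ] V) with hA1
  set A2 : V →ₗ[ℝ] V := ((ContinuousLinearMap.id ℝ V - S : V →L[ℝ] V) : V →ₗ[ℝ] V) with hA2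
  have h1 : (LinearMap.dualMap A1) = (B : V →ₗ[ℝ] Module.Dual ℝ V) ∘ₗ A2 ∘ₗ
      (B.symm : Module.Dual ℝ V →ₗ[ℝ] V) := by
    apply LinearMap.ext
    intro φ
    obtain ⟨x, rfl⟩ := B.surjective φ
    apply LinearMap.ext
    intro w
    simp only [LinearMap.dualMap_apply, LinearMap.comp_apply, LinearEquiv.coe_coe,
      LinearEquiv.symm_apply_apply]
    rw [hB, hB]
    simp only [hA1, hA2, ContinuousLinearMap.coe_coe, add_apply,
      sub_apply, ContinuousLinearMap.id_apply, map_add, map_sub]
    rw [hS]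
    ring
  show LinearMap.det A1 = LinearMap.det A2
  rw [← LinearMap.det_dualMap A1, h1, LinearMap.det_conj]

end Pool.Agent.Zex
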