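import Pool.Agent.Zex.Targets

/-!
# Project Zex, EV: a real eigenvector or a rotation plane
-/

set_option autoImplicit false

open Set MeasureTheory Filter Topology Metric Asymptotics
open scoped Manifold ContDiff

namespace Pool.Agent.Zex

namespace EV_

theorem growth {V : Type} [NormedAddCommGroup V] [NormedSpace ℝ V] (L : V →L[ℝ] V)
    (hL : SubExp L) (v : V) (β D : ℝ) (hD : 0 ≤ D)
    (h : ∀ n : ℕ, β ^ n ≤ D * ‖(L ^ n) v‖ ^ 2) : β ≤ 1 := by
  by_contra hb
  push Not at hb
  set c : ℝ := Real.sqrt ((1 + β) / 2) with hc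
  have hc2 : c ^ 2 = (1 + β) / 2 := Real.sq_sqrt (by linarith)
  have hc0 : 0 ≤ c := Real.sqrt_nonneg _
  have hc1 : 1 < c := by
    by_contra hcc
    push Not at hcc
    have : c ^ 2 ≤ 1 := by nlinarith
    linarith
  obtain ⟨C, hC⟩ := hL c hc1
  have hc2p : 0 < c ^ 2 := by positivity
  have hq : 1 < β / c ^ 2 := by
    rw [one_lt_div hc2p, hc2]
    linarith
  have hbd : ∀ n : ℕ, (β / c ^ 2) ^ n ≤ D * (C * ‖v‖) ^ 2 := by
    intro n
    have h1 : ‖(L ^ n) v‖ ≤ C * c ^ n * ‖v‖ :=
      ((L ^ n).le_opNorm v).trans (mul_le_mul_of_nonneg_right (hC n) (norm_nonneg _))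
    have h2 : ‖(L ^ n) v‖ ^ 2 ≤ (C * c ^ n * ‖v‖) ^ 2 := pow_le_pow_left₀ (norm_nonneg _) h1 2
    have h3 := (h n).trans (mul_le_mul_of_nonneg_left h2 hD)
    rw [div_pow, div_le_iff₀ (by positivity)]
    calc β ^ n ≤ D * (C * c ^ n * ‖v‖) ^ 2 := h3
      _ = D * (C * ‖v‖) ^ 2 * (c ^ 2) ^ n := by ring
  obtain ⟨n, hn⟩ := ((tendsto_pow_atTop_atTop_of_one_lt hq).eventually_gt_atTop
    (D * (C * ‖v‖) ^ 2)).exists
  exact absurd (hbd n) (not_le.2 hn)

open Polynomial in
theorem exists_irr {V : Type} [AddCommGroup V] [Module ℝ V] (T : Module.End ℝ V) (p : ℝ[X])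
    (hp : p ≠ 0) (hT : ¬ Function.Injective (aeval T p)) :
    ∃ q : ℝ[X], Irreducible q ∧ ¬ Function.Injective (aeval T q) := by
  revert hp hT
  refine WfDvdMonoid.induction_on_irreducible p ?_ ?_ ?_
  · intro h
    exact absurd rfl h
  · intro u hu _ hT
    exfalso
    apply hT
    obtain ⟨w, hw⟩ := hu.exists_left_inv
    have h1 : ∀ x, (aeval T w) ((aeval T u) x) = x := by
      intro x
      rw [← Module.End.mul_apply, ← map_mul, hw, map_one, Module.End.one_apply]
    exact Function.LeftInverse.injective h1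
  · intro a i ha hi ih _ hT
    by_cases h : Function.Injective (aeval T i)
    · refine ih ha fun h' => hT ?_
      rw [map_mul]
      exact h.comp h'
    · exact ⟨i, hi, h⟩

/-- coordinates in the plane spanned by two independent vectors -/
theorem coord {V : Type} [NormedAddCommGroup V] [NormedSpace ℝ V] (v w : V)
    (hind : ∀ x y : ℝ, x • v + y • w = 0 → x = 0 ∧ y = 0) :
    ∃ K : ℝ, 0 ≤ K ∧ ∀ x y : ℝ, |x| ≤ K * ‖x • v + y • w‖ ∧ |y| ≤ K * ‖x • v + y • w‖ := by
  obtain ⟨K, -, hK⟩ := LinearMap.exists_antilipschitzWith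
    ((LinearMap.toSpanSingleton ℝ V v).coprod (LinearMap.toSpanSingleton ℝ V w)) (by
      rw [LinearMap.ker_eq_bot']
      rintro ⟨x, y⟩ h
      have := hind x y (by simpa using h)
      simp [this.1, this.2])
  refine ⟨K, K.2, fun x y => ?_⟩
  have h := hK.le_mul_dist (x, y) 0
  rw [map_zero, dist_zero_right, dist_zero_right] at h
  simp only [LinearMap.coprod_apply, LinearMap.toSpanSingleton_apply] at h
  have hx : |x| ≤ ‖((x, y) : ℝ × ℝ)‖ := norm_fst_le (x, y)
  have hy : |y| ≤ ‖((x, y) : ℝ × ℝ)‖ := norm_snd_le (x, y)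
  exact ⟨hx.trans h, hy.trans h⟩

theorem quad (a b x y M : ℝ) (hb : 0 ≤ b) (hx : |x| ≤ M) (hy : |y| ≤ M) :
    x ^ 2 + 2 * a * x * y + b * y ^ 2 ≤ (1 + 2 * |a| + b) * M ^ 2 := by
  have hM : 0 ≤ M := (abs_nonneg x).trans hx
  have h1 : x ^ 2 ≤ M ^ 2 := by
    rw [← sq_abs x]
    exact pow_le_pow_left₀ (abs_nonneg _) hx 2
  have h2 : y ^ 2 ≤ M ^ 2 := by
    rw [← sq_abs y]
    exact pow_le_pow_left₀ (abs_nonneg _) hy 2
  have h3 : a * (x * y) ≤ |a| * M ^ 2 := by
    calc a * (x * y) ≤ |a * (x * y)| := le_abs_self _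
      _ = |a| * (|x| * |y|) := by rw [abs_mul, abs_mul]
      _ ≤ |a| * (M * M) := by gcongr
      _ = |a| * M ^ 2 := by ring
  have h4 : b * y ^ 2 ≤ b * M ^ 2 := mul_le_mul_of_nonneg_left h2 hb
  linarith

end EV_

open EV_ in
theorem p_EV : T_EV := by
  intro V _ _ _ L L' hV hL'L hLL' hS hS'
  have hpow : ∀ (M : V →L[ℝ] V) (n : ℕ) (v : V), (M ^ (n + 1)) v = M ((M ^ n) v) := by
    intro M n v
    rw [pow_succ']
    rfl
  -- the case of an eigenvector
  have hcase : ∀ (v : V) (l : ℝ), v ≠ 0 → L v = l • v → ∃ (v : V) (c : ℝ), v ≠ 0 ∧ |c| ≤ 1 ∧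
      L (L v) = (2 * c) • L v - v ∧ (|c| = 1 → L v = c • v) := by
    intro v l hv hl
    have hvn : 0 < ‖v‖ := norm_pos_iff.2 hv
    have hl0 : l ≠ 0 := by
      rintro rfl
      apply hv
      rw [← hL'L v, hl, zero_smul, map_zero]
    have hL'v : L' v = l⁻¹ • v := by
      have h1 : L' (L v) = l • L' v := by rw [hl, map_smul]
      rw [hL'L] at h1
      rw [eq_inv_smul_iff₀ hl0]
      exact h1.symm
    have hgen : ∀ (M : V →L[ℝ] V) (m : ℝ), SubExp M → M v = m • v → m ^ 2 ≤ 1 := by
      intro M m hM hm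
      have hn : ∀ n : ℕ, (M ^ n) v = m ^ n • v := by
        intro n
        induction n with
        | zero => simp
        | succ n ih => rw [hpow, ih, map_smul, hm, smul_smul, pow_succ]
      refine growth M hM v (m ^ 2) (1 / ‖v‖ ^ 2) (by positivity) fun n => ?_
      rw [hn, norm_smul, mul_pow, norm_pow, Real.norm_eq_abs, ← pow_mul, ← pow_mul, mul_comm n 2,
        pow_mul |m|, sq_abs, ← pow_mul]
      refine le_of_eq ?_
      field_simp
    have h1 := hgen L l hS hl
    have h2 := hgen L' l⁻¹ hS' hL'v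
    have hl2 : l ^ 2 = 1 := by
      rw [inv_pow] at h2
      have h3 : 0 < l ^ 2 := by positivity
      have h4 : 1 ≤ l ^ 2 := by
        rw [inv_le_one₀ h3] at h2
        exact h2
      linarith
    refine ⟨v, l, hv, ?_, ?_, fun _ => hl⟩
    · rw [← sq_le_one_iff_abs_le_one]
      exact h1
    · rw [hl, map_smul, hl, smul_smul, smul_smul]
      have : v = (1 : ℝ) • v := (one_smul _ _).symm
      nth_rewrite 3 [this]
      rw [← sub_smul]
      congr 1
      nlinarith
  -- an irreducible polynomial of degree at most two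
  obtain ⟨μ, hμ, hinj⟩ := exists_irr (V := V) (L : V →ₗ[ℝ] V) (LinearMap.charpoly (L : V →ₗ[ℝ] V))
    (LinearMap.charpoly_monic _).ne_zero (by
      rw [LinearMap.aeval_self_charpoly]
      intro h
      obtain ⟨x, y, hxy⟩ := hV.exists_pair_ne
      exact hxy (h (by simp)))
  have hdeg := hμ.degree_le_two
  have hform := Polynomial.eq_quadratic_of_degree_le_two hdeg
  set a2 := μ.coeff 2 with ha2
  set a1 := μ.coeff 1 with ha1
  set a0 := μ.coeff 0 with ha0
  obtain ⟨v, hv, hv0⟩ : ∃ v : V, v ≠ 0 ∧ a2 • L (L v) + a1 • L v + a0 • v = 0 := by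
    rw [← LinearMap.ker_eq_bot, LinearMap.ker_eq_bot'] at hinj
    push Not at hinj
    obtain ⟨v, h1, h2⟩ := hinj
    refine ⟨v, h2, ?_⟩
    rw [hform] at h1
    simpa [pow_two, Algebra.algebraMap_eq_smul_one, Module.End.mul_apply] using h1
  by_cases h2 : a2 = 0
  · -- degree one
    have h1 : a1 ≠ 0 := by
      intro h1
      rw [h2, h1] at hform
      have : IsUnit μ := by
        have hne : a0 ≠ 0 := by
          intro h0
          rw [h0] at hform
          apply hμ.ne_zero
          rw [hform]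
          simp
        rw [hform]
        simpa using hne
      exact hμ.not_isUnit this
    refine hcase v (-a0 / a1) hv ?_
    rw [h2, zero_smul, zero_add] at hv0
    have h3 : a1 • L v = -(a0 • v) := eq_neg_of_add_eq_zero_left hv0
    rw [div_eq_inv_mul, mul_smul, neg_smul, ← h3, smul_smul, inv_mul_cancel₀ h1, one_smul]
  · -- degree two
    have hnoroot : ∀ x : ℝ, a2 * (x * x) + a1 * x + a0 ≠ 0 := by
      intro x hx
      have hr : μ.IsRoot x := by
        rw [Polynomial.IsRoot, hform]
        simp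
        linarith
      have hd := Polynomial.degree_eq_one_of_irreducible_of_root hμ hr
      have : μ.coeff 2 = 0 := by
        apply Polynomial.coeff_eq_zero_of_degree_lt
        rw [hd]
        norm_num
      exact h2 this
    have hdisc : discrim a2 a1 a0 < 0 := by
      by_contra hge
      push Not at hge
      obtain ⟨x, hx⟩ := exists_quadratic_eq_zero h2 ⟨Real.sqrt (discrim a2 a1 a0),
        (Real.mul_self_sqrt hge).symm⟩
      exact hnoroot x hx
    set a : ℝ := -a1 / (2 * a2) with ha
    set b : ℝ := a0 / a2 with hb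
    have hab : a ^ 2 < b := by
      have h3 : 0 < a2 ^ 2 := by positivity
      have h4 : b - a ^ 2 = - discrim a2 a1 a0 / (4 * a2 ^ 2) := by
        rw [ha, hb, discrim]
        field_simp
        ring
      have h5 : 0 < b - a ^ 2 := by
        rw [h4]
        apply div_pos <;> linarith
      linarith
    have hb0 : 0 < b := lt_of_le_of_lt (sq_nonneg a) hab
    have hrel : L (L v) = (2 * a) • L v - b • v := by
      have h3 : a2 • L (L v) = -(a1 • L v) - a0 • v := by
        have : a2 • L (L v) + a1 • L v + a0 • v = 0 := hv0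
        rw [← sub_eq_zero]
        rw [← this]
        abel
      have h4 : L (L v) = a2⁻¹ • (a2 • L (L v)) := by rw [smul_smul, inv_mul_cancel₀ h2, one_smul]
      rw [h4, h3, smul_sub, smul_neg, smul_smul, smul_smul, ← neg_smul]
      congr 2
      · rw [ha]
        field_simp
      · rw [hb]
        field_simp
    have hind : ∀ x y : ℝ, x • v + y • L v = 0 → x = 0 ∧ y = 0 := by
      intro x y hxy
      by_cases hy : y = 0
      · rw [hy, zero_smul, add_zero, smul_eq_zero] at hxy
        exact ⟨hxy.resolve_right hv, hy⟩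
      · exfalso
        have h3 : L v = (-x / y) • v := by
          have h4 : y • L v = -(x • v) := eq_neg_of_add_eq_zero_right hxy
          rw [div_eq_inv_mul, mul_smul, neg_smul, ← h4, smul_smul, inv_mul_cancel₀ hy, one_smul]
        set l := -x / y
        have h4 : (l * l - 2 * a * l + b) • v = 0 := by
          have h5 := hrel
          rw [h3, map_smul, h3, smul_smul, smul_smul, ← sub_smul, ← sub_eq_zero, ← sub_smul] at h5
          rw [← h5]
          congr 1
          ring
        rw [smul_eq_zero] at h4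
        rcases h4 with h4 | h4
        · nlinarith [sq_nonneg (l - a)]
        · exact hv h4
    obtain ⟨K, hK0, hK⟩ := coord v (L v) hind
    have hD : 0 ≤ (1 + 2 * |a| + b) * K ^ 2 := by positivity
    have hgen : ∀ (M : V →L[ℝ] V) (β : ℝ), SubExp M →
        (∀ x y : ℝ, ∃ x' y' : ℝ, M (x • v + y • L v) = x' • v + y' • L v ∧
          x' ^ 2 + 2 * a * x' * y' + b * y' ^ 2 = β * (x ^ 2 + 2 * a * x * y + b * y ^ 2)) →
        β ≤ 1 := by
      intro M β hM hstep
      have hn : ∀ n : ℕ, ∃ x y : ℝ, (M ^ n) v = x • v + y • L v ∧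
          x ^ 2 + 2 * a * x * y + b * y ^ 2 = β ^ n := by
        intro n
        induction n with
        | zero => exact ⟨1, 0, by simp, by ring⟩
        | succ n ih =>
          obtain ⟨x, y, h1, h2⟩ := ih
          obtain ⟨x', y', h3, h4⟩ := hstep x y
          exact ⟨x', y', by rw [hpow, h1, h3], by rw [h4, h2, pow_succ']⟩
      refine growth M hM v β _ hD fun n => ?_
      obtain ⟨x, y, h1, h2⟩ := hn n
      rw [← h2, h1]
      calc x ^ 2 + 2 * a * x * y + b * y ^ 2 ≤
          (1 + 2 * |a| + b) * (K * ‖x • v + y • L v‖) ^ 2 :=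
            quad a b x y _ hb0.le (hK x y).1 (hK x y).2
        _ = (1 + 2 * |a| + b) * K ^ 2 * ‖x • v + y • L v‖ ^ 2 := by ring
    have hb1 : b ≤ 1 := by
      refine hgen L b hS fun x y => ⟨-b * y, x + 2 * a * y, ?_, by ring⟩
      rw [map_add, map_smul, map_smul, hrel]
      module
    have hb2 : b⁻¹ ≤ 1 := by
      have hL'v : L' v = (2 * a / b) • v - b⁻¹ • L v := by
        have h3 : b • L' v = (2 * a) • v - L v := by
          have h4 := congrArg L' hrel
          rw [hL'L, map_sub, map_smul, map_smul, hL'L] at h4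
          rw [h4]
          abel
        have h4 : L' v = b⁻¹ • (b • L' v) := by
          rw [smul_smul, inv_mul_cancel₀ hb0.ne', one_smul]
        rw [h4, h3, smul_sub, smul_smul]
        congr 2
        field_simp
      refine hgen L' b⁻¹ hS' fun x y => ⟨2 * a / b * x + y, -(x / b), ?_, ?_⟩
      · rw [map_add, map_smul, map_smul, hL'L, hL'v]
        have : x / b = x * b⁻¹ := div_eq_mul_inv _ _
        rw [this]
        module
      · field_simp
        ring
    have hb3 : b = 1 := by
      rw [inv_le_one₀ hb0] at hb2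
      linarith
    rw [hb3] at hab hrel
    rw [one_smul] at hrel
    have ha1' : |a| < 1 := by
      rw [← sq_lt_one_iff_abs_lt_one]
      exact hab
    exact ⟨v, a, hv, ha1'.le, hrel, fun h => absurd h ha1'.ne⟩

end Pool.Agent.Zex
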