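import Pool.Agent.Zex.Targets

/-!
# FAM: the inverse of a smooth family of small modifications of the identity
-/

set_option autoImplicit false
set_option linter.unusedSectionVars false

open Set MeasureTheory Filter Topology Metric Asymptotics
open scoped Manifold ContDiff NNReal

namespace Pool.Agent.Zex

namespace FAM_

variable {F V : Type} [NormedAddCommGroup F] [NormedSpace ℝ F]
  [FiniteDimensional ℝ F] [NormedAddCommGroup V] [NormedSpace ℝ V] [FiniteDimensional ℝ V]

lemma lip {G : F × V → V} (hG : ContDiff ℝ ∞ G)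
    (hb : ∀ (y : F) (u : V), ‖fderiv ℝ (fun w => G (y, w)) u‖ ≤ 1 / 2) (y : F) :
    LipschitzWith (1 / 2 : ℝ≥0) (fun w => G (y, w)) := by
  have hd : Differentiable ℝ (fun w : V => G (y, w)) := by
    have h1 : ContDiff ℝ ∞ (fun w : V => G (y, w)) :=
      hG.comp (contDiff_const.prodMk contDiff_id)
    exact h1.differentiable (by simp)
  apply lipschitzWith_of_nnnorm_fderiv_le hd
  intro u
  rw [← NNReal.coe_le_coe, coe_nnnorm]
  have := hb y u
  simpa using this

lemma contr {G : F × V → V} (hG : ContDiff ℝ ∞ G)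
    (hb : ∀ (y : F) (u : V), ‖fderiv ℝ (fun w => G (y, w)) u‖ ≤ 1 / 2) (y : F) (z : V) :
    ContractingWith (1 / 2 : ℝ≥0) (fun w => z - G (y, w)) := by
  refine ⟨?_, ?_⟩
  · rw [← NNReal.coe_lt_coe]
    norm_num
  · have h1 := lip hG hb y
    apply LipschitzWith.of_dist_le_mul
    intro u v
    have h2 := h1.dist_le_mul u v
    rwa [dist_sub_left]

lemma fdist {G : F × V → V} (hG : ContDiff ℝ ∞ G)
    (hb : ∀ (y : F) (u : V), ‖fderiv ℝ (fun w => G (y, w)) u‖ ≤ 1 / 2) (y : F) (u v : V) :
    ‖G (y, u) - G (y, v)‖ ≤ 1 / 2 * ‖u - v‖ := by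
  have h1 := (lip hG hb y).dist_le_mul u v
  rw [dist_eq_norm, dist_eq_norm] at h1
  simpa using h1

/-- the derivative of `Ψ` -/
noncomputable def dPsi (G : F × V → V) (p : F × V) : F × V →L[ℝ] F × V :=
  (ContinuousLinearMap.fst ℝ F V).prod (ContinuousLinearMap.snd ℝ F V + fderiv ℝ G p)

lemma dPsi_inj {G : F × V → V} (hG : ContDiff ℝ ∞ G)
    (hb : ∀ (y : F) (u : V), ‖fderiv ℝ (fun w => G (y, w)) u‖ ≤ 1 / 2) (p : F × V) :
    Function.Injective (dPsi G p) := by
  rw [injective_iff_map_eq_zero]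
  rintro ⟨a, b⟩ hab
  have h1 : a = 0 := by
    have := congrArg Prod.fst hab
    simpa [dPsi] using this
  have h2 : b + fderiv ℝ G p (a, b) = 0 := by
    have := congrArg Prod.snd hab
    simpa [dPsi] using this
  subst h1
  have h3 : fderiv ℝ (fun w => G (p.1, w)) p.2 b = fderiv ℝ G p (0, b) := by
    have hd : HasFDerivAt G (fderiv ℝ G p) (p.1, p.2) :=
      (hG.differentiable (by simp) p).hasFDerivAt
    have h4 : HasFDerivAt (fun w : V => G (p.1, w))
        ((fderiv ℝ G p).comp (ContinuousLinearMap.inr ℝ F V)) p.2 :=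
      hd.comp p.2 (hasFDerivAt_prodMk_right p.1 p.2)
    rw [h4.fderiv]
    simp
  have h5 : ‖fderiv ℝ G p (0, b)‖ ≤ 1 / 2 * ‖b‖ := by
    rw [← h3]
    exact (ContinuousLinearMap.le_opNorm _ _).trans
      (mul_le_mul_of_nonneg_right (hb _ _) (norm_nonneg _))
  have h6 : ‖b‖ = ‖fderiv ℝ G p (0, b)‖ := by
    rw [← norm_neg b]
    congr 1
    exact neg_eq_of_add_eq_zero_right h2
  have h7 : ‖b‖ ≤ 0 := by linarith
  have h8 : b = 0 := norm_le_zero_iff.mp h7
  rw [h8]
  rfl

end FAM_

open FAM_ in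
theorem p_FAM : T_FAM := by
  intro F V _ _ _ _ _ _ G hG hb
  have : CompleteSpace V := FiniteDimensional.complete ℝ V
  have : CompleteSpace F := FiniteDimensional.complete ℝ F
  set R : F × V → V := fun p => ContractingWith.fixedPoint _ (contr hG hb p.1 p.2) with hR
  have hR1 : ∀ (y : F) (z : V), R (y, z) + G (y, R (y, z)) = z := by
    intro y z
    have h1 : z - G (y, R (y, z)) = R (y, z) :=
      (contr hG hb y z).fixedPoint_isFixedPt
    exact (sub_eq_iff_eq_add.mp h1).symm
  have hR2 : ∀ (y : F) (u : V), R (y, u + G (y, u)) = u := by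
    intro y u
    have h1 : Function.IsFixedPt (fun w => (u + G (y, u)) - G (y, w)) u := by
      show (u + G (y, u)) - G (y, u) = u
      abel
    exact ((contr hG hb y (u + G (y, u))).fixedPoint_unique h1).symm
  have hcont : Continuous R := by
    rw [continuous_iff_continuousAt]
    rintro ⟨y', z'⟩
    set u' := R (y', z') with hu'
    have hest : ∀ p : F × V, ‖R p - u'‖ ≤ 2 * ‖p.2 - z'‖ + 2 * ‖G (p.1, u') - G (y', u')‖ := by
      rintro ⟨y, z⟩
      have e1 : R (y, z) = z - G (y, R (y, z)) := by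
        rw [eq_sub_iff_add_eq]
        exact hR1 y z
      have e2 : u' = z' - G (y', u') := by
        rw [eq_sub_iff_add_eq]
        exact hR1 y' z'
      have e3 : R (y, z) - u' = (z - z') - (G (y, R (y, z)) - G (y, u'))
          - (G (y, u') - G (y', u')) := by
        calc R (y, z) - u' = (z - G (y, R (y, z))) - (z' - G (y', u')) := by rw [← e1, ← e2]
          _ = _ := by abel
      have e4 := fdist hG hb y (R (y, z)) u'
      have e5 : ‖R (y, z) - u'‖ ≤ ‖z - z'‖ + ‖G (y, R (y, z)) - G (y, u')‖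
          + ‖G (y, u') - G (y', u')‖ := by
        conv_lhs => rw [e3]
        exact (norm_sub_le _ _).trans (add_le_add (norm_sub_le _ _) le_rfl)
      dsimp only
      linarith
    show Tendsto R (𝓝 (y', z')) (𝓝 u')
    rw [tendsto_iff_norm_sub_tendsto_zero]
    have hlim : Tendsto (fun p : F × V => 2 * ‖p.2 - z'‖ + 2 * ‖G (p.1, u') - G (y', u')‖)
        (𝓝 (y', z')) (𝓝 0) := by
      have hc : Continuous (fun p : F × V => 2 * ‖p.2 - z'‖ + 2 * ‖G (p.1, u') - G (y', u')‖) := by
        have := hG.continuous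
        fun_prop
      have := hc.tendsto (y', z')
      simpa using this
    exact squeeze_zero (fun _ => norm_nonneg _) hest hlim
  -- the homeomorphism
  let Ψ : F × V ≃ₜ F × V :=
    { toFun := fun p => (p.1, p.2 + G p)
      invFun := fun p => (p.1, R p)
      left_inv := fun p => by
        show (p.1, R (p.1, p.2 + G p)) = p
        have := hR2 p.1 p.2
        exact Prod.ext rfl this
      right_inv := fun p => by
        show (p.1, R p + G (p.1, R p)) = p
        have := hR1 p.1 p.2
        exact Prod.ext rfl this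
      continuous_toFun := by
        have := hG.continuous
        fun_prop
      continuous_invFun := continuous_fst.prodMk hcont }
  have hΨ : ContDiff ℝ ∞ (Ψ : F × V → F × V) := by
    show ContDiff ℝ ∞ (fun p : F × V => (p.1, p.2 + G p))
    exact contDiff_fst.prodMk (contDiff_snd.add hG)
  have hder : ∀ p : F × V, HasFDerivAt (Ψ : F × V → F × V)
      (((LinearEquiv.ofInjectiveEndo ((dPsi G p : F × V →L[ℝ] F × V) : F × V →ₗ[ℝ] F × V)
        (dPsi_inj hG hb p)).toContinuousLinearEquiv : (F × V) ≃L[ℝ] (F × V)) :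
          F × V →L[ℝ] F × V) p := by
    intro p
    have e1 : (((LinearEquiv.ofInjectiveEndo ((dPsi G p : F × V →L[ℝ] F × V) : F × V →ₗ[ℝ] F × V)
        (dPsi_inj hG hb p)).toContinuousLinearEquiv : (F × V) ≃L[ℝ] (F × V)) :
          F × V →L[ℝ] F × V) = dPsi G p := by
      ext x <;> rfl
    rw [e1]
    show HasFDerivAt (fun p : F × V => (p.1, p.2 + G p)) (dPsi G p) p
    exact hasFDerivAt_fst.prodMk (hasFDerivAt_snd.add
      (hG.differentiable (by simp) p).hasFDerivAt)
  have hsymm : ContDiff ℝ ∞ (Ψ.symm : F × V → F × V) := Ψ.contDiff_symm hder hΨ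
  refine ⟨R, ?_, hR2, hR1⟩
  have : R = fun p => (Ψ.symm p).2 := rfl
  rw [this]
  exact contDiff_snd.comp hsymm

end Pool.Agent.Zex
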