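import Pool.Agent.Zex.Targets

/-!
# The spectral radius formula for real maps
-/

set_option autoImplicit false

open Set Filter Topology

namespace Pool.Agent.Zex

namespace GRW_

attribute [local instance] Matrix.linftyOpNormedRing Matrix.linftyOpNormedAlgebra

/-- The growth of the powers of an element with small spectral radius. -/
theorem alg {A : Type} [NormedRing A] [NormedAlgebra ℂ A] [CompleteSpace A] (a : A)
    (h : ∀ z ∈ spectrum ℂ a, ‖z‖ ≤ 1) (c : ℝ) (hc : 1 < c) :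
    ∃ C : ℝ, 0 ≤ C ∧ ∀ n : ℕ, ‖a ^ n‖ ≤ C * c ^ n := by
  have h1 : spectralRadius ℂ a ≤ 1 := by
    refine iSup₂_le fun z hz => ?_
    have h2 : ‖z‖₊ ≤ 1 := by
      rw [← NNReal.coe_le_coe]
      exact h z hz
    exact_mod_cast h2
  have h2 : spectralRadius ℂ a < ENNReal.ofReal c := by
    refine lt_of_le_of_lt h1 ?_
    rw [← ENNReal.ofReal_one]
    exact (ENNReal.ofReal_lt_ofReal_iff (by linarith)).2 hc
  have h3 := spectrum.pow_norm_pow_one_div_tendsto_nhds_spectralRadius a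
  have h4 := h3.eventually (gt_mem_nhds h2)
  obtain ⟨N, hN⟩ := eventually_atTop.1 h4
  have h5 : ∀ n : ℕ, N + 1 ≤ n → ‖a ^ n‖ ≤ c ^ n := by
    intro n hn
    have h6 := hN n (by omega)
    rw [ENNReal.ofReal_lt_ofReal_iff (by linarith)] at h6
    have hn0 : n ≠ 0 := by omega
    have h7 : (‖a ^ n‖ ^ (1 / (n : ℝ))) ^ n ≤ c ^ n :=
      pow_le_pow_left₀ (Real.rpow_nonneg (norm_nonneg _) _) h6.le n
    rw [one_div, Real.rpow_inv_natCast_pow (norm_nonneg _) hn0] at h7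
    exact h7
  refine ⟨1 + ∑ k ∈ Finset.range (N + 1), ‖a ^ k‖, by positivity, fun n => ?_⟩
  have hcn : (1 : ℝ) ≤ c ^ n := one_le_pow₀ hc.le
  have hS : 0 ≤ ∑ k ∈ Finset.range (N + 1), ‖a ^ k‖ := Finset.sum_nonneg fun k _ => norm_nonneg _
  rcases Nat.lt_or_ge n (N + 1) with hn | hn
  · have h8 : ‖a ^ n‖ ≤ ∑ k ∈ Finset.range (N + 1), ‖a ^ k‖ :=
      Finset.single_le_sum (f := fun k => ‖a ^ k‖) (fun k _ => norm_nonneg _)
        (Finset.mem_range.2 hn)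
    calc ‖a ^ n‖ ≤ (1 + ∑ k ∈ Finset.range (N + 1), ‖a ^ k‖) * 1 := by linarith
      _ ≤ _ := mul_le_mul_of_nonneg_left hcn (by linarith)
  · calc ‖a ^ n‖ ≤ 1 * c ^ n := by rw [one_mul]; exact h5 n hn
      _ ≤ _ := mul_le_mul_of_nonneg_right (by linarith) (by linarith)

/-- The norm of a real matrix as a complex matrix. -/
theorem nrm {d : Type} [Fintype d] [DecidableEq d] (M : Matrix d d ℝ) :
    ‖M.map (algebraMap ℝ ℂ)‖ = ‖M‖ := by
  rw [Matrix.linfty_opNorm_def, Matrix.linfty_opNorm_def]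
  congr 1
  refine Finset.sup_congr rfl fun i _ => Finset.sum_congr rfl fun j _ => ?_
  rw [Matrix.map_apply]
  exact nnnorm_algebraMap' ℂ (M i j)

/-- The growth of the powers of a real matrix. -/
theorem mat {d : Type} [Fintype d] [DecidableEq d] (M : Matrix d d ℝ)
    (h : ∀ z : ℂ, (M.charpoly.map (algebraMap ℝ ℂ)).IsRoot z → ‖z‖ ≤ 1) (c : ℝ) (hc : 1 < c) :
    ∃ C : ℝ, 0 ≤ C ∧ ∀ n : ℕ, ‖M ^ n‖ ≤ C * c ^ n := by
  have : CompleteSpace (Matrix d d ℂ) := FiniteDimensional.complete ℂ _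
  obtain ⟨C, h0, h1⟩ := alg (M.map (algebraMap ℝ ℂ)) (fun z hz => h z (by
    rw [Matrix.mem_spectrum_iff_isRoot_charpoly, Matrix.charpoly_map] at hz
    exact hz)) c hc
  refine ⟨C, h0, fun n => ?_⟩
  have h2 := h1 n
  have h3 : M.map (algebraMap ℝ ℂ) ^ n = (M ^ n).map (algebraMap ℝ ℂ) :=
    ((algebraMap ℝ ℂ).mapMatrix.map_pow M n).symm
  rw [h3, nrm] at h2
  exact h2

end GRW_

open GRW_

attribute [local instance] Matrix.linftyOpNormedRing Matrix.linftyOpNormedAlgebra in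
theorem p_GRW : T_GRW := by
  intro V _ _ _ L hL c hc
  classical
  let b := Module.finBasis ℝ V
  obtain ⟨C, h0, h1⟩ := mat (LinearMap.toMatrix b b (L : V →ₗ[ℝ] V)) (fun z hz => hL z (by
    rw [LinearMap.charpoly_toMatrix] at hz
    exact hz)) c hc
  let φ : (V →L[ℝ] V) →ₗ[ℝ] Matrix (Fin (Module.finrank ℝ V)) (Fin (Module.finrank ℝ V)) ℝ :=
    (LinearMap.toMatrix b b : (V →ₗ[ℝ] V) ≃ₗ[ℝ] _).toLinearMap ∘ₗ
      ContinuousLinearMap.coeLM ℝ
  have hφ : LinearMap.ker φ = ⊥ := by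
    rw [LinearMap.ker_eq_bot]
    intro x y hxy
    exact ContinuousLinearMap.coe_injective ((LinearMap.toMatrix b b).injective hxy)
  obtain ⟨K, K0, hK⟩ := LinearMap.exists_antilipschitzWith φ hφ
  refine ⟨K * C, fun n => ?_⟩
  have h2 : φ (L ^ n) = LinearMap.toMatrix b b (L : V →ₗ[ℝ] V) ^ n := by
    change LinearMap.toMatrix b b ((L ^ n : V →L[ℝ] V) : V →ₗ[ℝ] V) = _
    have hp : ((L ^ n : V →L[ℝ] V) : V →ₗ[ℝ] V) = (L : V →ₗ[ℝ] V) ^ n := by
      induction n with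
      | zero => rfl
      | succ k ih => rw [pow_succ, pow_succ, ← ih]; rfl
    rw [hp, ← LinearMap.toMatrix_pow]
  have h3 : ‖L ^ n‖ ≤ K * ‖φ (L ^ n)‖ := by
    have := hK.le_mul_dist (L ^ n) 0
    rw [dist_zero_right, map_zero, dist_zero_right] at this
    exact this
  rw [h2] at h3
  calc ‖L ^ n‖ ≤ K * ‖LinearMap.toMatrix b b (L : V →ₗ[ℝ] V) ^ n‖ := h3
    _ ≤ K * (C * c ^ n) := mul_le_mul_of_nonneg_left (h1 n) K.2
    _ = K * C * c ^ n := by ring

end Pool.Agent.Zex
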