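import Pool.Agent.Zex.Targets

/-!
# The symplectic gradient of a cut off quadratic form
-/

set_option autoImplicit false

open Set MeasureTheory Filter Topology Metric Asymptotics
open scoped Manifold ContDiff

namespace Pool.Agent.Zex

namespace HAM_

variable {V : Type} [NormedAddCommGroup V] [NormedSpace ℝ V]

/-- antisymmetry -/
theorem anti {Ω : V →L[ℝ] V →L[ℝ] ℝ} (h : Sf Ω) (v w : V) : Ω v w = -Ω w v := by
  have h1 := h.alt (v + w)
  rw [map_add, map_add, add_apply, add_apply, h.alt,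
    h.alt] at h1
  linarith

/-- the isomorphism with the dual given by the form -/
theorem iso [FiniteDimensional ℝ V] {Ω : V →L[ℝ] V →L[ℝ] ℝ} (h : Sf Ω) :
    ∃ g : (V →L[ℝ] ℝ) →L[ℝ] V, ∀ l w, Ω (g l) w = l w := by
  have hinj : Function.Injective (Ω : V →ₗ[ℝ] V →L[ℝ] ℝ) := by
    rw [injective_iff_map_eq_zero]
    intro v hv
    refine h.nd v (fun w => ?_)
    have h1 : Ω v = 0 := hv
    rw [h1]
    rfl
  let d : Module.Dual ℝ V ≃ₗ[ℝ] (V →L[ℝ] ℝ) := LinearMap.toContinuousLinearMap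
  have : FiniteDimensional ℝ (V →L[ℝ] ℝ) := d.finiteDimensional
  have hfr : Module.finrank ℝ V = Module.finrank ℝ (V →L[ℝ] ℝ) := by
    rw [← d.finrank_eq, Subspace.dual_finrank_eq]
  let e := (Ω : V →ₗ[ℝ] V →L[ℝ] ℝ).linearEquivOfInjective hinj hfr
  have he : ∀ v, e v = Ω v := fun v => rfl
  refine ⟨LinearMap.toContinuousLinearMap (e.symm : (V →L[ℝ] ℝ) →ₗ[ℝ] V), fun l w => ?_⟩
  have h2 : Ω (e.symm l) = l := by
    rw [← he, e.apply_symm_apply]
  change Ω (e.symm l) w = l w
  rw [h2]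

end HAM_

open HAM_

theorem p_HAM : T_HAM := by
  intro V _ _ _ Ω σ hΩ hσ
  obtain ⟨g, hg⟩ := iso hΩ
  let f : ContDiffBump (0 : V) := ⟨σ / 3, σ / 2, by linarith, by linarith⟩
  have hf : ContDiff ℝ ∞ (f : V → ℝ) := f.contDiff
  have hf1 : ∀ᶠ u in 𝓝 (0 : V), (f : V → ℝ) =ᶠ[𝓝 u] fun _ => (1 : ℝ) := by
    have h1 : ball (0 : V) (σ / 3) ∈ 𝓝 (0 : V) := ball_mem_nhds _ (by linarith)
    filter_upwards [h1] with u hu
    filter_upwards [isOpen_ball.mem_nhds hu] with y hy
    exact f.one_of_mem_closedBall (ball_subset_closedBall hy)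
  have hf0 : ∀ u : V, σ ≤ ‖u‖ → (f : V → ℝ) =ᶠ[𝓝 u] fun _ => (0 : ℝ) := by
    intro u hu
    have h1 : IsOpen {y : V | σ / 2 < ‖y‖} := isOpen_lt continuous_const continuous_norm
    have h2 : u ∈ {y : V | σ / 2 < ‖y‖} := by
      change σ / 2 < ‖u‖
      linarith
    filter_upwards [h1.mem_nhds h2] with y hy
    refine f.zero_of_le_dist ?_
    rw [dist_zero_right]
    exact le_of_lt hy
  have hdf : ContDiff ℝ ∞ (fun u => fderiv ℝ (f : V → ℝ) u) := hf.fderiv_right le_rfl
  let X : (V →L[ℝ] V) × V → V := fun p =>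
    f p.2 • p.1 p.2 + (1 / 2 * Ω (p.1 p.2) p.2) • g (fderiv ℝ (f : V → ℝ) p.2)
  have hX : ContDiff ℝ ∞ X := by
    have h1 : ContDiff ℝ ∞ (fun p : (V →L[ℝ] V) × V => p.1 p.2) :=
      contDiff_fst.clm_apply contDiff_snd
    have h2 : ContDiff ℝ ∞ (fun p : (V →L[ℝ] V) × V => Ω (p.1 p.2) p.2) :=
      (Ω.contDiff.comp h1).clm_apply contDiff_snd
    refine ((hf.comp contDiff_snd).smul h1).add ((contDiff_const.mul h2).smul ?_)
    exact g.contDiff.comp (hdf.comp contDiff_snd)
  refine ⟨X, hX, ?_, ?_, ?_⟩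
  · intro Y u hu
    have h1 := hf0 u hu
    have h2 : f u = 0 := h1.eq_of_nhds
    have h3 : fderiv ℝ (f : V → ℝ) u = 0 := by
      rw [h1.fderiv_eq]
      simp
    change f u • Y u + (1 / 2 * Ω (Y u) u) • g (fderiv ℝ (f : V → ℝ) u) = 0
    rw [h2, h3, map_zero, smul_zero, zero_smul, add_zero]
  · intro Y hY
    have hsym : ∀ v w, Ω (Y v) w = Ω (Y w) v := by
      intro v w
      rw [hY v w, anti hΩ v (Y w), neg_neg]
    constructor
    · filter_upwards [hf1] with u hu
      have h2 : f u = 1 := hu.eq_of_nhds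
      have h3 : fderiv ℝ (f : V → ℝ) u = 0 := by
        rw [hu.fderiv_eq]
        simp
      change f u • Y u + (1 / 2 * Ω (Y u) u) • g (fderiv ℝ (f : V → ℝ) u) = Y u
      rw [h2, h3, map_zero, smul_zero, one_smul, add_zero]
    · intro u v w
      set XY : V → V := fun z => X (Y, z) with hXY
      have hXYc : ContDiff ℝ ∞ XY := hX.comp (contDiff_const.prodMk contDiff_id)
      have hXYd : Differentiable ℝ XY := hXYc.differentiable (by simp)
      let H : V → ℝ := fun z => f z * (1 / 2 * Ω (Y z) z)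
      have hq : ContDiff ℝ ∞ (fun z : V => Ω (Y z) z) :=
        (Ω.contDiff.comp Y.contDiff).clm_apply contDiff_id
      have hH : ContDiff ℝ ∞ H := hf.mul (contDiff_const.mul hq)
      have hdq : ∀ z w : V, fderiv ℝ (fun z : V => Ω (Y z) z) z w = 2 * Ω (Y z) w := by
        intro z w
        have h1 : HasFDerivAt (fun z : V => Ω (Y z)) (Ω ∘L Y) z := (Ω ∘L Y).hasFDerivAt
        have h2 := h1.clm_apply (hasFDerivAt_id z)
        have h3 : HasFDerivAt (fun z : V => Ω (Y z) z) _ z := h2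
        rw [h3.fderiv]
        simp only [add_apply, ContinuousLinearMap.comp_apply,
          ContinuousLinearMap.flip_apply, id, ContinuousLinearMap.id_apply]
        rw [hsym w z]
        ring
      have hdH : ∀ z, fderiv ℝ H z = Ω (XY z) := by
        intro z
        ext w
        have h1 : HasFDerivAt (f : V → ℝ) (fderiv ℝ (f : V → ℝ) z) z :=
          ((hf.differentiable (by simp)) z).hasFDerivAt
        have h2 : HasFDerivAt (fun z : V => Ω (Y z) z) (fderiv ℝ (fun z : V => Ω (Y z) z) z) z :=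
          ((hq.differentiable (by simp)) z).hasFDerivAt
        have h3 : HasFDerivAt H _ z := h1.mul (h2.const_mul (1 / 2))
        rw [h3.fderiv]
        change _ = Ω (f z • Y z + (1 / 2 * Ω (Y z) z) • g (fderiv ℝ (f : V → ℝ) z)) w
        rw [map_add, map_smul, map_smul]
        simp only [add_apply, smul_apply, smul_eq_mul]
        rw [hg, hdq]
        ring
      have hd2 : ∀ v w, fderiv ℝ (fderiv ℝ H) u v w = Ω (fderiv ℝ XY u v) w := by
        intro v w
        have h1 : fderiv ℝ H = fun z => Ω (XY z) := funext hdH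
        rw [h1]
        have h2 : HasFDerivAt (fun z => Ω (XY z)) (Ω ∘L fderiv ℝ XY u) u :=
          Ω.hasFDerivAt.comp u (hXYd u).hasFDerivAt
        rw [h2.fderiv]
        rfl
      have hsy : IsSymmSndFDerivAt ℝ H u := by
        refine (hH.contDiffAt).isSymmSndFDerivAt ?_
        rw [minSmoothness_of_isRCLikeNormedField]
        exact WithTop.coe_le_coe.mpr (le_top : (2 : ℕ∞) ≤ ⊤)
      have h5 := hsy v w
      rw [hd2, hd2] at h5
      rw [h5, anti hΩ]
  · intro u
    change f u • (0 : V →L[ℝ] V) u + (1 / 2 * Ω ((0 : V →L[ℝ] V) u) u) •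
      g (fderiv ℝ (f : V → ℝ) u) = 0
    simp

end Pool.Agent.Zex
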