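import Pool.Agent.Zex.Targets

/-!
# Homogeneous polynomial maps: basic facts
-/

set_option autoImplicit false

open Set MeasureTheory Filter Topology Metric Asymptotics
open scoped Manifold ContDiff

namespace Pool.Agent.Zex

namespace HPF_

variable {V : Type} [NormedAddCommGroup V] [NormedSpace ℝ V]

theorem comp_mem {j : ℕ} (M : MultilinearMap ℝ (fun _ : Fin j => V) V) (A B : V →L[ℝ] V) :
    (fun z => A (M fun _ => B z)) ∈ hp V j := by
  refine ⟨(A : V →ₗ[ℝ] V).compMultilinearMap (M.compLinearMap fun _ => (B : V →ₗ[ℝ] V)), ?_⟩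
  rfl

theorem homog {j : ℕ} (M : MultilinearMap ℝ (fun _ : Fin j => V) V) (t : ℝ) (z : V) :
    M (fun _ => t • z) = t ^ j • M fun _ => z := by
  have h := M.map_smul_univ (fun _ => t) (fun _ => z)
  rw [h, Finset.prod_const, Finset.card_univ, Fintype.card_fin]

theorem cont [FiniteDimensional ℝ V] {j : ℕ} (M : MultilinearMap ℝ (fun _ : Fin j => V) V) :
    Continuous M := by
  have b := Module.finBasis ℝ V
  have h : ∀ v : Fin j → V, M v = ∑ r : Fin j → Fin (Module.finrank ℝ V),
      (∏ i, b.coord (r i) (v i)) • M fun i => b (r i) := by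
    intro v
    have h1 : v = fun i => ∑ k, b.coord k (v i) • b k := by
      funext i
      exact (b.sum_repr (v i)).symm
    conv_lhs => rw [h1]
    rw [M.map_sum]
    refine Finset.sum_congr rfl fun r _ => ?_
    exact M.map_smul_univ (fun i => b.coord (r i) (v i)) fun i => b (r i)
  have h2 : (M : (Fin j → V) → V) = fun v => ∑ r : Fin j → Fin (Module.finrank ℝ V),
      (∏ i, b.coord (r i) (v i)) • M fun i => b (r i) := funext h
  rw [h2]
  refine continuous_finsetSum _ fun r _ => ?_
  refine (continuous_finsetProd _ fun i _ => ?_).smul continuous_const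
  exact (b.coord (r i)).continuous_of_finiteDimensional.comp (continuous_apply i)

end HPF_

open HPF_ in
theorem p_HPF : T_HPF := by
  intro V _ _ _ j
  refine ⟨?_, ?_⟩
  · unfold hp
    infer_instance
  · rintro _ ⟨M, rfl⟩
    obtain ⟨Mc, hMc⟩ : ∃ Mc : ContinuousMultilinearMap ℝ (fun _ : Fin j => V) V,
        ∀ v, Mc v = M v :=
      ⟨⟨M, cont M⟩, fun v => rfl⟩
    have he : ∀ z, diagL V j M z = Mc fun _ => z := fun z => (hMc _).symm
    refine ⟨fun A B => comp_mem M A B, ?_, fun t z => homog M t z, ‖Mc‖, fun z => ?_⟩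
    · have h1 : diagL V j M = fun z => Mc fun _ => z := funext he
      rw [h1]
      exact Mc.contDiff.comp (contDiff_pi.2 fun _ => contDiff_id)
    · rw [he]
      have h2 := Mc.le_opNorm fun _ => z
      rwa [Finset.prod_const, Finset.card_univ, Fintype.card_fin] at h2

end Pool.Agent.Zex
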