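import Pool.Agent.Zex.Targets

/-!
# INV: the inverse of a symplectic linear map
-/

set_option autoImplicit false

open Set MeasureTheory Filter Topology Metric Asymptotics
open scoped Manifold ContDiff

namespace Pool.Agent.Zex

namespace INV_

variable {V : Type} [NormedAddCommGroup V] [NormedSpace ℝ V]

theorem pow_dual (Ω : V →L[ℝ] V →L[ℝ] ℝ) (L L' : V →L[ℝ] V) (h : Pres Ω L)
    (h2 : ∀ v, L (L' v) = v) (n : ℕ) : ∀ v w : V, Ω ((L' ^ n) v) w = Ω v ((L ^ n) w) := by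
  induction n with
  | zero => intro v w; simp
  | succ n ih =>
    intro v w
    rw [pow_succ', pow_succ, ContinuousLinearMap.mul_apply, ContinuousLinearMap.mul_apply,
      ← ih, ← h (L' ((L' ^ n) v)) w, h2]

end INV_

open INV_ in
theorem p_INV : T_INV := by
  intro V _ _ _ Ω L hΩ hL
  have hinj : Function.Injective (L : V →ₗ[ℝ] V) := by
    rw [← LinearMap.ker_eq_bot, LinearMap.ker_eq_bot']
    intro v hv
    apply hΩ.nd v
    intro w
    have hv' : L v = 0 := hv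
    rw [← hL v w, hv', map_zero, ContinuousLinearMap.zero_apply]
  let e : V ≃ₗ[ℝ] V := LinearEquiv.ofInjectiveEndo (L : V →ₗ[ℝ] V) hinj
  have he : ∀ v, e v = L v := fun v => rfl
  let L' : V →L[ℝ] V := LinearMap.toContinuousLinearMap (e.symm : V →ₗ[ℝ] V)
  have hL' : ∀ v, L' v = e.symm v := fun v => rfl
  have h1 : ∀ v, L' (L v) = v := by
    intro v
    rw [hL', ← he, e.symm_apply_apply]
  have h2 : ∀ v, L (L' v) = v := by
    intro v
    rw [hL', ← he, e.apply_symm_apply]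
  refine ⟨L', h1, h2, ?_, ?_⟩
  · intro v w
    rw [← hL (L' v) (L' w), h2, h2]
  · intro hs c hc
    obtain ⟨C, hC⟩ := hs c hc
    have hker : LinearMap.ker (Ω : V →ₗ[ℝ] (V →L[ℝ] ℝ)) = ⊥ := by
      rw [LinearMap.ker_eq_bot']
      intro v hv
      apply hΩ.nd v
      intro w
      have hv' : Ω v = 0 := hv
      rw [hv', ContinuousLinearMap.zero_apply]
    obtain ⟨K, hK0, hK⟩ := LinearMap.exists_antilipschitzWith (Ω : V →ₗ[ℝ] (V →L[ℝ] ℝ)) hker
    have hKn : ∀ x : V, ‖x‖ ≤ K * ‖Ω x‖ := by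
      intro x
      have := hK.le_mul_dist x 0
      simpa [dist_eq_norm] using this
    refine ⟨K * ‖Ω‖ * C, fun n => ?_⟩
    refine ContinuousLinearMap.opNorm_le_bound _ ?_ fun v => ?_
    · have h0 : 0 ≤ C * c ^ n := le_trans (norm_nonneg _) (hC n)
      have : (K : ℝ) * ‖Ω‖ * C * c ^ n = K * ‖Ω‖ * (C * c ^ n) := by ring
      rw [this]
      positivity
    · have h3 : ‖Ω ((L' ^ n) v)‖ ≤ ‖Ω‖ * ‖v‖ * (C * c ^ n) := by
        refine ContinuousLinearMap.opNorm_le_bound _ ?_ fun w => ?_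
        · have h0 : 0 ≤ C * c ^ n := le_trans (norm_nonneg _) (hC n)
          positivity
        · rw [pow_dual Ω L L' hL h2]
          calc ‖Ω v ((L ^ n) w)‖ ≤ ‖Ω v‖ * ‖(L ^ n) w‖ := (Ω v).le_opNorm _
            _ ≤ (‖Ω‖ * ‖v‖) * (‖L ^ n‖ * ‖w‖) := by
              gcongr
              · exact Ω.le_opNorm v
              · exact (L ^ n).le_opNorm w
            _ ≤ (‖Ω‖ * ‖v‖) * ((C * c ^ n) * ‖w‖) := by
              gcongr
              exact hC n
            _ = ‖Ω‖ * ‖v‖ * (C * c ^ n) * ‖w‖ := by ring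
      calc ‖(L' ^ n) v‖ ≤ K * ‖Ω ((L' ^ n) v)‖ := hKn _
        _ ≤ K * (‖Ω‖ * ‖v‖ * (C * c ^ n)) := by gcongr
        _ = K * ‖Ω‖ * C * c ^ n * ‖v‖ := by ring

end Pool.Agent.Zex
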