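import Mathlib
import Pool.Agent.Zex.Targets

/-!
# A symplectic map with subexponential growth is a limit of elliptic ones
-/

set_option autoImplicit false

open Set MeasureTheory Filter Topology Metric Asymptotics
open scoped Manifold ContDiff

namespace Pool.Agent.Zex

namespace LA_

theorem triv {V : Type} [NormedAddCommGroup V] [NormedSpace ℝ V] [Subsingleton V]
    (Ω : V →L[ℝ] V →L[ℝ] ℝ) (L : V →L[ℝ] V) : Good Ω L := by
  intro ε hε
  have h0 : ∀ v : V, v = 0 := fun v => Subsingleton.elim v 0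
  refine ⟨L, L, by rw [sub_self, norm_zero]; exact hε, fun v w => ?_,
    ⟨fun v => Subsingleton.elim _ _, fun v w => ?_, fun v hv => absurd (h0 v) hv⟩,
    fun v => rfl⟩
  · rw [Subsingleton.elim (L v) v, Subsingleton.elim (L w) w]
  · rw [Subsingleton.elim (L v) v, Subsingleton.elim (L w) w]

theorem main (h1 : T_INV) (h2 : T_EV) (h3 : T_PLA) (h4 : T_SPL) (h5 : T_STP) (n : ℕ) :
    ∀ (V : Type) [NormedAddCommGroup V] [NormedSpace ℝ V] [FiniteDimensional ℝ V]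
      (Ω : V →L[ℝ] V →L[ℝ] ℝ) (L : V →L[ℝ] V), Module.finrank ℝ V = n → Sf Ω → Pres Ω L →
      SubExp L → Good Ω L := by
  induction n using Nat.strong_induction_on with
  | _ n ih =>
    intro V _ _ _ Ω L hn hS hP hE
    rcases subsingleton_or_nontrivial V with hV | hV
    · exact triv Ω L
    · obtain ⟨L', hl, hr, _, hE'⟩ := h1 V Ω L hS hP
      obtain ⟨v, c, hv, hc, hL, hc1⟩ := h2 V L L' hV hl hr hE (hE' hE)
      by_cases h : Ω v (L v) = 0
      · obtain ⟨W, Z, q, A, LZ, Φ, hB, hd, hSZ, hEZ⟩ := h4 V Ω L v c hS hP hE hv hc hL hc1 h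
        obtain ⟨hPZ, hG⟩ := h5 V Ω L W Z q A LZ Φ hS hP hSZ hB
        exact hG (ih _ (hn ▸ hd) Z (rs Ω Z) LZ rfl hSZ hPZ hEZ)
      · obtain ⟨Z, LZ, hd, hSZ, hPZ, hEZ, hG⟩ := h3 V Ω L v c hS hP hE hv hc hL hc1 h
        exact hG (ih _ (hn ▸ hd) Z (rs Ω Z) LZ rfl hSZ hPZ hEZ)

end LA_

theorem p_LA (h1 : T_INV) (h2 : T_EV) (h3 : T_PLA) (h4 : T_SPL) (h5 : T_STP) : T_LA := by
  intro V _ _ _ Ω L hS hP hE
  exact LA_.main h1 h2 h3 h4 h5 _ V Ω L rfl hS hP hE

end Pool.Agent.Zex
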