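import Pool.Agent.Zex.Targets

/-!
# ZEX-LIN: the result of the linear part
-/

set_option autoImplicit false

open Set MeasureTheory Filter Topology Metric Asymptotics
open scoped Manifold ContDiff

namespace Pool.Agent.Zex

namespace LIN_

variable {V : Type} [NormedAddCommGroup V] [NormedSpace ℝ V]

theorem abs_cos_sub_one_le {t : ℝ} (ht : |t| ≤ 1) : |Real.cos t - 1| ≤ |t| := by
  have h1 := Real.one_sub_sq_div_two_le_cos (x := t)
  have h2 := Real.cos_le_one t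
  rw [abs_sub_comm, abs_of_nonneg (by linarith)]
  have h3 : t ^ 2 = |t| ^ 2 := (sq_abs t).symm
  have h4 : |t| ^ 2 ≤ |t| := by nlinarith [abs_nonneg t]
  nlinarith [abs_nonneg t]

theorem rt_bound (J L : V →L[ℝ] V) {t : ℝ} (ht : |t| ≤ 1) :
    ‖Rt J t ∘L L - L‖ ≤ |t| * (1 + ‖J‖) * ‖L‖ := by
  have h1 : Rt J t ∘L L - L =
      ((Real.cos t - 1) • ContinuousLinearMap.id ℝ V + Real.sin t • J) ∘L L := by
    ext v
    simp only [Rt, ContinuousLinearMap.sub_apply, ContinuousLinearMap.comp_apply,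
      ContinuousLinearMap.add_apply, ContinuousLinearMap.smul_apply, ContinuousLinearMap.id_apply,
      sub_smul, one_smul]
    abel
  rw [h1]
  refine (ContinuousLinearMap.opNorm_comp_le _ _).trans ?_
  refine mul_le_mul_of_nonneg_right ?_ (norm_nonneg _)
  refine (norm_add_le _ _).trans ?_
  rw [norm_smul, norm_smul, mul_add, mul_one]
  refine add_le_add ?_ ?_
  · calc ‖Real.cos t - 1‖ * ‖ContinuousLinearMap.id ℝ V‖ ≤ ‖Real.cos t - 1‖ * 1 :=
          mul_le_mul_of_nonneg_left ContinuousLinearMap.norm_id_le (norm_nonneg _)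
      _ ≤ |t| := by
        rw [mul_one, Real.norm_eq_abs]
        exact abs_cos_sub_one_le ht
  · refine mul_le_mul_of_nonneg_right ?_ (norm_nonneg _)
    rw [Real.norm_eq_abs]
    exact Real.abs_sin_le_abs

end LIN_

open LIN_ in
theorem p_LIN (h1 : T_LA) (h2 : T_DNS) : T_LIN := by
  intro V _ _ _ Ω L hS hP hL ε hε
  obtain ⟨L1, J, hL1, hP1, hJ, hcomm⟩ := h1 V Ω L hS hP hL (ε / 2) (by linarith)
  have hpos : 0 < (1 + ‖J‖) * (‖L1‖ + 1) := by positivity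
  obtain ⟨t, ht, hE⟩ := h2 V Ω L1 J hS hP1 hJ hcomm
    (min 1 (ε / 2 / ((1 + ‖J‖) * (‖L1‖ + 1)))) (lt_min one_pos (by positivity))
  refine ⟨Rt J t ∘L L1, J, ?_, hE⟩
  have ht1 : |t| ≤ 1 := ht.trans (min_le_left _ _)
  have ht2 : |t| ≤ ε / 2 / ((1 + ‖J‖) * (‖L1‖ + 1)) := ht.trans (min_le_right _ _)
  have h3 : ‖Rt J t ∘L L1 - L1‖ ≤ ε / 2 := by
    refine (rt_bound J L1 ht1).trans ?_
    calc |t| * (1 + ‖J‖) * ‖L1‖ ≤ |t| * ((1 + ‖J‖) * (‖L1‖ + 1)) := by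
          rw [mul_assoc]
          refine mul_le_mul_of_nonneg_left ?_ (abs_nonneg _)
          refine mul_le_mul_of_nonneg_left ?_ (by positivity)
          linarith
      _ ≤ ε / 2 / ((1 + ‖J‖) * (‖L1‖ + 1)) * ((1 + ‖J‖) * (‖L1‖ + 1)) :=
          mul_le_mul_of_nonneg_right ht2 hpos.le
      _ = ε / 2 := div_mul_cancel₀ _ hpos.ne'
  calc ‖Rt J t ∘L L1 - L‖ = ‖(Rt J t ∘L L1 - L1) + (L1 - L)‖ := by rw [sub_add_sub_cancel]
    _ ≤ ‖Rt J t ∘L L1 - L1‖ + ‖L1 - L‖ := norm_add_le _ _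
    _ < ε := by linarith

end Pool.Agent.Zex
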