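import Pool.Agent.Zex.Targets
import Pool.Agent.Pal.MAIN2
import Pool.Agent.Pal.MAIN3

/-!
# The theorem on periodic points all of whose exponents vanish (job MAIN6)
-/

set_option autoImplicit false

open Set MeasureTheory Filter Topology Metric Asymptotics
open scoped Manifold ContDiff

namespace Pool.Agent.Zex

open Pool.Agent.Pal (E Ch IsDiffeo IsVolume Rob Uni Mod Near Nbd OneSink ext)
open Pool.Agent.Pal

namespace MAIN6_

/-- translation of a chart: the derivative of the map read in the chart -/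
theorem fderiv_transl {n : ℕ} (G F : E n → E n) (a c : E n) (h : ∀ y, F y = G (y + a) - c)
    (y : E n) : fderiv ℝ F y = fderiv ℝ G (y + a) := by
  have : F = fun y => G (y + a) - c := funext h
  rw [this, fderiv_sub_const, fderiv_comp_add_right]

/-- composition of maps which preserve `Ω` -/
theorem pres_comp {V : Type} [NormedAddCommGroup V] [NormedSpace ℝ V]
    {Ω : V →L[ℝ] V →L[ℝ] ℝ} {A B : V →L[ℝ] V} (hA : Pres Ω A) (hB : Pres Ω B) :
    Pres Ω (A ∘L B) := by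
  intro v w
  rw [ContinuousLinearMap.comp_apply, ContinuousLinearMap.comp_apply, hA, hB]

end MAIN6_

theorem p_MAIN6 (hGRW : T_GRW) (hINV : T_INV) (hLIN : T_LIN) (hSBK : T_SBK) (hSYX : T_SYX)
    (hTRL : T_TRL) (hEXT : Pool.Agent.Pal.T_EXT) (hDIFF : Pool.Agent.Pal.T_DIFF)
    (hVOLP : Pool.Agent.Pal.T_VOLP) (hMAIN3 : Pool.Agent.Pal.T_MAIN3) : T_MAIN6 := by
  intro n M _ _ _ _ _ _ _ μ s r f U m p e Ω hn hr hrs hμ hf hfμ hU hfU hm hfp hmin he hpe hΩ
    hpres hchar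
  classical
  obtain ⟨e₀, he₀, hsrc, hev0, hsy0⟩ := hTRL n M μ e p he hpe
  have hp₀ : p ∈ e₀.source := by rw [hsrc]; exact hpe
  have h0 : e₀ p = 0 := by rw [hev0, sub_self]
  obtain ⟨hcomp, hmono, hhomeo, hiter⟩ := hDIFF n M s
  obtain ⟨F, hF⟩ := hhomeo f hf
  have hfc : Continuous f := by rw [← hF]; exact F.continuous
  have hs1 : (1 : ℕ∞) ≤ s := le_trans (by exact_mod_cast hr) hrs
  have hs1' : ((1 : ℕ∞) : WithTop ℕ∞) ≤ (s : WithTop ℕ∞) := by exact_mod_cast hs1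
  have hsne : (s : WithTop ℕ∞) ≠ 0 := by
    intro h
    rw [h] at hs1'
    exact absurd hs1' (by decide)
  have hs0 : e₀.symm 0 = p := by rw [← h0, e₀.left_inv hp₀]
  have h0t : (0 : E n) ∈ e₀.target := by rw [← h0]; exact e₀.map_source hp₀
  have hsc : ContinuousAt e₀.symm 0 := e₀.continuousAt_symm h0t
  have hd0 : ContDiffAt ℝ s (MAIN_.rd e₀ f^[m]) (e₀ p) :=
    hiter f m e₀ e₀ p hf he₀.1 he₀.1 hp₀ (by rw [hfp]; exact hp₀)
  rw [h0] at hd0
  -- the derivative in the translated chart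
  have htr : ∀ y, fderiv ℝ (MAIN_.rd e₀ f^[m]) y = fderiv ℝ (e ∘ f^[m] ∘ e.symm) (y + e p) := by
    intro y
    refine MAIN6_.fderiv_transl _ _ (e p) (e p) (fun y => ?_) y
    show e₀ (f^[m] (e₀.symm y)) = e (f^[m] (e.symm (y + e p))) - e p
    rw [hev0, hsy0]
  have hpres0 : ∀ᶠ y in 𝓝 (0 : E n), Pres Ω (fderiv ℝ (MAIN_.rd e₀ f^[m]) y) := by
    have hc : Tendsto (fun y : E n => y + e p) (𝓝 0) (𝓝 (e p)) := by
      have : ContinuousAt (fun y : E n => y + e p) 0 := by fun_prop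
      simpa [ContinuousAt] using this
    filter_upwards [hc.eventually hpres] with y hy
    rw [htr]
    exact hy
  set A : E n →L[ℝ] E n := fderiv ℝ (MAIN_.rd e₀ f^[m]) 0 with hA
  have hAe : A = fderiv ℝ (e ∘ f^[m] ∘ e.symm) (e p) := by
    rw [hA, htr, zero_add]
  have hAp : Pres Ω A := hpres0.self_of_nhds
  have hAs : SubExp A := by
    refine hGRW (E n) A fun z hz => ?_
    rw [hAe] at hz
    exact (hchar z hz).le
  obtain ⟨A', hA1, hA2, hA'p, -⟩ := hINV (E n) Ω A hΩ hAp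
  -- the local picture
  have hev : {y : E n | y ∈ e₀.target ∧ f^[m] (e₀.symm y) ∈ e₀.source} ∈ 𝓝 (0 : E n) := by
    have h1 := MAIN_.ev_source (e := e₀) (e' := e₀) hp₀ (hfc.iterate m) (by rw [hfp]; exact hp₀)
    rw [h0] at h1
    filter_upwards [e₀.open_target.mem_nhds h0t, h1] with y hy1 hy2
    exact ⟨hy1, hy2⟩
  obtain ⟨W, hW, hWi⟩ := MAIN_.local_nbhd hfc hmin
  have hev2 : {y : E n | y ∈ e₀.target ∧ e₀.symm y ∈ W ∧ f^[m] (e₀.symm y) ∈ e₀.source} ∈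
      𝓝 (0 : E n) := by
    have h1 : ∀ᶠ y in 𝓝 (0 : E n), e₀.symm y ∈ W :=
      hsc.preimage_mem_nhds (by rw [hs0]; exact hW)
    filter_upwards [hev, h1] with y hy1 hy2
    exact ⟨hy1.1, hy2, hy1.2⟩
  obtain ⟨σ, hσ, hσW⟩ := Metric.nhds_basis_closedBall.mem_iff.1 hev2
  have hC : closedBall (0 : E n) σ ⊆ e₀.target := fun y hy => (hσW hy).1
  obtain ⟨δ, hδ, hrob⟩ := hU f hfU hf e₀ he₀.1 _ (isCompact_closedBall 0 σ) hC
  -- the linear perturbation
  obtain ⟨η, hη, hSY⟩ := hSYX n Ω σ r (min δ (1 / 2)) hΩ hσ (lt_min hδ (by norm_num))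
  obtain ⟨L'', J, hLJ, hEll⟩ := hLIN (E n) Ω A hΩ hAp hAs (η / (‖A'‖ + 1))
    (div_pos hη (by positivity))
  have hBp : Pres Ω (L'' ∘L A') := MAIN6_.pres_comp hEll.pres hA'p
  have hAA' : A ∘L A' = ContinuousLinearMap.id ℝ (E n) := by
    ext1 v
    rw [ContinuousLinearMap.comp_apply, hA2]
    rfl
  have hA'A : A' ∘L A = ContinuousLinearMap.id ℝ (E n) := by
    ext1 v
    rw [ContinuousLinearMap.comp_apply, hA1]
    rfl
  have hBn : ‖L'' ∘L A' - ContinuousLinearMap.id ℝ (E n)‖ ≤ η := by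
    have e1 : L'' ∘L A' - ContinuousLinearMap.id ℝ (E n) = (L'' - A) ∘L A' := by
      rw [ContinuousLinearMap.sub_comp, hAA']
    rw [e1]
    refine (ContinuousLinearMap.opNorm_comp_le _ _).trans ?_
    have e2 : η / (‖A'‖ + 1) * (‖A'‖ + 1) = η := by
      have : ‖A'‖ + 1 ≠ 0 := by positivity
      field_simp
    have e3 : ‖L'' - A‖ * ‖A'‖ ≤ η / (‖A'‖ + 1) * (‖A'‖ + 1) := by
      refine mul_le_mul hLJ.le ?_ (norm_nonneg _) (by positivity)
      linarith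
    linarith
  obtain ⟨L, hLm, hLn0, hLdet, hLB⟩ := hSY (L'' ∘L A') hBp hBn
  have hLn : Near r δ L := fun j hj y => (hLn0 j hj y).trans (min_le_left _ _)
  have hLn1 : Near 1 (1 / 2) L := fun j hj y => (hLn0 j (hj.trans hr) y).trans (min_le_right _ _)
  have hL0 : L 0 = 0 := by
    have := hLB.self_of_nhds
    rw [this, map_zero]
  obtain ⟨hχd, hχs, hχoff⟩ := hEXT n M e₀ _ L he₀.1 (isCompact_closedBall 0 σ) hC hLm hLn1
  set χ : M → M := ext e₀ L with hχ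
  set f₁ : M → M := χ ∘ f with hf₁
  have hf₁U : f₁ ∈ U := hrob L hLm hLn
  have hf₁d : IsDiffeo n s f₁ := hcomp _ _ (hmono _ hχd) hf
  have hχμ : MeasurePreserving χ μ μ :=
    hVOLP n M μ e₀ _ L he₀ (isCompact_closedBall 0 σ) hC hLm hLn1 hLdet
  have hf₁μ : MeasurePreserving f₁ μ μ := hχμ.comp hfμ
  have hit : ∀ y ∈ closedBall (0 : E n) σ, ∀ i, i < m →
      f₁^[i] (e₀.symm y) = f^[i] (e₀.symm y) := by
    intro y hy i
    induction i with
    | zero => intro _; rfl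
    | succ i ih =>
      intro hi
      rw [Function.iterate_succ_apply', ih (by omega), hf₁, Function.comp_apply,
        ← Function.iterate_succ_apply' f i (e₀.symm y)]
      refine hχoff _ ?_
      rintro ⟨y', hy', h⟩
      exact hWi _ (hσW hy).2.1 _ (hσW hy').2.1 (i + 1) (Nat.succ_pos i) hi h.symm
  have hval : ∀ y ∈ closedBall (0 : E n) σ, f₁^[m] (e₀.symm y) =
      e₀.symm (L (MAIN_.rd e₀ f^[m] y)) ∧ f₁^[m] (e₀.symm y) ∈ e₀.source := by
    intro y hy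
    obtain ⟨k', hk'⟩ : ∃ k', m = k' + 1 := ⟨m - 1, by omega⟩
    have hz : f^[m] (e₀.symm y) ∈ e₀.source := (hσW hy).2.2
    obtain ⟨h1, h2⟩ := hχs _ hz
    have h3 : f₁^[m] (e₀.symm y) = χ (f^[m] (e₀.symm y)) := by
      rw [hk', Function.iterate_succ_apply', hit y hy k' (by omega), hf₁, Function.comp_apply,
        ← Function.iterate_succ_apply' f k' (e₀.symm y)]
    rw [h3]
    refine ⟨?_, h1⟩
    rw [← e₀.left_inv h1, h2]
    rfl
  have hrd0 : MAIN_.rd e₀ f^[m] 0 = 0 := by simp [MAIN_.rd, hs0, hfp, h0]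
  have hf₁k : f₁^[m] p = p := by
    have := (hval 0 (mem_closedBall_self hσ.le)).1
    rw [hs0, hrd0, hL0, hs0] at this
    exact this
  have hmin₁ : ∀ i, 0 < i → i < m → f₁^[i] p ≠ p := by
    intro i hi hik
    have := hit 0 (mem_closedBall_self hσ.le) i hik
    rw [hs0] at this
    rw [this]
    exact hmin i hi hik
  have hcF : Tendsto (MAIN_.rd e₀ f^[m]) (𝓝 0) (𝓝 0) := by
    have := hd0.continuousAt.tendsto
    rwa [hrd0] at this
  have hrdeq : MAIN_.rd e₀ f₁^[m] =ᶠ[𝓝 0] (L'' ∘L A') ∘ MAIN_.rd e₀ f^[m] := by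
    have h1 : ∀ᶠ y in 𝓝 (0 : E n), L (MAIN_.rd e₀ f^[m] y) ∈ e₀.target := by
      have hc1 : ContinuousAt (L ∘ MAIN_.rd e₀ f^[m]) 0 :=
        hLm.1.continuous.continuousAt.comp hd0.continuousAt
      refine hc1.preimage_mem_nhds (e₀.open_target.mem_nhds ?_)
      simp only [Function.comp_apply]
      rw [hrd0, hL0]
      exact h0t
    filter_upwards [closedBall_mem_nhds (0 : E n) hσ, h1, hcF.eventually hLB] with y hy hy2 hy3
    have h2 := (hval y hy).1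
    show e₀ (f₁^[m] (e₀.symm y)) = (L'' ∘L A') (MAIN_.rd e₀ f^[m] y)
    rw [h2, e₀.right_inv hy2, hy3]
  have hdF : ∀ᶠ y in 𝓝 (0 : E n), DifferentiableAt ℝ (MAIN_.rd e₀ f^[m]) y := by
    have h1 : ContDiffAt ℝ 1 (MAIN_.rd e₀ f^[m]) 0 := hd0.of_le (by exact_mod_cast hs1)
    filter_upwards [h1.eventually (by simp)] with y hy
    exact hy.differentiableAt (by simp)
  have hder : ∀ᶠ y in 𝓝 (0 : E n), fderiv ℝ (MAIN_.rd e₀ f₁^[m]) y =
      (L'' ∘L A') ∘L fderiv ℝ (MAIN_.rd e₀ f^[m]) y := by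
    filter_upwards [hrdeq.eventually_nhds, hdF] with y hy hy2
    have hy' : MAIN_.rd e₀ f₁^[m] =ᶠ[𝓝 y] (L'' ∘L A') ∘ MAIN_.rd e₀ f^[m] := hy
    rw [hy'.fderiv_eq, fderiv_comp y (L'' ∘L A').differentiableAt hy2,
      ContinuousLinearMap.fderiv]
  have hfder : fderiv ℝ (MAIN_.rd e₀ f₁^[m]) 0 = L'' := by
    rw [hder.self_of_nhds, ← hA, ContinuousLinearMap.comp_assoc, hA'A,
      ContinuousLinearMap.comp_id]
  have hSyT : Sy Ω (MAIN_.rd e₀ f₁^[m]) := by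
    unfold Sy
    filter_upwards [hder, hpres0] with y hy hy2
    rw [hy]
    exact MAIN6_.pres_comp hBp hy2
  have hT0 : MAIN_.rd e₀ f₁^[m] 0 = 0 := by simp [MAIN_.rd, hs0, hf₁k, h0]
  have hTr : ContDiffAt ℝ r (MAIN_.rd e₀ f₁^[m]) 0 := by
    have := hiter f₁ m e₀ e₀ p hf₁d he₀.1 he₀.1 hp₀ (by rw [hf₁k]; exact hp₀)
    rw [h0] at this
    exact this.of_le (by exact_mod_cast hrs)
  obtain ⟨I, b, hIs, hI0, hb, hIb, hIo⟩ := hSBK (E n) Ω L'' J r (MAIN_.rd e₀ f₁^[m]) hΩ hEll hr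
    hT0 hTr hfder hSyT
  refine hMAIN3 n M μ s r f₁ U m p e₀ I b hn hr hrs hμ hf₁d hf₁μ hU hf₁U hm hf₁k
    hmin₁ he₀.1 hp₀ (by rw [h0]; exact hIs) hb ?_ ?_
  · rw [h0, hI0]
    simpa using hIb
  · rw [h0]
    simp only [sub_zero]
    exact hIo

end Pool.Agent.Zex
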