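import Pool.Agent.Zex.Targets

/-!
# The normal form of a germ with elliptic derivative
-/

set_option autoImplicit false

open Set MeasureTheory Filter Topology Metric Asymptotics
open scoped Manifold ContDiff

namespace Pool.Agent.Zex

namespace NF_

variable {V : Type} [NormedAddCommGroup V] [NormedSpace ℝ V]

omit [NormedSpace ℝ V] in
lemma bigO_of {k : ℕ} {q : V → V} {C : ℝ} (hC : ∀ z, ‖q z‖ ≤ C * ‖z‖ ^ k) :
    q =O[𝓝 0] fun z => ‖z‖ ^ k :=
  IsBigO.of_bound C (Eventually.of_forall fun z => by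
    rw [norm_pow, norm_norm]
    exact hC z)

lemma fd_zero {k : ℕ} (hk : 2 ≤ k) {q : V → V} (h0 : q 0 = 0) {C : ℝ}
    (hC : ∀ z, ‖q z‖ ≤ C * ‖z‖ ^ k) : HasFDerivAt q (0 : V →L[ℝ] V) 0 := by
  rw [hasFDerivAt_iff_isLittleO_nhds_zero]
  have h1 : (fun z => q (0 + z) - q 0 - (0 : V →L[ℝ] V) z) = q := by
    funext z
    simp [h0]
  rw [h1]
  exact (bigO_of hC).trans_isLittleO (isLittleO_norm_pow_id (by omega))

/-- a strict derivative, along a small displacement -/
lemma strict {F : V → V} {L : V →L[ℝ] V} (hF : HasStrictFDerivAt F L 0) {y d : V → V}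
    {k : ℕ} (hy : Tendsto y (𝓝 0) (𝓝 0)) (hd0 : Tendsto d (𝓝 0) (𝓝 0))
    (hd : d =O[𝓝 0] fun z => ‖z‖ ^ k) :
    (fun z => F (y z + d z) - F (y z) - L (d z)) =o[𝓝 0] fun z => ‖z‖ ^ k := by
  have h1 : Tendsto (fun z => (y z + d z, y z)) (𝓝 (0 : V)) (𝓝 ((0 : V), (0 : V))) := by
    apply Tendsto.prodMk_nhds _ hy
    simpa using hy.add hd0
  have h2 := hF.isLittleO.comp_tendsto h1
  have h3 : (fun z => F (y z + d z) - F (y z) - L (d z)) =o[𝓝 0] d := by
    refine (h2.congr (fun z => ?_) (fun z => ?_))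
    · simp only [Function.comp_apply, add_sub_cancel_left]
    · simp only [Function.comp_apply, add_sub_cancel_left]
  exact h3.trans_isBigO hd

variable [FiniteDimensional ℝ V]

lemma hom_sub {q : V → V} {k : ℕ} (hq : ContDiff ℝ ∞ q)
    (hom : ∀ (t : ℝ) (z : V), q (t • z) = t ^ k • q z) {x : V → V} {L : V →L[ℝ] V}
    (hx : (fun z => x z - L z) =o[𝓝 0] fun z => z) :
    (fun z => q (x z) - q (L z)) =o[𝓝 0] fun z => ‖z‖ ^ k := by
  have hcont : Continuous (fderiv ℝ q) := hq.continuous_fderiv (by simp)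
  obtain ⟨K, hK⟩ := (isCompact_closedBall (0 : V) (‖L‖ + 1)).exists_bound_of_continuousOn
    hcont.continuousOn
  have hlip : ∀ a ∈ closedBall (0 : V) (‖L‖ + 1), ∀ b ∈ closedBall (0 : V) (‖L‖ + 1),
      ‖q b - q a‖ ≤ K * ‖b - a‖ := by
    intro a ha b hb
    exact (convex_closedBall (0 : V) (‖L‖ + 1)).norm_image_sub_le_of_norm_fderiv_le
      (fun y _ => (hq.differentiable (by simp)).differentiableAt) (fun y hy => hK y hy) ha hb
  have hK0 : 0 ≤ K := le_trans (norm_nonneg _) (hK 0 (by
    rw [mem_closedBall, dist_self]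
    positivity))
  rw [isLittleO_iff]
  intro c hc
  set ε : ℝ := min 1 (c / (K + 1)) with hε
  have hε0 : 0 < ε := lt_min one_pos (by positivity)
  have hε1 : ε ≤ 1 := min_le_left _ _
  have hεc : K * ε ≤ c := by
    have h1 : ε ≤ c / (K + 1) := min_le_right _ _
    rw [le_div_iff₀ (by linarith)] at h1
    nlinarith
  filter_upwards [(isLittleO_iff.mp hx) hε0] with z hz
  rw [norm_pow, norm_norm]
  by_cases hz0 : z = 0
  · rw [hz0, norm_zero, mul_zero, norm_le_zero_iff, sub_eq_zero] at hz
    rw [hz0, hz, sub_self, norm_zero]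
    positivity
  · have ht : 0 < ‖z‖ := norm_pos_iff.mpr hz0
    set t : ℝ := ‖z‖ with ht'
    have hL : ‖L z‖ ≤ ‖L‖ * t := L.le_opNorm z
    have e1 : q (x z) = t ^ k • q (t⁻¹ • x z) := by
      rw [← hom, smul_smul, mul_inv_cancel₀ ht.ne', one_smul]
    have e2 : q (L z) = t ^ k • q (t⁻¹ • L z) := by
      rw [← hom, smul_smul, mul_inv_cancel₀ ht.ne', one_smul]
    have hb2 : t⁻¹ • L z ∈ closedBall (0 : V) (‖L‖ + 1) := by
      rw [mem_closedBall, dist_zero_right, norm_smul, norm_inv, norm_norm, ← ht',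
        inv_mul_le_iff₀ ht]
      nlinarith
    have hb1 : t⁻¹ • x z ∈ closedBall (0 : V) (‖L‖ + 1) := by
      rw [mem_closedBall, dist_zero_right, norm_smul, norm_inv, norm_norm, ← ht',
        inv_mul_le_iff₀ ht]
      have h1 : ‖x z‖ ≤ ‖x z - L z‖ + ‖L z‖ := by
        have := norm_add_le (x z - L z) (L z)
        rwa [sub_add_cancel] at this
      nlinarith
    have h3 := hlip _ hb2 _ hb1
    rw [← smul_sub, norm_smul, norm_inv, norm_norm, ← ht'] at h3
    rw [e1, e2, ← smul_sub, norm_smul, norm_pow, norm_norm, ← ht']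
    have h4 : t⁻¹ * ‖x z - L z‖ ≤ ε := by
      rw [inv_mul_le_iff₀ ht]
      linarith
    have h5 : ‖q (t⁻¹ • x z) - q (t⁻¹ • L z)‖ ≤ c :=
      le_trans h3 (le_trans (mul_le_mul_of_nonneg_left h4 hK0) hεc)
    calc t ^ k * ‖q (t⁻¹ • x z) - q (t⁻¹ • L z)‖ ≤ t ^ k * c :=
          mul_le_mul_of_nonneg_left h5 (by positivity)
      _ = c * t ^ k := by ring

end NF_

open NF_ in
theorem p_NF (hHPF : T_HPF) (hTAY : T_TAY) (hCOH : T_COH) : T_NF := by
  intro V _ _ _ Ω L J r T hΩ hE hr hT0 hT hTL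
  have hr0 : ((r : ℕ∞) : WithTop ℕ∞) ≠ 0 := by
    have : (r : ℕ) ≠ 0 := by omega
    exact_mod_cast this
  have hTs : HasStrictFDerivAt T L 0 := by
    rw [← hTL]
    exact hT.hasStrictFDerivAt (by exact_mod_cast hr0)
  -- the induction
  have key : ∀ j : ℕ, j + 1 ≤ r → ∃ P N : V → V, ContDiff ℝ ∞ P ∧ ContDiff ℝ ∞ N ∧ P 0 = 0 ∧
      N 0 = 0 ∧ HasFDerivAt P (ContinuousLinearMap.id ℝ V) 0 ∧ HasFDerivAt N L 0 ∧
      (∀ (t : ℝ) (z : V), N (Rt J t z) = Rt J t (N z)) ∧
      (fun z => T (P z) - P (N z)) =o[𝓝 0] (fun z => ‖z‖ ^ (j + 1)) := by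
    intro j
    induction j with
    | zero =>
      intro _
      refine ⟨fun z => z, fun z => L z, contDiff_id, L.contDiff, rfl, map_zero L,
        hasFDerivAt_id 0, L.hasFDerivAt, ?_, ?_⟩
      · intro t z
        simp only [Rt, _root_.add_apply, _root_.smul_apply, ContinuousLinearMap.id_apply, map_add,
          map_smul, hE.comm]
      · have h1 := hTs.hasFDerivAt
        rw [hasFDerivAt_iff_isLittleO_nhds_zero] at h1
        have h2 : (fun z => T (0 + z) - T 0 - L z) = fun z => T z - L z := by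
          funext z
          rw [zero_add, hT0, sub_zero]
        rw [h2] at h1
        simp only [zero_add, pow_one]
        exact h1.norm_right
    | succ j ih =>
      intro hj
      obtain ⟨P, N, hP, hN, hP0, hN0, hPd, hNd, hNe, ho⟩ := ih (by omega)
      set k : ℕ := j + 1 + 1 with hk
      have hkr : k ≤ r := hj
      -- the leading term of the error
      have hu : ContDiffAt ℝ k (fun z => T (P z) - P (N z)) 0 := by
        have h1 : ContDiffAt ℝ k T (P 0) := by
          rw [hP0]
          exact hT.of_le (by exact_mod_cast hkr)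
        have h2 : ContDiffAt ℝ k P 0 := (hP.of_le (by exact_mod_cast le_top)).contDiffAt
        have h3 : ContDiffAt ℝ k (fun z => P (N z)) 0 :=
          ((hP.comp hN).of_le (by exact_mod_cast le_top)).contDiffAt
        exact (h1.comp (0 : V) h2).sub h3
      obtain ⟨e, he, heo⟩ := hTAY V k (fun z => T (P z) - P (N z)) (by omega) hu (by
        rw [hk, Nat.add_sub_cancel]
        exact ho)
      obtain ⟨q, hq, n, hn, hne, hneq⟩ := hCOH V Ω L J k e hΩ hE he
      obtain ⟨-, hqs, hqh, Cq, hCq⟩ := (hHPF V k).2 q hq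
      obtain ⟨-, hns, hnh, Cn, hCn⟩ := (hHPF V k).2 n hn
      have hk0 : k ≠ 0 := by omega
      have hq0 : q 0 = 0 := by
        have := hqh 0 0
        rwa [zero_smul, zero_pow hk0, zero_smul] at this
      have hn0 : n 0 = 0 := by
        have := hnh 0 0
        rwa [zero_smul, zero_pow hk0, zero_smul] at this
      have hqd : HasFDerivAt q (0 : V →L[ℝ] V) 0 := fd_zero (by omega) hq0 hCq
      have hnd : HasFDerivAt n (0 : V →L[ℝ] V) 0 := fd_zero (by omega) hn0 hCn
      have hqc : Tendsto q (𝓝 0) (𝓝 0) := by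
        have := hqs.continuous.tendsto 0
        rwa [hq0] at this
      have hnc : Tendsto n (𝓝 0) (𝓝 0) := by
        have := hns.continuous.tendsto 0
        rwa [hn0] at this
      have hPc : Tendsto P (𝓝 0) (𝓝 0) := by
        have := hP.continuous.tendsto 0
        rwa [hP0] at this
      have hNc : Tendsto N (𝓝 0) (𝓝 0) := by
        have := hN.continuous.tendsto 0
        rwa [hN0] at this
      refine ⟨fun z => P z + q z, fun z => N z + n z, hP.add hqs, hN.add hns, ?_, ?_, ?_, ?_, ?_,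
        ?_⟩
      · simp only [hP0, hq0, add_zero]
      · simp only [hN0, hn0, add_zero]
      · have := hPd.add hqd
        rwa [add_zero] at this
      · have := hNd.add hnd
        rwa [add_zero] at this
      · intro t z
        simp only [hNe, hneq, map_add]
      · have t2 := strict hTs hPc hqc (bigO_of hCq)
        have hPs : HasStrictFDerivAt P (ContinuousLinearMap.id ℝ V) 0 := by
          have h1 := hP.contDiffAt.hasStrictFDerivAt (x := (0 : V)) (by simp)
          rwa [hPd.fderiv] at h1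
        have t3 := strict hPs hNc hnc (bigO_of hCn)
        have hNn : (fun z => (N z + n z) - L z) =o[𝓝 0] fun z => z := by
          have h1 := hNd.add hnd
          rw [add_zero, hasFDerivAt_iff_isLittleO_nhds_zero] at h1
          refine h1.congr_left fun z => ?_
          simp [hN0, hn0]
        have t4 := hom_sub hqs hqh hNn
        have hsum := ((heo.add t2).sub t3).sub t4
        refine hsum.congr_left fun z => ?_
        simp only [ContinuousLinearMap.id_apply]
        have h1 := hne z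
        rw [h1]
        abel
  obtain ⟨P, N, hP, hN, hP0, hN0, hPd, -, hNe, ho⟩ := key (r - 1) (by omega)
  refine ⟨P, N, hP, hN, hP0, hN0, hPd.fderiv, hNe, ?_⟩
  have h1 : r - 1 + 1 = r := by omega
  rw [h1] at ho
  exact ho

end Pool.Agent.Zex
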