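import Pool.Agent.Zex.Targets

/-! # ZEX-PLA: splitting off a symplectic plane -/

set_option autoImplicit false

open Set MeasureTheory Filter Topology Metric Asymptotics
open scoped Manifold ContDiff

namespace Pool.Agent.Zex

namespace PLA_

variable {V : Type} [NormedAddCommGroup V] [NormedSpace ℝ V]

theorem anti {Ω : V →L[ℝ] V →L[ℝ] ℝ} (h : ∀ v, Ω v v = 0) (x y : V) : Ω x y = -Ω y x := by
  have h1 := h (x + y)
  simp only [map_add, add_apply, h, zero_add, add_zero] at h1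
  linarith

/-- first coordinate -/
noncomputable def al (Ω : V →L[ℝ] V →L[ℝ] ℝ) (v u : V) : V →L[ℝ] ℝ := (-(Ω v u)⁻¹) • Ω u

/-- second coordinate -/
noncomputable def be (Ω : V →L[ℝ] V →L[ℝ] ℝ) (v u : V) : V →L[ℝ] ℝ := ((Ω v u)⁻¹) • Ω v

/-- the orthogonal complement -/
noncomputable def ZZ (Ω : V →L[ℝ] V →L[ℝ] ℝ) (v u : V) : Submodule ℝ V :=
  LinearMap.ker (Ω v).toLinearMap ⊓ LinearMap.ker (Ω u).toLinearMap

theorem mem_ZZ {Ω : V →L[ℝ] V →L[ℝ] ℝ} {v u x : V} : x ∈ ZZ Ω v u ↔ Ω v x = 0 ∧ Ω u x = 0 := by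
  simp [ZZ, Submodule.mem_inf]

/-- projection to the plane -/
noncomputable def pw (Ω : V →L[ℝ] V →L[ℝ] ℝ) (v u : V) : V →L[ℝ] V :=
  (al Ω v u).smulRight v + (be Ω v u).smulRight u

section
variable {Ω : V →L[ℝ] V →L[ℝ] ℝ} {v u : V}

theorem pw_apply (x : V) : pw Ω v u x = al Ω v u x • v + be Ω v u x • u := rfl

theorem al_v (h : ∀ v, Ω v v = 0) (hb : Ω v u ≠ 0) : al Ω v u v = 1 := by
  simp only [al, smul_apply, smul_eq_mul]
  rw [anti h u v]
  field_simp

theorem al_u (h : ∀ v, Ω v v = 0) : al Ω v u u = 0 := by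
  simp only [al, smul_apply, smul_eq_mul, h, mul_zero]

theorem be_v (h : ∀ v, Ω v v = 0) : be Ω v u v = 0 := by
  simp only [be, smul_apply, smul_eq_mul, h, mul_zero]

theorem be_u (hb : Ω v u ≠ 0) : be Ω v u u = 1 := by
  simp only [be, smul_apply, smul_eq_mul]
  field_simp

theorem al_Z {x : V} (hx : x ∈ ZZ Ω v u) : al Ω v u x = 0 := by
  simp only [al, smul_apply, smul_eq_mul, (mem_ZZ.1 hx).2, mul_zero]

theorem be_Z {x : V} (hx : x ∈ ZZ Ω v u) : be Ω v u x = 0 := by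
  simp only [be, smul_apply, smul_eq_mul, (mem_ZZ.1 hx).1, mul_zero]

theorem sub_mem (h : ∀ v, Ω v v = 0) (hb : Ω v u ≠ 0) (x : V) : x - pw Ω v u x ∈ ZZ Ω v u := by
  have h1 : Ω u v = -Ω v u := anti h u v
  rw [mem_ZZ, pw_apply]
  simp only [map_sub, map_add, map_smul, smul_eq_mul, h, al, be, smul_apply, h1]
  constructor
  · field_simp
    ring
  · field_simp
    ring

/-- projection to `Z` -/
noncomputable def pz (h : ∀ v, Ω v v = 0) (hb : Ω v u ≠ 0) : V →L[ℝ] ZZ Ω v u :=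
  (ContinuousLinearMap.id ℝ V - pw Ω v u).codRestrict (ZZ Ω v u) (sub_mem h hb)

theorem pz_coe (h : ∀ v, Ω v v = 0) (hb : Ω v u ≠ 0) (x : V) :
    (pz h hb x : V) = x - pw Ω v u x := rfl

theorem decomp (h : ∀ v, Ω v v = 0) (hb : Ω v u ≠ 0) (x : V) :
    x = al Ω v u x • v + be Ω v u x • u + (pz h hb x : V) := by
  rw [pz_coe, pw_apply]
  abel

theorem pz_Z (h : ∀ v, Ω v v = 0) (hb : Ω v u ≠ 0) (z : ZZ Ω v u) : pz h hb (z : V) = z := by
  apply Subtype.ext
  rw [pz_coe, pw_apply, al_Z z.2, be_Z z.2]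
  simp

theorem pz_v (h : ∀ v, Ω v v = 0) (hb : Ω v u ≠ 0) : pz h hb v = 0 := by
  apply Subtype.ext
  rw [pz_coe, pw_apply, al_v h hb, be_v h]
  simp

theorem pz_u (h : ∀ v, Ω v v = 0) (hb : Ω v u ≠ 0) : pz h hb u = 0 := by
  apply Subtype.ext
  rw [pz_coe, pw_apply, al_u h, be_u hb]
  simp

/-- block map -/
noncomputable def Mb (h : ∀ v, Ω v v = 0) (hb : Ω v u ≠ 0) (p q r t : ℝ)
    (T : ZZ Ω v u →L[ℝ] ZZ Ω v u) : V →L[ℝ] V :=
  (p • al Ω v u + q • be Ω v u).smulRight v + (r • al Ω v u + t • be Ω v u).smulRight u +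
    (ZZ Ω v u).subtypeL.comp (T.comp (pz h hb))

theorem Mb_apply (h : ∀ v, Ω v v = 0) (hb : Ω v u ≠ 0) (p q r t : ℝ)
    (T : ZZ Ω v u →L[ℝ] ZZ Ω v u) (x : V) : Mb h hb p q r t T x =
    (p * al Ω v u x + q * be Ω v u x) • v + (r * al Ω v u x + t * be Ω v u x) • u +
      (T (pz h hb x) : V) := rfl

theorem al_Mb (h : ∀ v, Ω v v = 0) (hb : Ω v u ≠ 0) (p q r t : ℝ)
    (T : ZZ Ω v u →L[ℝ] ZZ Ω v u) (x : V) :
    al Ω v u (Mb h hb p q r t T x) = p * al Ω v u x + q * be Ω v u x := by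
  rw [Mb_apply, map_add, map_add, map_smul, map_smul, al_v h hb, al_u h,
    al_Z (T (pz h hb x)).2]
  simp

theorem be_Mb (h : ∀ v, Ω v v = 0) (hb : Ω v u ≠ 0) (p q r t : ℝ)
    (T : ZZ Ω v u →L[ℝ] ZZ Ω v u) (x : V) :
    be Ω v u (Mb h hb p q r t T x) = r * al Ω v u x + t * be Ω v u x := by
  rw [Mb_apply, map_add, map_add, map_smul, map_smul, be_v h, be_u hb,
    be_Z (T (pz h hb x)).2]
  simp

theorem pz_Mb (h : ∀ v, Ω v v = 0) (hb : Ω v u ≠ 0) (p q r t : ℝ)
    (T : ZZ Ω v u →L[ℝ] ZZ Ω v u) (x : V) :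
    pz h hb (Mb h hb p q r t T x) = T (pz h hb x) := by
  rw [Mb_apply, map_add, map_add, map_smul, map_smul, pz_v, pz_u, pz_Z]
  simp

theorem form (h : ∀ v, Ω v v = 0) (hb : Ω v u ≠ 0) (x y : V) :
    Ω x y = Ω v u * (al Ω v u x * be Ω v u y - be Ω v u x * al Ω v u y) +
      Ω (pz h hb x : V) (pz h hb y : V) := by
  have hx := decomp h hb x
  have hy := decomp h hb y
  have h1 := mem_ZZ.1 (pz h hb x).2
  have h2 := mem_ZZ.1 (pz h hb y).2
  have h3 : Ω (pz h hb x : V) v = 0 := by rw [anti h, h1.1, neg_zero]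
  have h4 : Ω (pz h hb x : V) u = 0 := by rw [anti h, h1.2, neg_zero]
  have h5 : Ω u v = -Ω v u := anti h u v
  conv_lhs => rw [hx, hy]
  simp only [map_add, map_smul, add_apply, smul_apply,
    smul_eq_mul, h, h2.1, h2.2, h3, h4, h5]
  ring

theorem ext3 (h : ∀ v, Ω v v = 0) (hb : Ω v u ≠ 0) {x y : V} (h1 : al Ω v u x = al Ω v u y)
    (h2 : be Ω v u x = be Ω v u y) (h3 : pz h hb x = pz h hb y) : x = y := by
  rw [decomp h hb x, decomp h hb y, h1, h2, h3]

end

section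
variable {Ω : V →L[ℝ] V →L[ℝ] ℝ} {v u : V}

theorem rs_apply (Z : Submodule ℝ V) (x y : Z) : rs Ω Z x y = Ω (x : V) (y : V) := rfl

theorem pres_Mb (h : ∀ v, Ω v v = 0) (hb : Ω v u ≠ 0) {p q r t : ℝ}
    {T : ZZ Ω v u →L[ℝ] ZZ Ω v u} (hdet : p * t - q * r = 1) (hT : Pres (rs Ω (ZZ Ω v u)) T) :
    Pres Ω (Mb h hb p q r t T) := by
  intro x y
  rw [form h hb (Mb h hb p q r t T x), form h hb x y, al_Mb, be_Mb, al_Mb, be_Mb, pz_Mb, pz_Mb]
  have h1 := hT (pz h hb x) (pz h hb y)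
  rw [rs_apply, rs_apply] at h1
  rw [h1]
  linear_combination (Ω v u * (al Ω v u x * be Ω v u y - be Ω v u x * al Ω v u y)) * hdet

theorem Mb_comp (h : ∀ v, Ω v v = 0) (hb : Ω v u ≠ 0) {p q r t p' q' r' t' : ℝ}
    {T T' : ZZ Ω v u →L[ℝ] ZZ Ω v u} (x : V) :
    Mb h hb p q r t T (Mb h hb p' q' r' t' T' x) =
      Mb h hb (p * p' + q * r') (p * q' + q * t') (r * p' + t * r') (r * q' + t * t')
        (T.comp T') x := by
  apply ext3 h hb
  · rw [al_Mb, al_Mb, al_Mb, be_Mb]; ring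
  · rw [be_Mb, be_Mb, al_Mb, be_Mb]; ring
  · rw [pz_Mb, pz_Mb, pz_Mb]; rfl

end

end PLA_

open PLA_ in
theorem p_PLA : T_PLA := by
  intro V _ _ _ Ω L v c hΩ hL hsub hv hc hLL hc1 hne
  have h := hΩ.alt
  have hc2 : |c| < 1 := by
    rcases lt_or_eq_of_le hc with h1 | h1
    · exact h1
    · exfalso
      apply hne
      rw [hc1 h1, map_smul, h, smul_zero]
  have hc3 : 0 < 1 - c ^ 2 := by
    have := (sq_lt_one_iff_abs_lt_one c).2 hc2
    linarith
  obtain ⟨s, hs0, hs⟩ : ∃ s : ℝ, 0 < s ∧ s ^ 2 = 1 - c ^ 2 :=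
    ⟨Real.sqrt (1 - c ^ 2), Real.sqrt_pos.2 hc3, Real.sq_sqrt hc3.le⟩
  have hs1 : s ≠ 0 := hs0.ne'
  obtain ⟨u, hu⟩ : ∃ u : V, u = s⁻¹ • (L v - c • v) := ⟨_, rfl⟩
  have hLv : L v = c • v + s • u := by
    rw [hu, smul_smul, mul_inv_cancel₀ hs1, one_smul]
    abel
  have hLu : L u = (-s) • v + c • u := by
    have h1 : L u = s⁻¹ • (c • (c • v + s • u) - v) := by
      have h2 : L u = s⁻¹ • (L (L v) - c • L v) := by
        rw [hu, map_smul, map_sub, map_smul]
      rw [h2, hLL, hLv]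
      congr 1
      module
    rw [h1]
    have h2 : s⁻¹ • (c • (c • v + s • u) - v) = (s⁻¹ * (c ^ 2 - 1)) • v + (s⁻¹ * s * c) • u := by
      module
    rw [h2, show c ^ 2 - 1 = -(s * s) by linarith, inv_mul_cancel₀ hs1]
    congr 2
    · field_simp
    · ring
  have hb : Ω v u ≠ 0 := by
    intro h0
    apply hne
    rw [hLv, map_add, map_smul, map_smul, h, h0]
    simp
  set Z := ZZ Ω v u with hZ
  have hLv' : L (c • v - s • u) = v := by
    rw [map_sub, map_smul, map_smul, hLv, hLu]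
    have : c • (c • v + s • u) - s • ((-s) • v + c • u) = (c ^ 2 + s ^ 2) • v := by module
    rw [this, hs]
    simp
  have hLu' : L (s • v + c • u) = u := by
    rw [map_add, map_smul, map_smul, hLv, hLu]
    have : s • (c • v + s • u) + c • ((-s) • v + c • u) = (c ^ 2 + s ^ 2) • u := by module
    rw [this, hs]
    simp
  have hLZ : ∀ z : Z, L.comp Z.subtypeL z ∈ Z := by
    intro z
    have hz := mem_ZZ.1 z.2
    rw [mem_ZZ]
    change Ω v (L z) = 0 ∧ Ω u (L z) = 0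
    constructor
    · conv_lhs => rw [← hLv']
      rw [hL, map_sub, map_smul, map_smul]
      simp [hz.1, hz.2]
    · conv_lhs => rw [← hLu']
      rw [hL, map_add, map_smul, map_smul]
      simp [hz.1, hz.2]
  obtain ⟨LZ, hLZc⟩ : ∃ LZ : Z →L[ℝ] Z, ∀ z : Z, (LZ z : V) = L z :=
    ⟨(L.comp Z.subtypeL).codRestrict Z hLZ, fun z => rfl⟩
  have hLM : L = Mb h hb c (-s) s c LZ := by
    ext x
    conv_lhs => rw [decomp h hb x]
    rw [Mb_apply, map_add, map_add, map_smul, map_smul, hLv, hLu, hLZc]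
    module
  have hpow : ∀ (n : ℕ) (z : Z), ((LZ ^ n) z : V) = (L ^ n) z := by
    intro n
    induction n with
    | zero => intro z; simp
    | succ n ih =>
      intro z
      rw [pow_succ, pow_succ, mul_apply_eq_comp, mul_apply_eq_comp, ih,
        hLZc]
  refine ⟨Z, LZ, ?_, ⟨fun z => h z, ?_⟩, ?_, ?_, ?_⟩
  · apply Submodule.finrank_lt
    rw [Ne, Submodule.eq_top_iff']
    intro htop
    have h1 := mem_ZZ.1 (htop v)
    apply hb
    rw [anti h, h1.2, neg_zero]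
  · intro z hz
    apply Subtype.ext
    apply hΩ.nd
    intro x
    rw [form h hb]
    have h1 := hz (pz h hb x)
    rw [rs_apply] at h1
    rw [pz_Z, h1, al_Z z.2, be_Z z.2]
    ring
  · intro x y
    rw [rs_apply, rs_apply, hLZc, hLZc, hL]
  · intro C hC
    obtain ⟨D, hD⟩ := hsub C hC
    refine ⟨D, fun n => le_trans ?_ (hD n)⟩
    apply ContinuousLinearMap.opNorm_le_bound _ (norm_nonneg _)
    intro z
    have := (L ^ n).le_opNorm (z : V)
    rw [← hpow] at this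
    exact this
  · intro hgood ε hε
    have hC : 0 < ‖pz h hb‖ + 1 := by positivity
    obtain ⟨L', J, h1, h2, h3, h4⟩ := hgood (ε / (‖pz h hb‖ + 1)) (by positivity)
    obtain ⟨σ, hσ, hσ2⟩ : ∃ σ : ℝ, 0 < σ * Ω v u ∧ σ * σ = 1 := by
      rcases lt_or_gt_of_ne hb with h0 | h0
      · exact ⟨-1, by linarith, by norm_num⟩
      · exact ⟨1, by linarith, by norm_num⟩
    refine ⟨Mb h hb c (-s) s c L', Mb h hb 0 (-σ) σ 0 J, ?_, ?_, ⟨?_, ?_, ?_⟩, ?_⟩
    · have h5 : Mb h hb c (-s) s c L' - L = Z.subtypeL.comp ((L' - LZ).comp (pz h hb)) := by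
        rw [hLM]
        ext x
        rw [sub_apply, Mb_apply, Mb_apply]
        simp
      rw [h5]
      calc ‖Z.subtypeL.comp ((L' - LZ).comp (pz h hb))‖
          ≤ ‖Z.subtypeL‖ * (‖L' - LZ‖ * ‖pz h hb‖) :=
            (ContinuousLinearMap.opNorm_comp_le _ _).trans
              (mul_le_mul_of_nonneg_left (ContinuousLinearMap.opNorm_comp_le _ _) (norm_nonneg _))
        _ ≤ 1 * (‖L' - LZ‖ * ‖pz h hb‖) :=
            mul_le_mul_of_nonneg_right (Submodule.norm_subtypeL_le Z) (by positivity)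
        _ ≤ (ε / (‖pz h hb‖ + 1)) * ‖pz h hb‖ := by
            rw [one_mul]
            exact mul_le_mul_of_nonneg_right h1.le (norm_nonneg (pz h hb))
        _ < ε := by
            rw [div_mul_eq_mul_div, div_lt_iff₀ hC]
            nlinarith [norm_nonneg (pz h hb)]
    · apply pres_Mb
      · linear_combination hs
      · exact h2
    · intro x
      rw [Mb_comp]
      apply ext3 h hb
      · rw [al_Mb, map_neg]
        linear_combination (-al Ω v u x) * hσ2
      · rw [be_Mb, map_neg]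
        linear_combination (-be Ω v u x) * hσ2
      · rw [pz_Mb, map_neg]
        exact h3.sq _
    · apply pres_Mb
      · linear_combination hσ2
      · exact h3.pres
    · intro x hx
      rw [form h hb x, al_Mb, be_Mb, pz_Mb]
      by_cases hz : pz h hb x = 0
      · rw [hz]
        have h6 : al Ω v u x ≠ 0 ∨ be Ω v u x ≠ 0 := by
          by_contra hcon
          push Not at hcon
          apply hx
          rw [decomp h hb x, hcon.1, hcon.2, hz]
          simp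
        have h7 : 0 < al Ω v u x ^ 2 + be Ω v u x ^ 2 := by
          rcases h6 with h6 | h6
          · have := pow_pos (abs_pos.2 h6) 2
            rw [sq_abs] at this
            nlinarith [sq_nonneg (be Ω v u x)]
          · have := pow_pos (abs_pos.2 h6) 2
            rw [sq_abs] at this
            nlinarith [sq_nonneg (al Ω v u x)]
        have h8 := mul_pos hσ h7
        simp only [ZeroMemClass.coe_zero, map_zero, add_zero]
        linarith
      · have h7 : 0 ≤ al Ω v u x ^ 2 + be Ω v u x ^ 2 := by positivity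
        have h8 := mul_nonneg hσ.le h7
        have h9 := h3.pos (pz h hb x) hz
        rw [rs_apply] at h9
        linarith
    · intro x
      rw [Mb_comp, Mb_comp]
      apply ext3 h hb
      · rw [al_Mb, al_Mb]
        ring
      · rw [be_Mb, be_Mb]
        ring
      · rw [pz_Mb, pz_Mb]
        exact h4 _

end Pool.Agent.Zex
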