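import Pool.Agent.Zex.Targets

set_option autoImplicit false

open Set MeasureTheory Filter Topology Metric Asymptotics
open scoped Manifold ContDiff

namespace Pool.Agent.Zex

namespace SBK_

/-- the local inverse of a smooth map whose derivative at `0` is the identity -/
lemma inv {V : Type} [NormedAddCommGroup V] [NormedSpace ℝ V] [FiniteDimensional ℝ V]
    (P : V → V) (hP : ContDiff ℝ ∞ P) (hP0 : P 0 = 0)
    (hP1 : fderiv ℝ P 0 = ContinuousLinearMap.id ℝ V) :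
    ∃ Q : V → V, ContDiffAt ℝ ∞ Q 0 ∧ Q 0 = 0 ∧ (∀ᶠ y in 𝓝 (0 : V), P (Q y) = y) ∧
      ∀ᶠ z in 𝓝 (0 : V), Q (P z) = z := by
  have : CompleteSpace V := FiniteDimensional.complete ℝ V
  have hd : HasFDerivAt P ((ContinuousLinearEquiv.refl ℝ V : V ≃L[ℝ] V) : V →L[ℝ] V) 0 := by
    have h1 : DifferentiableAt ℝ P 0 := (hP.differentiable (by simp)).differentiableAt
    have h2 := h1.hasFDerivAt
    rw [hP1] at h2
    exact h2
  have hc : ContDiffAt ℝ ∞ P 0 := hP.contDiffAt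
  have hn : (∞ : WithTop ℕ∞) ≠ 0 := by simp
  refine ⟨hc.localInverse hd hn, ?_, ?_, ?_, ?_⟩
  · have h1 := hc.to_localInverse hd hn
    rw [hP0] at h1
    exact h1
  · have h1 := hc.localInverse_apply_image hd hn
    rw [hP0] at h1
    exact h1
  · have h1 := (hc.hasStrictFDerivAt' hd hn).eventually_right_inverse
    rw [hP0] at h1
    exact h1
  · exact (hc.hasStrictFDerivAt' hd hn).eventually_left_inverse

/-- the mean value inequality at a critical point -/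
lemma mvt {V : Type} [NormedAddCommGroup V] [NormedSpace ℝ V] [FiniteDimensional ℝ V]
    (f : V → ℝ) (hf : ContDiff ℝ ∞ f) (h0 : fderiv ℝ f 0 = 0) :
    ∃ C : ℝ, 0 ≤ C ∧ ∀ᶠ p : V × V in 𝓝 (0, 0),
      ‖f p.1 - f p.2‖ ≤ C * (‖p.1‖ + ‖p.2‖) * ‖p.1 - p.2‖ := by
  have h1 : DifferentiableAt ℝ (fderiv ℝ f) 0 := by
    have h2 : ContDiff ℝ ∞ (fderiv ℝ f) := hf.fderiv_right (by simp)
    exact (h2.differentiable (by simp)).differentiableAt
  have h2 := h1.isBigO_sub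
  rw [h0] at h2
  simp only [sub_zero] at h2
  obtain ⟨C, hC, h3⟩ := h2.exists_pos
  rw [IsBigOWith] at h3
  obtain ⟨ρ, hρ, h4⟩ := Metric.eventually_nhds_iff_ball.mp h3
  refine ⟨C, hC.le, ?_⟩
  have h5 : ∀ᶠ p : V × V in 𝓝 (0, 0), p ∈ ball (0 : V) ρ ×ˢ ball (0 : V) ρ :=
    prod_mem_nhds (ball_mem_nhds _ hρ) (ball_mem_nhds _ hρ)
  filter_upwards [h5] with p hp
  obtain ⟨hp1, hp2⟩ := hp
  rw [mem_ball_zero_iff] at hp1 hp2
  have hdf : Differentiable ℝ f := hf.differentiable (by simp)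
  have h6 : ‖f p.1 - f p.2‖ ≤ C * (max ‖p.1‖ ‖p.2‖) * ‖p.1 - p.2‖ := by
    refine Convex.norm_image_sub_le_of_norm_fderiv_le (𝕜 := ℝ)
      (s := closedBall (0 : V) (max ‖p.1‖ ‖p.2‖)) (fun x _ => hdf x) ?_
      (convex_closedBall _ _) ?_ ?_
    · intro x hx
      rw [mem_closedBall_zero_iff] at hx
      have h7 : x ∈ ball (0 : V) ρ := by
        rw [mem_ball_zero_iff]
        exact lt_of_le_of_lt hx (max_lt hp1 hp2)
      exact (h4 x h7).trans (mul_le_mul_of_nonneg_left hx hC.le)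
    · rw [mem_closedBall_zero_iff]
      exact le_max_right _ _
    · rw [mem_closedBall_zero_iff]
      exact le_max_left _ _
  refine h6.trans ?_
  apply mul_le_mul_of_nonneg_right _ (norm_nonneg _)
  apply mul_le_mul_of_nonneg_left _ hC.le
  exact max_le_add_of_nonneg (norm_nonneg _) (norm_nonneg _)

end SBK_

theorem p_SBK (h1 : T_NF) (h2 : T_ACT) (h3 : T_ANV) : T_SBK := by
  intro V _ _ _ Ω L J r T hΩ hell hr hT0 hT hTL hTS
  obtain ⟨P, N, hP, hN, hP0, hN0, hP1, hNR, hTP⟩ := h1 V Ω L J r T hΩ hell hr hT0 hT hTL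
  obtain ⟨ha, ha0, ha1, b, hb, hab⟩ := h2 V Ω J P hell.cs hP hP0 hP1
  have hinv := h3 V Ω L J r T P N hΩ hell hr hT0 hT hTS hP hN hP0 hN0 hP1 hNR hTP
  obtain ⟨Q, hQ, hQ0, hPQ, hQP⟩ := SBK_.inv P hP hP0 hP1
  obtain ⟨C, hC, hmv⟩ := SBK_.mvt (act Ω J P) ha ha1
  -- continuity at `0`
  have hQd : DifferentiableAt ℝ Q 0 := hQ.differentiableAt (by simp)
  have hPd : DifferentiableAt ℝ P 0 := (hP.differentiable (by simp)).differentiableAt
  have hNd : DifferentiableAt ℝ N 0 := (hN.differentiable (by simp)).differentiableAt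
  have hTd : DifferentiableAt ℝ T 0 := hT.differentiableAt (by
    have : r ≠ 0 := by omega
    exact_mod_cast this)
  have hQt : Tendsto Q (𝓝 0) (𝓝 0) := by
    have := hQd.continuousAt.tendsto
    rwa [hQ0] at this
  have hPt : Tendsto P (𝓝 0) (𝓝 0) := by
    have := hPd.continuousAt.tendsto
    rwa [hP0] at this
  have hNt : Tendsto N (𝓝 0) (𝓝 0) := by
    have := hNd.continuousAt.tendsto
    rwa [hN0] at this
  have hTt : Tendsto T (𝓝 0) (𝓝 0) := by
    have := hTd.continuousAt.tendsto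
    rwa [hT0] at this
  have bigO : ∀ f : V → V, DifferentiableAt ℝ f 0 → f 0 = 0 → f =O[𝓝 0] (fun z : V => z) := by
    intro f hf hf0
    have h4 := hf.isBigO_sub
    simpa [hf0] using h4
  have hQO := bigO Q hQd hQ0
  have hPO := bigO P hPd hP0
  have hNO := bigO N hNd hN0
  have hTO := bigO T hTd hT0
  -- the map `w z = Q (T (P z))`
  have hTPt : Tendsto (fun z => T (P z)) (𝓝 0) (𝓝 0) := hTt.comp hPt
  have hPNt : Tendsto (fun z => P (N z)) (𝓝 0) (𝓝 0) := hPt.comp hNt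
  have hwt : Tendsto (fun z => Q (T (P z))) (𝓝 0) (𝓝 0) := hQt.comp hTPt
  have hwO : (fun z => Q (T (P z))) =O[𝓝 0] (fun z : V => z) :=
    (hQO.comp_tendsto hTPt).trans ((hTO.comp_tendsto hPt).trans hPO)
  have hstr : HasStrictFDerivAt Q (fderiv ℝ Q 0) 0 := hQ.hasStrictFDerivAt (by simp)
  have hdiff : (fun z => Q (T (P z)) - N z) =o[𝓝 0] (fun z : V => ‖z‖ ^ r) := by
    have h4 : (fun z => Q (T (P z)) - Q (P (N z))) =O[𝓝 0] (fun z => T (P z) - P (N z)) := by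
      have h5 := hstr.isBigO_sub
      have h6 : Tendsto (fun z => (T (P z), P (N z))) (𝓝 0) (𝓝 ((0 : V), (0 : V))) := by
        rw [nhds_prod_eq]
        exact hTPt.prodMk hPNt
      exact h5.comp_tendsto h6
    have h5 := h4.trans_isLittleO hTP
    have h6 : ∀ᶠ z in 𝓝 (0 : V), Q (P (N z)) = N z := hNt.eventually hQP
    refine h5.congr' ?_ EventuallyEq.rfl
    filter_upwards [h6] with z hz
    rw [hz]
  have hact : (fun z => act Ω J P (Q (T (P z))) - act Ω J P (N z)) =o[𝓝 0]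
      (fun z : V => ‖z‖ ^ (r + 1)) := by
    have h4 : (fun z => act Ω J P (Q (T (P z))) - act Ω J P (N z)) =O[𝓝 0]
        (fun z => (‖Q (T (P z))‖ + ‖N z‖) * ‖Q (T (P z)) - N z‖) := by
      have h6 : Tendsto (fun z => (Q (T (P z)), N z)) (𝓝 0) (𝓝 ((0 : V), (0 : V))) := by
        rw [nhds_prod_eq]
        exact hwt.prodMk hNt
      refine IsBigO.of_bound C ?_
      filter_upwards [h6.eventually hmv] with z hz
      have e : ‖(‖Q (T (P z))‖ + ‖N z‖) * ‖Q (T (P z)) - N z‖‖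
          = (‖Q (T (P z))‖ + ‖N z‖) * ‖Q (T (P z)) - N z‖ := by
        rw [Real.norm_of_nonneg (by positivity)]
      rw [e, ← mul_assoc]
      exact hz
    have h5 : (fun z => ‖Q (T (P z))‖ + ‖N z‖) =O[𝓝 0] (fun z : V => ‖z‖) :=
      (hwO.norm_norm).add (hNO.norm_norm)
    have h6 : (fun z => (‖Q (T (P z))‖ + ‖N z‖) * ‖Q (T (P z)) - N z‖) =o[𝓝 0]
        (fun z : V => ‖z‖ * ‖z‖ ^ r) := h5.mul_isLittleO hdiff.norm_left
    have h7 := h4.trans_isLittleO h6
    refine h7.congr_right fun z => ?_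
    rw [pow_succ, mul_comm]
  have hF : (fun z => act Ω J P (Q (T (P z))) - act Ω J P z) =o[𝓝 0]
      (fun z : V => ‖z‖ ^ (r + 1)) := by
    refine (hact.add hinv).congr_left fun z => ?_
    ring
  refine ⟨fun y => act Ω J P (Q y), b / 4, ?_, ?_, by positivity, ?_, ?_⟩
  · have h4 : ContDiffAt ℝ ∞ (act Ω J P) (Q 0) := ha.contDiffAt
    exact h4.comp 0 hQ
  · show act Ω J P (Q 0) = 0
    rw [hQ0, ha0]
  · have h4 : ∀ᶠ z in 𝓝 (0 : V), ‖P z‖ ≤ 2 * ‖z‖ := by
      have h5 := hPd.hasFDerivAt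
      rw [hP1] at h5
      have h6 := h5.isLittleO
      rw [isLittleO_iff] at h6
      filter_upwards [h6 (c := 1) one_pos] with z hz
      simp only [hP0, sub_zero, ContinuousLinearMap.id_apply, one_mul] at hz
      calc ‖P z‖ = ‖(P z - z) + z‖ := by rw [sub_add_cancel]
        _ ≤ ‖P z - z‖ + ‖z‖ := norm_add_le _ _
        _ ≤ 2 * ‖z‖ := by linarith
    filter_upwards [hQt.eventually h4, hQt.eventually hab, hPQ] with y hy1 hy2 hy3
    rw [hy3] at hy1
    have h5 : ‖y‖ ^ 2 ≤ (2 * ‖Q y‖) ^ 2 := pow_le_pow_left₀ (norm_nonneg _) hy1 2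
    show b / 4 * ‖y‖ ^ 2 ≤ act Ω J P (Q y)
    nlinarith
  · have h4 := hF.comp_tendsto hQt
    have h5 : ((fun z : V => ‖z‖ ^ (r + 1)) ∘ Q) =O[𝓝 0] (fun y : V => ‖y‖ ^ (r + 1)) :=
      (hQO.norm_norm).pow (r + 1)
    have h6 := h4.trans_isBigO h5
    refine h6.congr' ?_ EventuallyEq.rfl
    filter_upwards [hPQ] with y hy
    show act Ω J P (Q (T (P (Q y)))) - act Ω J P (Q y) = _
    rw [hy]

end Pool.Agent.Zex
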