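import Pool.Agent.Zex.Targets

/-!
# Normal form of a symplectic map along an invariant isotropic subspace
-/

set_option autoImplicit false

open Set MeasureTheory Filter Topology Metric Asymptotics
open scoped Manifold ContDiff

namespace Pool.Agent.Zex

namespace SPL_

lemma rep {U X : Type} [AddCommGroup U] [Module ℝ U] [FiniteDimensional ℝ U] [AddCommGroup X]
    [Module ℝ X] (β : U →ₗ[ℝ] U →ₗ[ℝ] ℝ) (hβ : ∀ y, (∀ x, β x y = 0) → y = 0)
    (η : X →ₗ[ℝ] U →ₗ[ℝ] ℝ) : ∃ ζ : X →ₗ[ℝ] U, ∀ b x, β x (ζ b) = η b x := by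
  have hinj : Function.Injective β.flip := by
    rw [← LinearMap.ker_eq_bot, LinearMap.ker_eq_bot']
    intro y hy
    apply hβ
    intro x
    have h := LinearMap.congr_fun hy x
    simpa using h
  have hfr : Module.finrank ℝ U = Module.finrank ℝ (U →ₗ[ℝ] ℝ) :=
    (Subspace.dual_finrank_eq (K := ℝ) (V := U)).symm
  let e := LinearMap.linearEquivOfInjective β.flip hinj hfr
  refine ⟨e.symm.toLinearMap ∘ₗ η, fun b x => ?_⟩
  have h1 : e (e.symm (η b)) = η b := e.apply_symm_apply _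
  have h2 : e (e.symm (η b)) = β.flip (e.symm (η b)) :=
    LinearMap.linearEquivOfInjective_apply hinj hfr _
  have h3 : β.flip (e.symm (η b)) x = η b x := by
    rw [← h2, h1]
  simpa using h3

variable {V : Type} [NormedAddCommGroup V] [NormedSpace ℝ V]

/-- the form as a bilinear form -/
noncomputable def BF (Ω : V →L[ℝ] V →L[ℝ] ℝ) : LinearMap.BilinForm ℝ V :=
  LinearMap.mk₂ ℝ (fun x y => Ω x y) (by simp) (by simp) (by simp) (by simp)

lemma BF_apply (Ω : V →L[ℝ] V →L[ℝ] ℝ) (x y : V) : BF Ω x y = Ω x y := rfl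

lemma skew {Ω : V →L[ℝ] V →L[ℝ] ℝ} (h : ∀ v, Ω v v = 0) (x y : V) : Ω x y = -Ω y x := by
  have h1 := h (x + y)
  simp only [map_add, _root_.add_apply, h x, h y] at h1
  linarith

lemma exists_inner (W : Type) [NormedAddCommGroup W] [NormedSpace ℝ W] [FiniteDimensional ℝ W] :
    ∃ q : W →L[ℝ] W →L[ℝ] ℝ, (∀ a b, q a b = q b a) ∧ ∀ a, a ≠ 0 → 0 < q a a := by
  refine ⟨(innerSL ℝ).bilinearComp (toEuclidean : W ≃L[ℝ] _).toContinuousLinearMap
    (toEuclidean : W ≃L[ℝ] _).toContinuousLinearMap, ?_, ?_⟩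
  · intro a b
    simp only [ContinuousLinearMap.bilinearComp_apply, innerSL_apply_apply]
    exact real_inner_comm _ _
  · intro a ha
    simp only [ContinuousLinearMap.bilinearComp_apply, innerSL_apply_apply]
    apply real_inner_self_pos.mpr
    intro h
    apply ha
    have h1 : (toEuclidean : W ≃L[ℝ] _) a = 0 := h
    exact (map_eq_zero_iff _ (toEuclidean : W ≃L[ℝ] _).injective).mp h1

variable [FiniteDimensional ℝ V]

lemma core {Ω : V →L[ℝ] V →L[ℝ] ℝ} (hΩ : Sf Ω) {L : V →L[ℝ] V} (hL : Pres Ω L) (hsub : SubExp L)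
    (W : Submodule ℝ V) (hW : W ≠ ⊥) (hiso : ∀ a b : W, Ω a b = 0) (q : W →L[ℝ] W →L[ℝ] ℝ)
    (A : W →L[ℝ] W) (hA : ∀ a : W, L a = A a) (hqs : ∀ a b, q a b = q b a)
    (hqp : ∀ a, a ≠ 0 → 0 < q a a) (hqA : ∀ a b, q (A a) (A b) = q a b) :
    ∃ (Z : Submodule ℝ V) (LZ : Z →L[ℝ] Z) (Φ : (W × Z × W) ≃L[ℝ] V), Blk Ω L W Z q A LZ Φ ∧
      Module.finrank ℝ Z < Module.finrank ℝ V ∧ Sf (rs Ω Z) ∧ SubExp LZ := by
  have hsk : ∀ x y, Ω x y = -Ω y x := skew hΩ.alt
  have hrefl : (BF Ω).IsRefl := by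
    intro x y h
    rw [BF_apply] at h ⊢
    rw [hsk, h, neg_zero]
  have hnd : (BF Ω).Nondegenerate := by
    constructor
    · intro x hx
      exact hΩ.nd x hx
    · intro y hy
      apply hΩ.nd y
      intro w
      rw [hsk]
      have := hy w
      rw [BF_apply] at this
      rw [this, neg_zero]
  set W' : Submodule ℝ V := (BF Ω).orthogonal W with hW'
  have hmem : ∀ x, x ∈ W' ↔ ∀ a ∈ W, Ω a x = 0 := by
    intro x
    rw [hW', LinearMap.BilinForm.mem_orthogonal_iff]
    rfl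
  have hWW' : W ≤ W' := by
    intro x hx
    rw [hmem]
    intro a ha
    exact hiso ⟨a, ha⟩ ⟨x, hx⟩
  -- `A` is onto
  have hAinj : Function.Injective A := by
    rw [injective_iff_map_eq_zero]
    intro a ha
    by_contra hne
    have h1 := hqp a hne
    have h2 := hqA a a
    rw [ha] at h2
    simp at h2
    linarith
  have hAsur : Function.Surjective A :=
    LinearMap.surjective_of_injective (f := (A : W →ₗ[ℝ] W)) hAinj
  have hLW : ∀ a ∈ W, L a ∈ W := by
    intro a ha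
    rw [show a = ((⟨a, ha⟩ : W) : V) from rfl, hA]
    exact (A ⟨a, ha⟩).2
  have hLW' : ∀ x ∈ W', L x ∈ W' := by
    intro x hx
    rw [hmem] at hx ⊢
    intro a ha
    obtain ⟨a', ha'⟩ := hAsur ⟨a, ha⟩
    have h1 : a = L a' := by
      rw [hA, ha']
    rw [h1, hL]
    exact hx a' a'.2
  obtain ⟨C, hC⟩ := W.exists_isCompl
  set Z : Submodule ℝ V := W' ⊓ C with hZ
  set PW : V →ₗ[ℝ] W := W.projectionOnto C hC with hPW
  have hPWl : ∀ a : W, PW a = a := fun a => Submodule.projectionOnto_apply_left hC a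
  have hPWC : ∀ x, PW x = 0 ↔ x ∈ C := by
    intro x
    rw [← LinearMap.mem_ker, hPW, Submodule.ker_projectionOnto]
  have hZW' : ∀ z : Z, (z : V) ∈ W' := fun z => (Submodule.mem_inf.mp z.2).1
  have hZC : ∀ z : Z, (z : V) ∈ C := fun z => (Submodule.mem_inf.mp z.2).2
  set πC : V →ₗ[ℝ] V := LinearMap.id - W.subtype ∘ₗ PW with hπC
  have hπ : ∀ x, πC x = x - PW x := fun x => rfl
  have hπmemC : ∀ x, πC x ∈ C := by
    intro x
    rw [← hPWC, hπ, map_sub, hPWl, sub_self]
  have hπZ : ∀ x ∈ W', πC x ∈ Z := by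
    intro x hx
    rw [hZ, Submodule.mem_inf]
    refine ⟨?_, hπmemC x⟩
    rw [hπ]
    exact Submodule.sub_mem _ hx (hWW' (PW x).2)
  have hπW : ∀ x ∈ W, πC x = 0 := by
    intro x hx
    rw [hπ, show x = ((⟨x, hx⟩ : W) : V) from rfl, hPWl, sub_self]
  have hπid : ∀ z ∈ C, πC z = z := by
    intro z hz
    rw [hπ, (hPWC z).mpr hz]
    simp
  -- pairing of `W` with `Z`
  have hWZ : ∀ (a : W) (z : Z), Ω a z = 0 := fun a z => (hmem z).mp (hZW' z) a a.2
  have hZW : ∀ (z : Z) (a : W), Ω z a = 0 := fun z a => by rw [hsk, hWZ, neg_zero]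
  -- the restriction to `Z` is nondegenerate
  have hoo : (BF Ω).orthogonal W' = W := LinearMap.BilinForm.orthogonal_orthogonal hnd hrefl W
  have hZnd : ∀ z : Z, (∀ z' : Z, Ω z z' = 0) → z = 0 := by
    intro z hz
    have h1 : (z : V) ∈ W := by
      rw [← hoo, LinearMap.BilinForm.mem_orthogonal_iff]
      intro x hx
      change Ω x z = 0
      have h2 : x = PW x + πC x := by
        rw [hπ]
        abel
      have h3 : Ω x z = Ω (PW x) z + Ω (πC x) z := by
        conv_lhs => rw [h2]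
        rw [map_add, _root_.add_apply]
      rw [h3, hWZ, hsk, hz ⟨πC x, hπZ x hx⟩]
      simp
    have h2 : (z : V) ∈ W ⊓ C := Submodule.mem_inf.mpr ⟨h1, hZC z⟩
    rw [hC.inf_eq_bot, Submodule.mem_bot] at h2
    exact Subtype.ext h2
  have hrs : Sf (rs Ω Z) := by
    constructor
    · intro z
      exact hΩ.alt z
    · intro z hz
      exact hZnd z hz
  -- the restriction of `L`
  set LZ0 : Z →ₗ[ℝ] Z := LinearMap.codRestrict Z (πC ∘ₗ (L : V →ₗ[ℝ] V) ∘ₗ Z.subtype)
    (fun z => hπZ _ (hLW' _ (hZW' z))) with hLZ0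
  set LZ : Z →L[ℝ] Z := LinearMap.toContinuousLinearMap LZ0 with hLZ
  have hLZv : ∀ z : Z, ((LZ z : Z) : V) = πC (L z) := fun z => rfl
  have hit : ∀ (n : ℕ) (z : Z), (((LZ ^ n) z : Z) : V) = πC ((L ^ n) z) := by
    intro n
    induction n with
    | zero =>
      intro z
      simp only [pow_zero, _root_.one_apply_eq_self]
      exact (hπid z (hZC z)).symm
    | succ n ih =>
      intro z
      rw [pow_succ', pow_succ', _root_.mul_apply_eq_comp, _root_.mul_apply_eq_comp, hLZv,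
        ih, hπ ((L ^ n) z), map_sub, map_sub, hπW (L (PW ((L ^ n) z))) (hLW _ (PW _).2), sub_zero]
  have hsubZ : SubExp LZ := by
    intro c hc
    obtain ⟨K, hK⟩ := hsub c hc
    set PC : V →L[ℝ] V := LinearMap.toContinuousLinearMap πC with hPC
    refine ⟨‖PC‖ * K, fun n => ?_⟩
    have hKn : 0 ≤ K * c ^ n := le_trans (norm_nonneg _) (hK n)
    refine ContinuousLinearMap.opNorm_le_bound _ ?_ fun z => ?_
    · rw [mul_assoc]
      exact mul_nonneg (norm_nonneg _) hKn
    · have h1 : ‖(LZ ^ n) z‖ = ‖πC ((L ^ n) z)‖ := by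
        rw [← hit]
        rfl
      rw [h1]
      calc ‖πC ((L ^ n) z)‖ ≤ ‖PC‖ * ‖(L ^ n) z‖ := PC.le_opNorm _
        _ ≤ ‖PC‖ * (‖L ^ n‖ * ‖(z : V)‖) :=
            mul_le_mul_of_nonneg_left ((L ^ n).le_opNorm _) (norm_nonneg _)
        _ ≤ ‖PC‖ * ((K * c ^ n) * ‖(z : V)‖) :=
            mul_le_mul_of_nonneg_left (mul_le_mul_of_nonneg_right (hK n) (norm_nonneg _))
              (norm_nonneg _)
        _ = ‖PC‖ * K * c ^ n * ‖z‖ := by
            rw [Submodule.coe_norm]
            ring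
  -- dimensions
  have hsup : W ⊔ Z = W' := by
    apply le_antisymm
    · exact sup_le hWW' inf_le_left
    · intro x hx
      rw [Submodule.mem_sup]
      exact ⟨PW x, (PW x).2, πC x, hπZ x hx, by rw [hπ]; abel⟩
  have hinf : W ⊓ Z = ⊥ := by
    rw [eq_bot_iff]
    intro x hx
    rw [Submodule.mem_inf] at hx
    have h1 : x ∈ W ⊓ C := Submodule.mem_inf.mpr ⟨hx.1, (Submodule.mem_inf.mp hx.2).2⟩
    rwa [hC.inf_eq_bot] at h1
  have hd1 : Module.finrank ℝ W' = Module.finrank ℝ V - Module.finrank ℝ W :=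
    LinearMap.BilinForm.finrank_orthogonal hnd W
  have hd2 : Module.finrank ℝ W ≤ Module.finrank ℝ V := Submodule.finrank_le W
  have hd3 : Module.finrank ℝ W' = Module.finrank ℝ W + Module.finrank ℝ Z := by
    have h1 := Submodule.finrank_sup_add_finrank_inf_eq W Z
    rw [hsup, hinf, finrank_bot, add_zero] at h1
    exact h1
  have hd4 : 0 < Module.finrank ℝ W := by
    rw [Module.finrank_pos_iff]
    exact Submodule.nontrivial_iff_ne_bot.mpr hW
  -- the map `j`
  have hqnd : ∀ b : W, (∀ a : W, q a b = 0) → b = 0 := by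
    intro b hb
    by_contra hne
    have := hqp b hne
    rw [hb b] at this
    exact lt_irrefl _ this
  obtain ⟨j0, hj0⟩ : ∃ j0 : W →ₗ[ℝ] V, ∀ (b : W) (x : V), Ω x (j0 b) = q (PW x) b := by
    obtain ⟨ζ, hζ⟩ := rep (BF Ω) (fun y hy => hnd.2 y hy)
      (LinearMap.mk₂ ℝ (fun (b : W) (x : V) => q (PW x) b) (by simp) (by simp) (by simp)
        (by simp))
    exact ⟨ζ, fun b x => by simpa [BF_apply] using hζ b x⟩
  obtain ⟨ζ, hζ⟩ : ∃ ζ : W →ₗ[ℝ] Z, ∀ (b : W) (z : Z), Ω z (ζ b) = Ω z (j0 b) := by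
    obtain ⟨ζ, hζ⟩ := rep (BF (rs Ω Z)) (fun y hy => hZnd y fun z' => by
        rw [hsk]
        have h1 : Ω z' y = 0 := hy z'
        rw [h1, neg_zero])
      (LinearMap.mk₂ ℝ (fun (b : W) (z : Z) => Ω z (j0 b)) (by simp) (by simp) (by simp)
        (by simp))
    exact ⟨ζ, fun b z => hζ b z⟩
  set j1 : W →ₗ[ℝ] V := j0 - Z.subtype ∘ₗ ζ with hj1
  have hj1v : ∀ b, j1 b = j0 b - ζ b := fun b => rfl
  have hj1W : ∀ a b : W, Ω a (j1 b) = q a b := by
    intro a b
    rw [hj1v, map_sub, hWZ, sub_zero, hj0, hPWl]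
  have hj1Z : ∀ (z : Z) (b : W), Ω z (j1 b) = 0 := by
    intro z b
    rw [hj1v, map_sub, hζ, sub_self]
  obtain ⟨φ, hφ⟩ : ∃ φ : W →ₗ[ℝ] W, ∀ b b' : W, q b' (φ b) = -(1 / 2) * Ω (j1 b) (j1 b') := by
    obtain ⟨φ, hφ⟩ := rep (BF q) (fun y hy => hqnd y fun a => hy a)
      (LinearMap.mk₂ ℝ (fun (b b' : W) => -(1 / 2) * Ω (j1 b) (j1 b'))
        (fun m m' n => by
          simp only [map_add, _root_.add_apply]
          ring)
        (fun c m n => by
          simp only [map_smul, _root_.smul_apply, smul_eq_mul]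
          ring)
        (fun m n n' => by
          simp only [map_add]
          ring)
        (fun c m n => by
          simp only [map_smul, smul_eq_mul]
          ring))
    exact ⟨φ, fun b b' => hφ b b'⟩
  set j : W →ₗ[ℝ] V := j1 + W.subtype ∘ₗ φ with hj
  have hjv : ∀ b, j b = j1 b + φ b := fun b => rfl
  have hWj : ∀ a b : W, Ω a (j b) = q a b := by
    intro a b
    rw [hjv, map_add, hj1W, hiso, add_zero]
  have hjW : ∀ a b : W, Ω (j b) a = -q a b := by
    intro a b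
    rw [hsk, hWj]
  have hZj : ∀ (z : Z) (b : W), Ω z (j b) = 0 := by
    intro z b
    rw [hjv, map_add, hj1Z, hZW, add_zero]
  have hjZ : ∀ (z : Z) (b : W), Ω (j b) z = 0 := by
    intro z b
    rw [hsk, hZj, neg_zero]
  have hjj : ∀ b b' : W, Ω (j b) (j b') = 0 := by
    intro b b'
    have h1 : Ω (j b) (j b') = Ω (j1 b) (j1 b') + Ω (j1 b) (φ b') + Ω (φ b) (j b') := by
      rw [hjv b, map_add, _root_.add_apply, hjv b', map_add]
    have h2 : Ω (j1 b) (φ b') = -q (φ b') b := by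
      rw [hsk, hj1W]
    have h3 : Ω (φ b) (j b') = q (φ b) b' := hWj _ _
    have h4 := hφ b b'
    have h5 := hφ b' b
    rw [hqs] at h4 h5
    rw [h1, h2, h3, h4, h5, hsk (j1 b') (j1 b)]
    ring
  -- the map `Φ`
  set Φ0 : (W × Z × W) →ₗ[ℝ] V := W.subtype.coprod (Z.subtype.coprod j) with hΦ0
  have hΦv : ∀ x : W × Z × W, Φ0 x = (x.1 : V) + ((x.2.1 : V) + j x.2.2) := fun x => rfl
  have hform : ∀ x y : W × Z × W,
      Ω (Φ0 x) (Φ0 y) = rs Ω Z x.2.1 y.2.1 + q x.1 y.2.2 - q x.2.2 y.1 := by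
    intro x y
    rw [hΦv, hΦv]
    simp only [map_add, _root_.add_apply]
    rw [hiso, hWZ, hWj, hZW, hZj, hjW, hjZ, hjj, hqs y.1 x.2.2]
    have : rs Ω Z x.2.1 y.2.1 = Ω x.2.1 y.2.1 := rfl
    rw [this]
    ring
  have hΦinj : Function.Injective Φ0 := by
    rw [injective_iff_map_eq_zero]
    intro x hx
    have h0 : ∀ y : W × Z × W, rs Ω Z x.2.1 y.2.1 + q x.1 y.2.2 - q x.2.2 y.1 = 0 := by
      intro y
      rw [← hform, hx]
      simp
    have hz : x.2.1 = 0 := by
      apply hZnd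
      intro z'
      have := h0 (0, z', 0)
      simp only [map_zero, add_zero, sub_zero] at this
      exact this
    have ha : x.1 = 0 := by
      apply hqnd
      intro b'
      rw [hqs]
      have := h0 (0, 0, b')
      simp only [map_zero, zero_add, sub_zero] at this
      exact this
    have hb : x.2.2 = 0 := by
      apply hqnd
      intro a'
      rw [hqs]
      have := h0 (a', 0, 0)
      simp only [map_zero, zero_add, zero_sub, neg_eq_zero] at this
      exact this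
    exact Prod.ext ha (Prod.ext hz hb)
  have hfr : Module.finrank ℝ (W × Z × W) = Module.finrank ℝ V := by
    rw [Module.finrank_prod, Module.finrank_prod]
    omega
  set Φ : (W × Z × W) ≃L[ℝ] V :=
    (LinearMap.linearEquivOfInjective Φ0 hΦinj hfr).toContinuousLinearEquiv with hΦ
  have hΦa : ∀ x, Φ x = Φ0 x := fun x => LinearMap.linearEquivOfInjective_apply hΦinj hfr x
  refine ⟨Z, LZ, Φ, ?_, by omega, hrs, hsubZ⟩
  refine ⟨?_, hqs, hqp, hqA, ?_, ?_⟩
  · intro x y
    rw [hΦa, hΦa]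
    exact hform x y
  · intro a
    rw [hΦa, hΦa, hΦv, hΦv]
    simp only [map_zero, Submodule.coe_zero, add_zero]
    exact hA a
  · intro z
    refine ⟨PW (L z), ?_⟩
    rw [hΦa, hΦa, hΦv, hΦv]
    simp only [map_zero, Submodule.coe_zero, add_zero, zero_add]
    rw [hLZv, hπ]
    abel

end SPL_

open SPL_ in
theorem p_SPL : T_SPL := by
  intro V _ _ _ Ω L v c hΩ hL hsub hv hc hLL hc1 hvL
  have hsk : ∀ x y, Ω x y = -Ω y x := skew hΩ.alt
  set W : Submodule ℝ V := Submodule.span ℝ {v, L v} with hW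
  have hvW : v ∈ W := Submodule.subset_span (by simp)
  have hLvW : L v ∈ W := Submodule.subset_span (by simp)
  have hWb : W ≠ ⊥ := by
    intro h
    rw [h, Submodule.mem_bot] at hvW
    exact hv hvW
  have hmem : ∀ a ∈ W, ∃ x y : ℝ, a = x • v + y • L v := by
    intro a ha
    rw [hW, Submodule.mem_span_pair] at ha
    obtain ⟨x, y, h⟩ := ha
    exact ⟨x, y, h.symm⟩
  have hiso : ∀ a b : W, Ω a b = 0 := by
    intro a b
    obtain ⟨x, y, h⟩ := hmem a a.2
    obtain ⟨x', y', h'⟩ := hmem b b.2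
    rw [h, h']
    simp only [map_add, map_smul, _root_.add_apply, _root_.smul_apply,
      hΩ.alt, hvL, hsk (L v) v, smul_eq_mul]
    ring
  have hLW : ∀ a ∈ W, L a ∈ W := by
    intro a ha
    obtain ⟨x, y, h⟩ := hmem a ha
    rw [h, map_add, map_smul, map_smul, hLL]
    exact W.add_mem (W.smul_mem _ hLvW) (W.smul_mem _ (W.sub_mem (W.smul_mem _ hLvW) hvW))
  have hLLW : ∀ a ∈ W, L (L a) = (2 * c) • L a - a := by
    intro a ha
    obtain ⟨x, y, h⟩ := hmem a ha
    rw [h]
    simp only [map_add, map_smul, map_sub, hLL]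
    module
  set A : W →L[ℝ] W := LinearMap.toContinuousLinearMap
    ((L : V →ₗ[ℝ] V).restrict (p := W) (q := W) hLW) with hA
  have hAv : ∀ a : W, ((A a : W) : V) = L a := fun a => rfl
  obtain ⟨q0, hq0s, hq0p⟩ := exists_inner W
  suffices hq : ∃ q : W →L[ℝ] W →L[ℝ] ℝ, (∀ a b, q a b = q b a) ∧ (∀ a, a ≠ 0 → 0 < q a a) ∧
      ∀ a b, q (A a) (A b) = q a b by
    obtain ⟨q, hqs, hqp, hqA⟩ := hq
    obtain ⟨Z, LZ, Φ, h1, h2, h3, h4⟩ :=
      core hΩ hL hsub W hWb hiso q A (fun a => (hAv a).symm) hqs hqp hqA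
    exact ⟨W, Z, q, A, LZ, Φ, h1, h2, h3, h4⟩
  by_cases hcc : |c| = 1
  · refine ⟨q0, hq0s, hq0p, ?_⟩
    have hLv := hc1 hcc
    have hAc : ∀ a : W, A a = c • a := by
      intro a
      apply Subtype.ext
      rw [hAv, Submodule.coe_smul]
      obtain ⟨x, y, h⟩ := hmem a a.2
      rw [h]
      simp only [map_add, map_smul, hLv]
      module
    intro a b
    rw [hAc, hAc, map_smul, map_smul, _root_.smul_apply, smul_eq_mul, smul_eq_mul]
    have h1 : c * c = 1 := by
      rw [← abs_mul_abs_self, hcc, one_mul]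
    rw [← mul_assoc, h1, one_mul]
  · have hclt : |c| < 1 := lt_of_le_of_ne hc hcc
    have hc2 : c ^ 2 < 1 := by
      rw [← sq_abs]
      have := abs_nonneg c
      nlinarith
    set s : ℝ := Real.sqrt (1 - c ^ 2) with hs
    have hs0 : 0 < s := Real.sqrt_pos.mpr (by linarith)
    have hs2 : s * s = 1 - c ^ 2 := Real.mul_self_sqrt (by linarith)
    set K : W →L[ℝ] W := s⁻¹ • (A - c • ContinuousLinearMap.id ℝ W) with hK
    have hKv : ∀ a, K a = s⁻¹ • (A a - c • a) := fun a => rfl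
    have hAA : ∀ a, A (A a) = (2 * c) • A a - a := by
      intro a
      apply Subtype.ext
      rw [hAv, hAv, hLLW a a.2]
      rfl
    have hKK : ∀ a, K (K a) = -a := by
      intro a
      rw [hKv (K a), hKv a, map_smul, map_sub, map_smul, hAA]
      have h1 : (2 * c) • A a - a - c • A a - c • (A a - c • a) = (-(s * s)) • a := by
        rw [hs2]
        module
      have h2 : s⁻¹ • (s⁻¹ • ((2 * c) • A a - a - c • A a) - c • s⁻¹ • (A a - c • a)) =
          (s⁻¹ * s⁻¹) • ((2 * c) • A a - a - c • A a - c • (A a - c • a)) := by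
        module
      rw [h2, h1, smul_smul]
      have h3 : s⁻¹ * s⁻¹ * -(s * s) = -1 := by
        field_simp
      rw [h3]
      simp
    have hAK : ∀ a, A a = c • a + s • K a := by
      intro a
      rw [hKv, smul_smul, mul_inv_cancel₀ hs0.ne']
      simp
    set q : W →L[ℝ] W →L[ℝ] ℝ := q0 + q0.bilinearComp K K with hq
    have hqv : ∀ a b, q a b = q0 a b + q0 (K a) (K b) := fun a b => rfl
    have hqK : ∀ a b, q (K a) (K b) = q a b := by
      intro a b
      rw [hqv, hqv, hKK, hKK]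
      simp only [map_neg, _root_.neg_apply, neg_neg]
      ring
    have hqKn : ∀ a b, q (K a) b = -q a (K b) := by
      intro a b
      rw [← hqK (K a) b, hKK]
      simp
    refine ⟨q, ?_, ?_, ?_⟩
    · intro a b
      rw [hqv, hqv, hq0s a b, hq0s (K a) (K b)]
    · intro a ha
      rw [hqv]
      have h1 := hq0p a ha
      have h2 : K a ≠ 0 := by
        intro h
        have h3 := hKK a
        rw [h, map_zero] at h3
        exact ha (neg_eq_zero.mp h3.symm)
      have h3 := hq0p (K a) h2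
      linarith
    · intro a b
      rw [hAK a, hAK b]
      simp only [map_add, map_smul, _root_.add_apply, _root_.smul_apply,
        smul_eq_mul, hqKn a b, hqK]
      linear_combination (q a b) * hs2

end Pool.Agent.Zex
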