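import Pool.Agent.Zex.Targets

/-!
# Block triangular symplectic maps are limits of elliptic ones (Cayley transform)
-/

set_option autoImplicit false

open Set Filter Topology

namespace Pool.Agent.Zex

namespace STP_

variable {W Z : Type} [NormedAddCommGroup W] [NormedSpace ℝ W] [FiniteDimensional ℝ W]
  [NormedAddCommGroup Z] [NormedSpace ℝ Z] [FiniteDimensional ℝ Z]

variable (W Z) in
/-- first component -/
noncomputable def c1 : (W × Z × W) →L[ℝ] W := ContinuousLinearMap.fst ℝ W (Z × W)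

variable (W Z) in
/-- second component -/
noncomputable def c2 : (W × Z × W) →L[ℝ] Z :=
  (ContinuousLinearMap.fst ℝ Z W).comp (ContinuousLinearMap.snd ℝ W (Z × W))

variable (W Z) in
/-- third component -/
noncomputable def c3 : (W × Z × W) →L[ℝ] W :=
  (ContinuousLinearMap.snd ℝ Z W).comp (ContinuousLinearMap.snd ℝ W (Z × W))

omit [FiniteDimensional ℝ W] [FiniteDimensional ℝ Z] in
@[simp] lemma c1_apply (x : W × Z × W) : c1 W Z x = x.1 := rfl
omit [FiniteDimensional ℝ W] [FiniteDimensional ℝ Z] in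
@[simp] lemma c2_apply (x : W × Z × W) : c2 W Z x = x.2.1 := rfl
omit [FiniteDimensional ℝ W] [FiniteDimensional ℝ Z] in
@[simp] lemma c3_apply (x : W × Z × W) : c3 W Z x = x.2.2 := rfl

/-- strictly upper triangular map -/
noncomputable def up (y12 : Z →L[ℝ] W) (y13 : W →L[ℝ] W) (y23 : W →L[ℝ] Z) :
    (W × Z × W) →L[ℝ] (W × Z × W) :=
  (y12.comp (c2 W Z) + y13.comp (c3 W Z)).prod ((y23.comp (c3 W Z)).prod 0)

omit [FiniteDimensional ℝ W] [FiniteDimensional ℝ Z] in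
@[simp] lemma up_apply (y12 : Z →L[ℝ] W) (y13 : W →L[ℝ] W) (y23 : W →L[ℝ] Z) (x : W × Z × W) :
    up y12 y13 y23 x = (y12 x.2.1 + y13 x.2.2, y23 x.2.2, 0) := rfl

/-- the complex structures -/
noncomputable def Js (JZ : Z →L[ℝ] Z) (s : ℝ) : (W × Z × W) →L[ℝ] (W × Z × W) :=
  ((-s⁻¹) • c3 W Z).prod ((JZ.comp (c2 W Z)).prod (s • c1 W Z))

omit [FiniteDimensional ℝ W] [FiniteDimensional ℝ Z] in
@[simp] lemma Js_apply (JZ : Z →L[ℝ] Z) (s : ℝ) (x : W × Z × W) :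
    Js JZ s x = ((-s⁻¹) • x.2.2, JZ x.2.1, s • x.1) := rfl

/-- first perturbation -/
noncomputable def F1 (JZ : Z →L[ℝ] Z) (y12 : Z →L[ℝ] W) (y23 : W →L[ℝ] Z) :
    (W × Z × W) →L[ℝ] (W × Z × W) :=
  (0 : (W × Z × W) →L[ℝ] W).prod ((JZ.comp (y23.comp (c1 W Z))).prod (y12.comp (JZ.comp (c2 W Z))))

omit [FiniteDimensional ℝ W] [FiniteDimensional ℝ Z] in
@[simp] lemma F1_apply (JZ : Z →L[ℝ] Z) (y12 : Z →L[ℝ] W) (y23 : W →L[ℝ] Z) (x : W × Z × W) :
    F1 JZ y12 y23 x = (0, JZ (y23 x.1), y12 (JZ x.2.1)) := rfl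

/-- second perturbation -/
noncomputable def F2 (y13 : W →L[ℝ] W) : (W × Z × W) →L[ℝ] (W × Z × W) :=
  (0 : (W × Z × W) →L[ℝ] W).prod ((0 : (W × Z × W) →L[ℝ] Z).prod (y13.comp (c1 W Z)))

omit [FiniteDimensional ℝ W] [FiniteDimensional ℝ Z] in
@[simp] lemma F2_apply (y13 : W →L[ℝ] W) (x : W × Z × W) :
    (F2 y13 : (W × Z × W) →L[ℝ] (W × Z × W)) x = (0, 0, y13 x.1) := rfl

/-- diagonal map -/
noncomputable def Dg (A : W →L[ℝ] W) (B : Z →L[ℝ] Z) : (W × Z × W) →L[ℝ] (W × Z × W) :=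
  (A.comp (c1 W Z)).prod ((B.comp (c2 W Z)).prod (A.comp (c3 W Z)))

omit [FiniteDimensional ℝ W] [FiniteDimensional ℝ Z] in
@[simp] lemma Dg_apply (A : W →L[ℝ] W) (B : Z →L[ℝ] Z) (x : W × Z × W) :
    Dg A B x = (A x.1, B x.2.1, A x.2.2) := rfl

omit [FiniteDimensional ℝ W] [FiniteDimensional ℝ Z] in
lemma Dg_sub_norm (A : W →L[ℝ] W) (B B' : Z →L[ℝ] Z) : ‖Dg A B' - Dg A B‖ ≤ ‖B' - B‖ := by
  refine ContinuousLinearMap.opNorm_le_bound _ (norm_nonneg _) fun x => ?_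
  have h : (Dg A B' - Dg A B) x = (0, (B' - B) x.2.1, 0) := by
    simp
  rw [h]
  have h1 : ‖((0 : W), (B' - B) x.2.1, (0 : W))‖ = ‖(B' - B) x.2.1‖ := by
    simp [Prod.norm_def]
  rw [h1]
  refine ((B' - B).le_opNorm _).trans ?_
  gcongr
  exact (norm_fst_le x.2).trans (norm_snd_le x)

section Cayley

variable {X : Type} [NormedAddCommGroup X] [NormedSpace ℝ X]

/-- Facts on the Cayley transform. -/
lemma cayley (om : X →L[ℝ] X →L[ℝ] ℝ) (E J : X →L[ℝ] X) (hE : ∀ x y, om (E x) y = - om x (E y))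
    (hJ : ∀ x, E (J x) = J (E x)) (hu : IsUnit (1 - E)) :
    Pres om ((1 + E) * Ring.inverse (1 - E)) ∧
    ∀ x, ((1 + E) * Ring.inverse (1 - E)) (J x) = J (((1 + E) * Ring.inverse (1 - E)) x) := by
  set v := Ring.inverse (1 - E) with hv
  have h1 : (1 - E) * v = 1 := Ring.mul_inverse_cancel _ hu
  have h2 : v * (1 - E) = 1 := Ring.inverse_mul_cancel _ hu
  have h1' : ∀ x, v x - E (v x) = x := fun x => by
    have := congrArg (fun f : X →L[ℝ] X => f x) h1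
    simpa using this
  have h2' : ∀ x, v (x - E x) = x := fun x => by
    have := congrArg (fun f : X →L[ℝ] X => f x) h2
    simpa using this
  have hC : ∀ x, ((1 + E) * v) x = v x + E (v x) := fun x => by simp
  constructor
  · intro x y
    rw [hC, hC]
    conv_rhs => rw [← h1' x, ← h1' y]
    simp only [map_add, map_sub, add_apply,
      sub_apply]
    rw [hE (v x) (v y)]
    ring
  · intro x
    have hvJ : v (J x) = J (v x) := by
      conv_lhs => rw [← h1' x]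
      rw [map_sub, ← hJ, h2']
    rw [hC, hC, hvJ, hJ, map_add]

end Cayley

/-- Final estimate. -/
lemma est {R : Type} [NormedRing R] (D' D0 C K0 : R) (ε δ : ℝ)
    (h1 : ‖C - K0‖ < ε / (2 * (‖D'‖ + 1))) (h2 : ‖D' - D0‖ ≤ δ)
    (h3 : δ < ε / (2 * (‖K0‖ + 1))) : ‖D' * C - D0 * K0‖ < ε := by
  have e1 : D' * C - D0 * K0 = D' * (C - K0) + (D' - D0) * K0 := by
    rw [mul_sub, sub_mul]; abel
  have e2 : ‖D' * (C - K0)‖ ≤ ‖D'‖ * ‖C - K0‖ := norm_mul_le _ _
  have e3 : ‖(D' - D0) * K0‖ ≤ ‖D' - D0‖ * ‖K0‖ := norm_mul_le _ _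
  have k1 : 0 ≤ ‖D'‖ := norm_nonneg _
  have k2 : 0 ≤ ‖K0‖ := norm_nonneg _
  have k3 : 0 ≤ ‖C - K0‖ := norm_nonneg _
  have k4 : 0 ≤ ‖D' - D0‖ := norm_nonneg _
  have e5 : ‖D'‖ * ‖C - K0‖ < ε / 2 := by
    calc ‖D'‖ * ‖C - K0‖ ≤ (‖D'‖ + 1) * ‖C - K0‖ := by nlinarith
      _ < (‖D'‖ + 1) * (ε / (2 * (‖D'‖ + 1))) := by
          apply mul_lt_mul_of_pos_left h1; positivity
      _ = ε / 2 := by field_simp
  have e6 : ‖D' - D0‖ * ‖K0‖ < ε / 2 := by
    calc ‖D' - D0‖ * ‖K0‖ ≤ δ * (‖K0‖ + 1) := by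
          apply mul_le_mul h2 (by linarith) k2 (by linarith)
      _ < (ε / (2 * (‖K0‖ + 1))) * (‖K0‖ + 1) := by
          apply mul_lt_mul_of_pos_right h3; positivity
      _ = ε / 2 := by field_simp
  rw [e1]
  calc _ ≤ ‖D' * (C - K0)‖ + ‖(D' - D0) * K0‖ := norm_add_le _ _
    _ < ε := by linarith

/-- Transport. -/
lemma transport {X V : Type} [NormedAddCommGroup X] [NormedSpace ℝ X] [NormedAddCommGroup V]
    [NormedSpace ℝ V] (Ω : V →L[ℝ] V →L[ℝ] ℝ) (L : V →L[ℝ] V) (om : X →L[ℝ] X →L[ℝ] ℝ)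
    (LX : X →L[ℝ] X) (Φ : X ≃L[ℝ] V) (hom : ∀ x y, om x y = Ω (Φ x) (Φ y))
    (hLX : ∀ x, LX x = Φ.symm (L (Φ x))) (hG : Good om LX) : Good Ω L := by
  intro ε hε
  obtain ⟨Φ1, a1⟩ : ∃ Φ1 : X →L[ℝ] V, ∀ x, Φ1 x = Φ x := ⟨(Φ : X →L[ℝ] V), fun x => rfl⟩
  obtain ⟨Φ2, a2⟩ : ∃ Φ2 : V →L[ℝ] X, ∀ x, Φ2 x = Φ.symm x := ⟨(Φ.symm : V →L[ℝ] X), fun x => rfl⟩
  obtain ⟨LX', J, hn, hP', hJ, hc⟩ := hG (ε / ((‖Φ1‖ + 1) * (‖Φ2‖ + 1))) (by positivity)
  have f1 : ∀ M : X →L[ℝ] X, ∀ x, (Φ1.comp (M.comp Φ2)) x = Φ (M (Φ.symm x)) := by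
    intro M x
    rw [ContinuousLinearMap.comp_apply, ContinuousLinearMap.comp_apply, a1, a2]
  refine ⟨Φ1.comp (LX'.comp Φ2), Φ1.comp (J.comp Φ2), ?_, ?_, ⟨?_, ?_, ?_⟩, ?_⟩
  · have e : Φ1.comp (LX'.comp Φ2) - L = Φ1.comp ((LX' - LX).comp Φ2) := by
      refine ContinuousLinearMap.ext fun x => ?_
      rw [sub_apply, f1, f1, sub_apply, hLX, map_sub,
        ContinuousLinearEquiv.apply_symm_apply, ContinuousLinearEquiv.apply_symm_apply]
    rw [e]
    have b1 := ContinuousLinearMap.opNorm_comp_le Φ1 ((LX' - LX).comp Φ2)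
    have b2 := ContinuousLinearMap.opNorm_comp_le (LX' - LX) Φ2
    have k1 : 0 ≤ ‖Φ1‖ := norm_nonneg _
    have k2 : 0 ≤ ‖Φ2‖ := norm_nonneg _
    have k3 : 0 ≤ ‖LX' - LX‖ := norm_nonneg _
    calc ‖Φ1.comp ((LX' - LX).comp Φ2)‖ ≤ ‖Φ1‖ * (‖LX' - LX‖ * ‖Φ2‖) :=
          b1.trans (mul_le_mul_of_nonneg_left b2 k1)
      _ ≤ (‖Φ1‖ + 1) * (‖LX' - LX‖ * (‖Φ2‖ + 1)) := by
          apply mul_le_mul (by linarith) _ (by positivity) (by positivity)
          exact mul_le_mul_of_nonneg_left (by linarith) k3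
      _ < (‖Φ1‖ + 1) * (ε / ((‖Φ1‖ + 1) * (‖Φ2‖ + 1)) * (‖Φ2‖ + 1)) := by
          apply mul_lt_mul_of_pos_left _ (by positivity)
          exact mul_lt_mul_of_pos_right hn (by positivity)
      _ = ε := by field_simp
  · intro v w
    rw [f1, f1, ← hom, hP', hom, ContinuousLinearEquiv.apply_symm_apply,
      ContinuousLinearEquiv.apply_symm_apply]
  · intro v
    rw [f1, f1, ContinuousLinearEquiv.symm_apply_apply, hJ.sq, map_neg,
      ContinuousLinearEquiv.apply_symm_apply]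
  · intro v w
    rw [f1, f1, ← hom, hJ.pres, hom, ContinuousLinearEquiv.apply_symm_apply,
      ContinuousLinearEquiv.apply_symm_apply]
  · intro v hv
    rw [f1]
    have h := hJ.pos (Φ.symm v) (by
      intro h0
      apply hv
      rw [← Φ.apply_symm_apply v, h0, map_zero])
    rw [hom, ContinuousLinearEquiv.apply_symm_apply] at h
    exact h
  · intro v
    rw [f1, f1, f1, f1, ContinuousLinearEquiv.symm_apply_apply,
      ContinuousLinearEquiv.symm_apply_apply, hc]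

/-- The statement in coordinates. -/
theorem coreX (ωZ : Z →L[ℝ] Z →L[ℝ] ℝ) (q : W →L[ℝ] W →L[ℝ] ℝ) (A : W →L[ℝ] W)
    (LZ : Z →L[ℝ] Z) (om : (W × Z × W) →L[ℝ] (W × Z × W) →L[ℝ] ℝ)
    (LX : (W × Z × W) →L[ℝ] (W × Z × W)) (hZ : Sf ωZ) (hP : Pres om LX)
    (form : ∀ x y : W × Z × W, om x y = ωZ x.2.1 y.2.1 + q x.1 y.2.2 - q x.2.2 y.1)
    (qs : ∀ a b, q a b = q b a) (qpos : ∀ a, a ≠ 0 → 0 < q a a)
    (qpres : ∀ a b, q (A a) (A b) = q a b) (mapW : ∀ a : W, LX (a, 0, 0) = (A a, 0, 0))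
    (mapZ : ∀ z : Z, ∃ a : W, LX (0, z, 0) = (a, LZ z, 0)) :
    Pres ωZ LZ ∧ (Good ωZ LZ → Good om LX) := by
  have hPZ : Pres ωZ LZ := by
    intro z z'
    obtain ⟨a, ha⟩ := mapZ z
    obtain ⟨a', ha'⟩ := mapZ z'
    have h := hP (0, z, 0) (0, z', 0)
    rw [ha, ha', form, form] at h
    simpa using h
  refine ⟨hPZ, fun hG ε hε => ?_⟩
  -- inverses of `A` and `LZ`
  have hAinj : Function.Injective A := by
    rw [injective_iff_map_eq_zero]
    intro a ha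
    by_contra hne
    have := qpos a hne
    rw [← qpres, ha] at this
    simp at this
  have hLinj : Function.Injective LZ := by
    rw [injective_iff_map_eq_zero]
    intro z hz
    apply hZ.nd
    intro w
    rw [← hPZ, hz]
    simp
  obtain ⟨Ai, hAi, hAi'⟩ : ∃ Ai : W →L[ℝ] W, (∀ a, Ai (A a) = a) ∧ ∀ a, A (Ai a) = a := by
    let e := LinearEquiv.ofInjectiveEndo (A : W →ₗ[ℝ] W) hAinj
    have he : ∀ a, e a = A a := fun a => rfl
    refine ⟨LinearMap.toContinuousLinearMap (e.symm : W →ₗ[ℝ] W), fun a => ?_, fun a => ?_⟩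
    · show e.symm (A a) = a
      rw [← he, LinearEquiv.symm_apply_apply]
    · show A (e.symm a) = a
      rw [← he, LinearEquiv.apply_symm_apply]
  obtain ⟨Li, hLi, hLi'⟩ : ∃ Li : Z →L[ℝ] Z, (∀ a, Li (LZ a) = a) ∧ ∀ a, LZ (Li a) = a := by
    let e := LinearEquiv.ofInjectiveEndo (LZ : Z →ₗ[ℝ] Z) hLinj
    have he : ∀ a, e a = LZ a := fun a => rfl
    refine ⟨LinearMap.toContinuousLinearMap (e.symm : Z →ₗ[ℝ] Z), fun a => ?_, fun a => ?_⟩
    · show e.symm (LZ a) = a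
      rw [← he, LinearEquiv.symm_apply_apply]
    · show LZ (e.symm a) = a
      rw [← he, LinearEquiv.apply_symm_apply]
  -- third component of `LX (0,0,b)`
  have hG3 : ∀ b : W, (LX (0, 0, b)).2.2 = A b := by
    intro b
    have h : ∀ w : W, q w ((LX (0, 0, b)).2.2 - A b) = 0 := by
      intro w
      have h1 := hP (Ai w, 0, 0) (0, 0, b)
      rw [mapW, form, form, hAi'] at h1
      simp only [map_zero, zero_apply, sub_zero, zero_add] at h1
      have h2 := qpres (Ai w) b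
      rw [hAi'] at h2
      rw [map_sub, h1, h2, sub_self]
    by_contra hne
    have := qpos _ (sub_ne_zero.mpr hne)
    rw [h] at this
    exact lt_irrefl _ this
  -- the unipotent part
  set K0 : (W × Z × W) →L[ℝ] (W × Z × W) := Dg Ai Li * LX with hK0
  have hDK : Dg A LZ * K0 = LX := by
    refine ContinuousLinearMap.ext fun x => ?_
    show Dg A LZ (Dg Ai Li (LX x)) = LX x
    simp [hAi', hLi']
  have hDK' : ∀ x, Dg A LZ (K0 x) = LX x := fun x => by rw [← hDK]; rfl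
  set u12 : Z →L[ℝ] W := (c1 W Z).comp (K0.comp
    ((ContinuousLinearMap.inr ℝ W (Z × W)).comp (ContinuousLinearMap.inl ℝ Z W))) with hu12
  set u13 : W →L[ℝ] W := (c1 W Z).comp (K0.comp
    ((ContinuousLinearMap.inr ℝ W (Z × W)).comp (ContinuousLinearMap.inr ℝ Z W))) with hu13
  set u23 : W →L[ℝ] Z := (c2 W Z).comp (K0.comp
    ((ContinuousLinearMap.inr ℝ W (Z × W)).comp (ContinuousLinearMap.inr ℝ Z W))) with hu23
  have hKu : ∀ x, K0 x = x + up u12 u13 u23 x := by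
    intro x
    have hx : x = (x.1, (0 : Z), (0 : W)) + ((0 : W), x.2.1, (0 : W)) + ((0 : W), (0 : Z), x.2.2) := by
      ext <;> simp
    have k1 : K0 (x.1, 0, 0) = (x.1, 0, 0) := by
      show Dg Ai Li (LX (x.1, 0, 0)) = _
      rw [mapW]; simp [hAi]
    have k2 : K0 (0, x.2.1, 0) = (u12 x.2.1, x.2.1, 0) := by
      have e1 : u12 x.2.1 = (K0 (0, x.2.1, 0)).1 := rfl
      obtain ⟨a, ha⟩ := mapZ x.2.1
      have e2 : K0 (0, x.2.1, 0) = (Ai a, x.2.1, 0) := by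
        show Dg Ai Li (LX (0, x.2.1, 0)) = _
        rw [ha]; simp [hLi]
      rw [e1, e2]
    have k3 : K0 (0, 0, x.2.2) = (u13 x.2.2, u23 x.2.2, x.2.2) := by
      have e1 : u13 x.2.2 = (K0 (0, 0, x.2.2)).1 := rfl
      have e2 : u23 x.2.2 = (K0 (0, 0, x.2.2)).2.1 := rfl
      have e3 : (K0 (0, 0, x.2.2)).2.2 = x.2.2 := by
        show (Dg Ai Li (LX (0, 0, x.2.2))).2.2 = _
        rw [Dg_apply]
        show Ai (LX (0, 0, x.2.2)).2.2 = _
        rw [hG3, hAi]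
      rw [e1, e2]
      ext
      · rfl
      · rfl
      · exact e3
    conv_lhs => rw [hx]
    rw [map_add, map_add, k1, k2, k3]
    ext
    · simp [add_assoc]
    · simp
    · simp
  set u : (W × Z × W) →L[ℝ] (W × Z × W) := up u12 u13 u23 with hu
  have hu3 : ∀ x, u (u (u x)) = 0 := by
    intro x; rw [hu]; ext <;> simp
  have hK0' : K0 = 1 + u := by
    refine ContinuousLinearMap.ext fun x => ?_; rw [hKu]; rfl
  have hPK : ∀ x y, om (K0 x) (K0 y) = om x y := by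
    intro x y
    have h1 : ∀ x y, om (Dg A LZ x) (Dg A LZ y) = om x y := by
      intro x y
      rw [form, form, Dg_apply, Dg_apply]
      show ωZ (LZ x.2.1) (LZ y.2.1) + q (A x.1) (A y.2.2) - q (A x.2.2) (A y.1) = _
      rw [hPZ, qpres, qpres]
    rw [← h1, hDK', hDK', hP]
  -- the logarithm-like map `Y`
  set y12 : Z →L[ℝ] W := (1 / 2 : ℝ) • u12 with hy12
  set y13 : W →L[ℝ] W := (1 / 2 : ℝ) • u13 - (1 / 4 : ℝ) • (u12.comp u23) with hy13
  set y23 : W →L[ℝ] Z := (1 / 2 : ℝ) • u23 with hy23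
  set Y : (W × Z × W) →L[ℝ] (W × Z × W) := up y12 y13 y23 with hY
  have hYu : ∀ x, Y x = (1 / 2 : ℝ) • u x - (1 / 4 : ℝ) • u (u x) := by
    intro x
    rw [hY, hu]
    simp only [up_apply, hy12, hy13, hy23]
    ext
    · simp only [smul_apply, sub_apply,
        ContinuousLinearMap.comp_apply, Prod.smul_mk, Prod.mk_sub_mk, map_zero, add_zero]
      module
    · simp
    · simp
  have hYskew : ∀ x y, om (Y x) y = - om x (Y y) := by
    have key : ∀ x y, om (Y (x + K0 x)) (y + K0 y) = - om (x + K0 x) (Y (y + K0 y)) := by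
      intro x y
      have e : ∀ x, Y (x + K0 x) = K0 x - x := by
        intro x
        rw [hYu, hKu]
        simp only [map_add, hu3, smul_add]
        module
      rw [e, e]
      simp only [map_add, map_sub, add_apply, sub_apply,
        hPK]
      ring
    have hsurj : ∀ x, ∃ x', x = x' + K0 x' := by
      intro x
      refine ⟨(1 / 2 : ℝ) • x - (1 / 4 : ℝ) • u x + (1 / 8 : ℝ) • u (u x), ?_⟩
      rw [hKu]
      simp only [map_add, map_sub, map_smul, hu3, smul_zero, add_zero]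
      module
    intro x y
    obtain ⟨x', rfl⟩ := hsurj x
    obtain ⟨y', rfl⟩ := hsurj y
    exact key x' y'
  have hunit1 : (1 - Y) * (1 + (1 / 2 : ℝ) • u) = 1 := by
    refine ContinuousLinearMap.ext fun x => ?_
    show (x + (1 / 2 : ℝ) • u x) - Y (x + (1 / 2 : ℝ) • u x) = x
    rw [hYu]
    simp only [map_add, map_smul, hu3, smul_zero, add_zero]
    module
  have hunit2 : (1 + (1 / 2 : ℝ) • u) * (1 - Y) = 1 := by
    refine ContinuousLinearMap.ext fun x => ?_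
    show (x - Y x) + (1 / 2 : ℝ) • u (x - Y x) = x
    rw [hYu]
    simp only [map_sub, map_smul, hu3, smul_zero, sub_zero]
    module
  have hCK : (1 + Y) * (1 + (1 / 2 : ℝ) • u) = K0 := by
    rw [hK0']
    refine ContinuousLinearMap.ext fun x => ?_
    show (x + (1 / 2 : ℝ) • u x) + Y (x + (1 / 2 : ℝ) • u x) = x + u x
    rw [hYu]
    simp only [map_add, map_smul, hu3, smul_zero, add_zero]
    module
  let y1 : ((W × Z × W) →L[ℝ] (W × Z × W))ˣ := ⟨1 - Y, 1 + (1 / 2 : ℝ) • u, hunit1, hunit2⟩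
  have hinvY : Ring.inverse (1 - Y) = 1 + (1 / 2 : ℝ) • u := by
    have := Ring.inverse_unit y1
    exact this
  -- choose the approximation of `LZ`
  obtain ⟨LZ', JZ, hLZ', hPZ', hJZ, hcomm⟩ := hG (ε / (2 * (‖K0‖ + 1))) (by positivity)
  have : CompleteSpace (W × Z × W) := FiniteDimensional.complete ℝ (W × Z × W)
  set D' : (W × Z × W) →L[ℝ] (W × Z × W) := Dg A LZ' with hD'
  let E : ℝ → ((W × Z × W) →L[ℝ] (W × Z × W)) := fun s =>
    Y - s • F1 JZ y12 y23 - (s ^ 2) • F2 y13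
  have hE0 : E 0 = Y := by simp [E]
  have hEc : Continuous E := by
    show Continuous fun s : ℝ => Y - s • F1 JZ y12 y23 - (s ^ 2) • F2 y13
    fun_prop
  have hEt : Tendsto E (𝓝[>] 0) (𝓝 Y) := by
    have := hEc.tendsto 0
    rw [hE0] at this
    exact this.mono_left nhdsWithin_le_nhds
  have hInv : Tendsto (fun s => Ring.inverse (1 - E s)) (𝓝[>] 0) (𝓝 (Ring.inverse (1 - Y))) := by
    have h1 : ContinuousAt Ring.inverse (1 - Y) := NormedRing.inverse_continuousAt y1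
    exact h1.tendsto.comp (tendsto_const_nhds.sub hEt)
  have hCt : Tendsto (fun s => (1 + E s) * Ring.inverse (1 - E s)) (𝓝[>] 0) (𝓝 K0) := by
    have h1 := (tendsto_const_nhds (x := (1 : (W × Z × W) →L[ℝ] (W × Z × W)))).add hEt
    have h2 := h1.mul hInv
    rw [hinvY, hCK] at h2
    exact h2
  have hev1 : ∀ᶠ s in 𝓝[>] (0 : ℝ), ‖(1 + E s) * Ring.inverse (1 - E s) - K0‖ <
      ε / (2 * (‖D'‖ + 1)) := by
    have := Metric.tendsto_nhds.mp hCt (ε / (2 * (‖D'‖ + 1))) (by positivity)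
    simpa only [dist_eq_norm] using this
  have hev2 : ∀ᶠ s in 𝓝[>] (0 : ℝ), IsUnit (1 - E s) := by
    have h1 : Tendsto (fun s => 1 - E s) (𝓝[>] 0) (𝓝 (1 - Y)) := tendsto_const_nhds.sub hEt
    exact h1.eventually (Units.isOpen.mem_nhds ⟨y1, rfl⟩)
  obtain ⟨s, ⟨hs1, hs2⟩, hs⟩ := ((hev1.and hev2).and self_mem_nhdsWithin).exists
  have hs0 : 0 < s := hs
  have hsne : s ≠ 0 := hs0.ne'
  -- the complex structure
  set J : (W × Z × W) →L[ℝ] (W × Z × W) := Js JZ s with hJdef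
  have hJ2 : ∀ x, J (J x) = -x := by
    intro x
    rw [hJdef]
    ext
    · simp [smul_smul, inv_mul_cancel₀ hsne]
    · simp [hJZ.sq]
    · simp [smul_smul, mul_inv_cancel₀ hsne]
  have hJP : Pres om J := by
    intro x y
    rw [form, form, hJdef]
    simp only [Js_apply, map_smul, smul_apply, hJZ.pres x.2.1 y.2.1,
      smul_eq_mul]
    rw [qs x.2.2 y.1]
    field_simp
    ring
  have hCs : Cs om J := by
    refine ⟨hJ2, hJP, ?_⟩
    intro x hx
    rw [form, hJdef]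
    simp only [Js_apply, map_smul, smul_eq_mul]
    have hz : 0 ≤ ωZ x.2.1 (JZ x.2.1) := by
      by_cases h : x.2.1 = 0
      · rw [h]; simp
      · exact (hJZ.pos _ h).le
    have ha : 0 ≤ q x.1 x.1 := by
      by_cases h : x.1 = 0
      · rw [h]; simp
      · exact (qpos _ h).le
    have hb : 0 ≤ q x.2.2 x.2.2 := by
      by_cases h : x.2.2 = 0
      · rw [h]; simp
      · exact (qpos _ h).le
    have hsi : 0 < s⁻¹ := inv_pos.mpr hs0
    have ha' : 0 ≤ s * q x.1 x.1 := mul_nonneg hs0.le ha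
    have hb' : 0 ≤ s⁻¹ * q x.2.2 x.2.2 := mul_nonneg hsi.le hb
    have hx' : x.1 ≠ 0 ∨ x.2.1 ≠ 0 ∨ x.2.2 ≠ 0 := by
      by_contra hcon
      push Not at hcon
      apply hx
      ext
      · exact hcon.1
      · exact hcon.2.1
      · exact hcon.2.2
    rcases hx' with h | h | h
    · have := mul_pos hs0 (qpos _ h); linarith
    · have := hJZ.pos _ h; linarith
    · have := mul_pos hsi (qpos _ h); linarith
  have hEJ : ∀ x, E s x = Y x - J (Y (J x)) := by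
    intro x
    show Y x - s • F1 JZ y12 y23 x - (s ^ 2) • (F2 y13 : (W × Z × W) →L[ℝ] (W × Z × W)) x = _
    rw [hJdef, hY]
    ext
    · simp
    · simp
    · show (0 : W) - s • y12 (JZ x.2.1) - s ^ 2 • y13 x.1 =
        0 - s • (y12 (JZ x.2.1) + y13 (s • x.1))
      rw [map_smul]
      module
  have hJskew : ∀ x y, om (J x) y = - om x (J y) := by
    intro x y
    have := hJP (J x) y
    rw [hJ2] at this
    rw [← this]; simp
  have hEskew : ∀ x y, om (E s x) y = - om x (E s y) := by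
    intro x y
    rw [hEJ, hEJ]
    simp only [map_sub, sub_apply]
    rw [hYskew x y, hJskew, hYskew (J x) (J y), hJskew x (Y (J y))]
    ring
  have hEcomm : ∀ x, E s (J x) = J (E s x) := by
    intro x
    rw [hEJ, hEJ, hJ2, map_sub, hJ2, map_neg, map_neg]
    abel
  obtain ⟨hC1, hC2⟩ := cayley om (E s) J hEskew hEcomm hs2
  set C : (W × Z × W) →L[ℝ] (W × Z × W) := (1 + E s) * Ring.inverse (1 - E s) with hC
  refine ⟨D' * C, J, ?_, ?_, hCs, ?_⟩
  · rw [← hDK]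
    exact est D' (Dg A LZ) C K0 ε _ hs1 (Dg_sub_norm A LZ LZ') hLZ'
  · intro x y
    show om (D' (C x)) (D' (C y)) = om x y
    rw [← hC1 x y, form, form (C x) (C y), hD', Dg_apply, Dg_apply]
    show ωZ (LZ' (C x).2.1) (LZ' (C y).2.1) + q (A (C x).1) (A (C y).2.2) -
      q (A (C x).2.2) (A (C y).1) = _
    rw [hPZ', qpres, qpres]
  · intro x
    show D' (C (J x)) = J (D' (C x))
    rw [hC2, hD', hJdef]
    ext
    · simp
    · simp [hcomm]
    · simp

end STP_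

open STP_ in
theorem p_STP : T_STP := by
  intro V _ _ _ Ω L W Z q A LZ Φ hΩ hL hZ hB
  obtain ⟨form, qs, qpos, qpres, mapW, mapZ⟩ := hB
  let om : (W × Z × W) →L[ℝ] (W × Z × W) →L[ℝ] ℝ :=
    Ω.bilinearComp (Φ : (W × Z × W) →L[ℝ] V) (Φ : (W × Z × W) →L[ℝ] V)
  have hom : ∀ x y, om x y = Ω (Φ x) (Φ y) := fun x y => rfl
  let LX : (W × Z × W) →L[ℝ] (W × Z × W) :=
    (Φ.symm : V →L[ℝ] (W × Z × W)).comp (L.comp (Φ : (W × Z × W) →L[ℝ] V))
  have hLX : ∀ x, LX x = Φ.symm (L (Φ x)) := fun x => rfl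
  have hP : Pres om LX := by
    intro x y
    rw [hom, hom, hLX, hLX, ContinuousLinearEquiv.apply_symm_apply,
      ContinuousLinearEquiv.apply_symm_apply, hL]
  obtain ⟨h1, h2⟩ := coreX (rs Ω Z) q A LZ om LX hZ hP (fun x y => form x y) qs qpos qpres
    (fun a => by rw [hLX, mapW, ContinuousLinearEquiv.symm_apply_apply])
    (fun z => by
      obtain ⟨a, ha⟩ := mapZ z
      exact ⟨a, by rw [hLX, ha, ContinuousLinearEquiv.symm_apply_apply]⟩)
  exact ⟨h1, fun hG => transport Ω L om LX Φ hom hLX (h2 hG)⟩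

end Pool.Agent.Zex
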