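import Pool.Agent.Zex.Targets
import Pool.Agent.Tng.JET

/-!
# Volume preserving extension of a symplectic linear map
-/

set_option autoImplicit false

open Set MeasureTheory Filter Topology Metric Asymptotics
open scoped Manifold ContDiff

namespace Pool.Agent.Zex

open Pool.Agent.Pal (E Ch IsDiffeo IsVolume Rob Uni Mod Near Nbd OneSink ext)

namespace SYX_

/-- the Cayley transform tends to `0` at `1` -/
theorem cayley_tendsto (n : ℕ) : (∀ᶠ B : E n →L[ℝ] E n in 𝓝 1, IsUnit (B + 1)) ∧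
    Tendsto (fun B : E n →L[ℝ] E n => (B - 1) * Ring.inverse (B + 1)) (𝓝 1) (𝓝 0) := by
  have hu : IsUnit ((1 : E n →L[ℝ] E n) + 1) := by
    refine ⟨⟨1 + 1, (1 / 2 : ℝ) • (1 : E n →L[ℝ] E n), ?_, ?_⟩, rfl⟩
    · ext1 v
      simp only [mul_apply_eq_comp, smul_apply,
        one_apply_eq_self, ← two_smul ℝ, smul_smul]
      norm_num
    · ext1 v
      simp only [mul_apply_eq_comp, smul_apply,
        one_apply_eq_self, ← two_smul ℝ, smul_smul]
      norm_num
  have hadd : ContinuousAt (fun B : E n →L[ℝ] E n => B + 1) 1 := by fun_prop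
  obtain ⟨x, hx⟩ := hu
  constructor
  · have h1 : {y : E n →L[ℝ] E n | IsUnit y} ∈ 𝓝 ((x : (E n →L[ℝ] E n)ˣ) : E n →L[ℝ] E n) :=
      Units.nhds x
    rw [hx] at h1
    exact hadd h1
  · have h2 : ContinuousAt (Ring.inverse : (E n →L[ℝ] E n) → (E n →L[ℝ] E n)) (1 + 1) := by
      rw [← hx]
      exact NormedRing.inverse_continuousAt x
    have h3 : ContinuousAt (fun B : E n →L[ℝ] E n => Ring.inverse (B + 1)) 1 :=
      ContinuousAt.comp (g := Ring.inverse) h2 hadd
    have h4 : ContinuousAt (fun B : E n →L[ℝ] E n => (B - 1) * Ring.inverse (B + 1)) 1 :=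
      ContinuousAt.mul (by fun_prop) h3
    have h5 := h4.tendsto
    simpa using h5

/-- the Cayley transform of a symplectic map is skew -/
theorem cayley_skew {n : ℕ} {Ω : E n →L[ℝ] E n →L[ℝ] ℝ} {B Y : E n →L[ℝ] E n} (hB : Pres Ω B)
    (hu : IsUnit (B + 1)) (hY : Y = (B - 1) * Ring.inverse (B + 1)) :
    (∀ v w, Ω (Y v) w = -Ω v (Y w)) ∧ ∀ u, B (u - Y u) = u + Y u := by
  have h1 : (B + 1) * Ring.inverse (B + 1) = 1 := Ring.mul_inverse_cancel _ hu
  have h2 : Ring.inverse (B + 1) * (B + 1) = 1 := Ring.inverse_mul_cancel _ hu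
  have h3 : Y * (B + 1) = B - 1 := by rw [hY, mul_assoc, h2, mul_one]
  have h4 : (B + 1) * Y = B - 1 := by
    have e : (B + 1) * (B - 1) = (B - 1) * (B + 1) := by
      rw [mul_sub, add_mul, add_mul, mul_add, sub_mul, sub_mul]
      simp only [one_mul, mul_one]
      abel
    rw [hY, ← mul_assoc, e, mul_assoc, h1, mul_one]
  constructor
  · have hs : ∀ v, ∃ v', (B + 1) v' = v := by
      intro v
      refine ⟨Ring.inverse (B + 1) v, ?_⟩
      have := congrArg (fun T : E n →L[ℝ] E n => T v) h1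
      simpa using this
    have hY' : ∀ v', Y ((B + 1) v') = B v' - v' := by
      intro v'
      have := congrArg (fun T : E n →L[ℝ] E n => T v') h3
      simpa using this
    intro v w
    obtain ⟨v', rfl⟩ := hs v
    obtain ⟨w', rfl⟩ := hs w
    rw [hY', hY']
    have e1 : ∀ x : E n, (B + 1) x = B x + x := fun x => by simp
    rw [e1, e1]
    simp only [map_add, map_sub, add_apply, sub_apply]
    rw [hB v' w']
    ring
  · intro u
    have := congrArg (fun T : E n →L[ℝ] E n => T u) h4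
    simp only [mul_apply_eq_comp, add_apply, sub_apply,
      one_apply_eq_self] at this
    rw [map_sub]
    have e : B (Y u) = B u - u - Y u := by
      rw [← this]; abel
    rw [e]
    abel

end SYX_

open SYX_ in
theorem p_SYX (h1 : T_FAM) (h2 : T_HAM) (h3 : T_DTS) : T_SYX := by
  intro n Ω σ r δ hΩ hσ hδ
  obtain ⟨X, hX, hXoff, hXskew, hX0⟩ := h2 (E n) Ω σ hΩ hσ
  have hsmall : ∀ᶠ Y : E n →L[ℝ] E n in 𝓝 0, ∀ u,
      ‖iteratedFDeriv ℝ 1 (fun z => X (Y, z)) u‖ ≤ 1 / 2 := by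
    refine Pool.Agent.Tng.JET_.near_family X hX hX0 (closedBall 0 σ) (isCompact_closedBall 0 σ)
      (Eventually.of_forall fun Y u hu => hXoff Y u ?_) 1 (1 / 2) (by norm_num)
    rw [mem_closedBall_zero_iff, not_le] at hu
    exact hu.le
  obtain ⟨ρ, hρ, hρX⟩ : ∃ ρ : ℝ, 0 < ρ ∧ ∀ Y : E n →L[ℝ] E n, ‖Y‖ < ρ → ∀ u,
      ‖fderiv ℝ (fun z => X (Y, z)) u‖ ≤ 1 / 2 := by
    rw [Metric.eventually_nhds_iff] at hsmall
    obtain ⟨ρ, hρ, h⟩ := hsmall
    refine ⟨ρ, hρ, fun Y hY u => ?_⟩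
    have h4 := h (by rw [dist_zero_right]; exact hY) u
    rwa [norm_iteratedFDeriv_one] at h4
  let f : ContDiffBump (0 : E n →L[ℝ] E n) := ⟨ρ / 4, ρ / 2, by linarith, by linarith⟩
  have hf : ContDiff ℝ ∞ (f : (E n →L[ℝ] E n) → ℝ) := f.contDiff
  obtain ⟨θ, hθ⟩ : ∃ θ : (E n →L[ℝ] E n) → (E n →L[ℝ] E n), θ = fun Y => f Y • Y := ⟨_, rfl⟩
  have hθs : ContDiff ℝ ∞ θ := by rw [hθ]; exact hf.smul contDiff_id
  have hθn : ∀ Y, ‖θ Y‖ < ρ := by
    intro Y
    rw [hθ]
    by_cases hY : ‖Y‖ < ρ / 2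
    · calc ‖f Y • Y‖ = |f Y| * ‖Y‖ := norm_smul _ _
        _ ≤ 1 * ‖Y‖ := by
          apply mul_le_mul_of_nonneg_right _ (norm_nonneg _)
          rw [abs_of_nonneg f.nonneg]
          exact f.le_one
        _ < ρ := by linarith
    · have h4 : f Y = 0 := by
        refine f.zero_of_le_dist ?_
        rw [dist_zero_right]
        exact not_lt.mp hY
      have h5 : (f Y : ℝ) • Y = 0 := by rw [h4]; exact zero_smul ℝ Y
      show ‖(f Y : ℝ) • Y‖ < ρ
      rw [h5, norm_zero]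
      exact hρ
  have hθ1 : ∀ Y, ‖Y‖ < ρ / 4 → θ Y = Y := by
    intro Y hY
    have h4 : f Y = 1 := by
      apply f.one_of_mem_closedBall
      rw [mem_closedBall, dist_zero_right]
      exact hY.le
    rw [hθ]
    show (f Y : ℝ) • Y = Y
    rw [h4]
    exact one_smul ℝ Y
  have hθ0 : θ 0 = 0 := by
    exact hθ1 0 (by rw [norm_zero]; linarith)
  obtain ⟨G, hGdef⟩ : ∃ G : (E n →L[ℝ] E n) × E n → E n, G = fun p => -X (θ p.1, p.2) := ⟨_, rfl⟩
  have hXθ : ContDiff ℝ ∞ (fun p : (E n →L[ℝ] E n) × E n => X (θ p.1, p.2)) :=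
    hX.comp ((hθs.comp contDiff_fst).prodMk contDiff_snd)
  have hG : ContDiff ℝ ∞ G := by rw [hGdef]; exact hXθ.neg
  have hGd : ∀ (y : E n →L[ℝ] E n) (u : E n), ‖fderiv ℝ (fun w => G (y, w)) u‖ ≤ 1 / 2 := by
    intro y u
    rw [hGdef]
    have e : (fun w => (fun p : (E n →L[ℝ] E n) × E n => -X (θ p.1, p.2)) (y, w)) =
        fun w => -X (θ y, w) := rfl
    rw [e, fderiv_fun_neg, norm_neg]
    exact hρX (θ y) (hθn y) u
  obtain ⟨R, hR, hR1, hR2⟩ := h1 (E n →L[ℝ] E n) (E n) G hG hGd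
  obtain ⟨L, hLdef⟩ : ∃ L : (E n →L[ℝ] E n) × E n → E n, L = fun p => R p + X (θ p.1, R p) :=
    ⟨_, rfl⟩
  have hL : ContDiff ℝ ∞ L := by
    rw [hLdef]
    exact hR.add (hX.comp ((hθs.comp contDiff_fst).prodMk hR))
  have hR1' : ∀ Y u, R (Y, u - X (θ Y, u)) = u := by
    intro Y u
    have h4 := hR1 Y u
    rw [hGdef] at h4
    rwa [← sub_eq_add_neg] at h4
  have hR2' : ∀ Y z, R (Y, z) - X (θ Y, R (Y, z)) = z := by
    intro Y z
    have h4 := hR2 Y z
    rw [hGdef] at h4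
    rwa [← sub_eq_add_neg] at h4
  have hL1 : ∀ Y u, L (Y, u - X (θ Y, u)) = u + X (θ Y, u) := by
    intro Y u
    rw [hLdef]
    show R (Y, u - X (θ Y, u)) + X (θ Y, R (Y, u - X (θ Y, u))) = _
    rw [hR1' Y u]
  have hL0 : ∀ z, L (0, z) = z := by
    intro z
    have h4 := hL1 0 z
    rw [hθ0, hX0, sub_zero, add_zero] at h4
    exact h4
  have hLoff : ∀ Y z, z ∉ closedBall (0 : E n) σ → L (Y, z) = z := by
    intro Y z hz
    rw [mem_closedBall_zero_iff, not_le] at hz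
    have h4 := hL1 Y z
    rw [hXoff (θ Y) z hz.le, sub_zero, add_zero] at h4
    exact h4
  have hnear : ∀ᶠ Y : E n →L[ℝ] E n in 𝓝 0, ∀ j ∈ {j : ℕ | j ≤ r}, ∀ y,
      ‖iteratedFDeriv ℝ j (fun z => L (Y, z) - z) y‖ ≤ δ := by
    rw [Filter.eventually_all_finite (Set.finite_le_nat r)]
    intro j _
    exact Pool.Agent.Tng.JET_.near_family (fun q : (E n →L[ℝ] E n) × E n => L q - q.2)
      (hL.sub contDiff_snd) (fun y => by
        show L (0, y) - y = 0
        rw [hL0, sub_self])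
      (closedBall 0 σ) (isCompact_closedBall 0 σ)
      (Eventually.of_forall fun Y z hz => by
        show L (Y, z) - z = 0
        rw [hLoff Y z hz, sub_self]) j δ hδ
  have hball : ∀ᶠ Y : E n →L[ℝ] E n in 𝓝 0, ‖Y‖ < ρ / 4 := by
    have h4 : ball (0 : E n →L[ℝ] E n) (ρ / 4) ∈ 𝓝 (0 : E n →L[ℝ] E n) :=
      ball_mem_nhds _ (by linarith)
    filter_upwards [h4] with Y hY
    rwa [mem_ball_zero_iff] at hY
  obtain ⟨hcu, hct⟩ := cayley_tendsto n
  have hall := hcu.and (hct.eventually (hnear.and hball))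
  rw [Metric.eventually_nhds_iff] at hall
  obtain ⟨ε, hε, hall⟩ := hall
  refine ⟨ε / 2, by linarith, ?_⟩
  intro B hB hBn
  obtain ⟨hBu, hBnear, hBρ⟩ := hall (y := B) (by
    rw [dist_eq_norm]
    have : ‖B - 1‖ ≤ ε / 2 := hBn
    linarith)
  obtain ⟨Y, hYdef⟩ : ∃ Y : E n →L[ℝ] E n, Y = (B - 1) * Ring.inverse (B + 1) := ⟨_, rfl⟩
  obtain ⟨hYs, hYB⟩ := cayley_skew hB hBu hYdef
  rw [← hYdef] at hBnear hBρ
  have hθY : θ Y = Y := hθ1 Y hBρ
  obtain ⟨hXlin, hXS⟩ := hXskew Y hYs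
  have hXYs : ContDiff ℝ ∞ (fun w => X (Y, w)) := hX.comp (contDiff_const.prodMk contDiff_id)
  have hXYd : Differentiable ℝ (fun w => X (Y, w)) := hXYs.differentiable (by simp)
  have hRYs : ContDiff ℝ ∞ (fun z => R (Y, z)) := hR.comp (contDiff_const.prodMk contDiff_id)
  have hRYd : Differentiable ℝ (fun z => R (Y, z)) := hRYs.differentiable (by simp)
  have hLYs : ContDiff ℝ ∞ (fun z => L (Y, z)) := hL.comp (contDiff_const.prodMk contDiff_id)
  have hLYd : Differentiable ℝ (fun z => L (Y, z)) := hLYs.differentiable (by simp)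
  refine ⟨fun z => L (Y, z), ⟨hLYs, fun z hz => hLoff Y z hz⟩, fun j hj z => hBnear j hj z, ?_, ?_⟩
  · intro z
    obtain ⟨u, hu⟩ : ∃ u, u = R (Y, z) := ⟨_, rfl⟩
    have hz : u - X (Y, u) = z := by
      have h4 := hR2' Y z
      rw [hθY, ← hu] at h4
      exact h4
    obtain ⟨S, hS⟩ : ∃ S, S = fderiv ℝ (fun w => X (Y, w)) u := ⟨_, rfl⟩
    have dX : HasFDerivAt (fun w => X (Y, w)) S u := by rw [hS]; exact (hXYd u).hasFDerivAt
    have dP : HasFDerivAt (fun w => w - X (Y, w)) (ContinuousLinearMap.id ℝ (E n) - S) u :=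
      (hasFDerivAt_id u).sub dX
    have dQ : HasFDerivAt (fun w => w + X (Y, w)) (ContinuousLinearMap.id ℝ (E n) + S) u :=
      (hasFDerivAt_id u).add dX
    have dL : HasFDerivAt (fun z => L (Y, z)) (fderiv ℝ (fun z => L (Y, z)) z) (u - X (Y, u)) := by
      rw [hz]; exact (hLYd z).hasFDerivAt
    have dR : HasFDerivAt (fun z => R (Y, z)) (fderiv ℝ (fun z => R (Y, z)) z) (u - X (Y, u)) := by
      rw [hz]; exact (hRYd z).hasFDerivAt
    have c1 := dL.comp u dP
    have c2 := dR.comp u dP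
    have e1 : (fun z => L (Y, z)) ∘ (fun w => w - X (Y, w)) = fun w => w + X (Y, w) := by
      funext w
      have h4 := hL1 Y w
      rw [hθY] at h4
      exact h4
    have e2 : (fun z => R (Y, z)) ∘ (fun w => w - X (Y, w)) = fun w => w := by
      funext w
      have h4 := hR1' Y w
      rw [hθY] at h4
      exact h4
    rw [e1] at c1
    rw [e2] at c2
    have u1 := c1.unique dQ
    have u2 := c2.unique (hasFDerivAt_id u)
    have hcomp : ∀ A B : E n →L[ℝ] E n, (A ∘L B).det = A.det * B.det := by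
      intro A B
      simp only [ContinuousLinearMap.det]
      exact LinearMap.det_comp _ _
    have d1 := congrArg ContinuousLinearMap.det u1
    have d2 := congrArg ContinuousLinearMap.det u2
    rw [hcomp] at d1 d2
    have d3 : (ContinuousLinearMap.id ℝ (E n)).det = 1 := by
      simp [ContinuousLinearMap.det]
    have d4 := h3 (E n) Ω S hΩ (fun v w => by rw [hS]; exact hXS u v w)
    rw [d3] at d2
    rw [d4] at d1
    have d5 : (ContinuousLinearMap.id ℝ (E n) - S).det ≠ 0 := by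
      intro h
      rw [h, mul_zero] at d2
      exact zero_ne_one d2
    have d6 : (fderiv ℝ (fun z => L (Y, z)) z).det * (ContinuousLinearMap.id ℝ (E n) - S).det =
        1 * (ContinuousLinearMap.id ℝ (E n) - S).det := by
      rw [d1, one_mul]
    exact mul_right_cancel₀ d5 d6
  · have hX00 : X (Y, 0) = 0 := by
      have := hXlin.self_of_nhds
      rw [map_zero] at this
      exact this
    have hR0 : R (Y, 0) = 0 := by
      have h4 := hR1' Y 0
      rw [hθY, hX00, sub_zero] at h4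
      exact h4
    have hRc : ContinuousAt (fun z => R (Y, z)) 0 := hRYd.continuous.continuousAt
    have ht : Tendsto (fun z => R (Y, z)) (𝓝 0) (𝓝 0) := by
      have := hRc.tendsto
      rw [hR0] at this
      exact this
    filter_upwards [ht.eventually hXlin] with z hz
    have h4 := hR2' Y z
    have h5 := hL1 Y (R (Y, z))
    rw [h4] at h5
    rw [hθY, hz] at h4 h5
    rw [h5, ← hYB, h4]

end Pool.Agent.Zex
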