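import Pool.Agent.Zex.Targets

/-!
# ZEX-TAY: the leading term of a `C^j` map
-/

set_option autoImplicit false

open Set Filter Topology Metric Asymptotics

namespace Pool.Agent.Zex

namespace TAY_

variable {V : Type} [NormedAddCommGroup V] [NormedSpace ℝ V]
variable {F : Type} [NormedAddCommGroup F] [NormedSpace ℝ F]

/-- homogeneous polynomial maps of degree `k` with values in `F` -/
def HF (V F : Type) [NormedAddCommGroup V] [NormedSpace ℝ V] [NormedAddCommGroup F]
    [NormedSpace ℝ F] (k : ℕ) (u : V → F) : Prop :=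
  ∃ M : MultilinearMap ℝ (fun _ : Fin k => V) F, ∀ z, u z = M fun _ => z

theorem hf_const (c : F) : HF V F 0 (fun _ => c) :=
  ⟨MultilinearMap.constOfIsEmpty ℝ _ c, fun z => by simp⟩

theorem hf_apply {k : ℕ} {p : V → (V →L[ℝ] F)} (hp : HF V (V →L[ℝ] F) k p) (a : ℝ) :
    HF V F (k + 1) (fun z => a • (p z z)) := by
  obtain ⟨M, hM⟩ := hp
  let M1 : MultilinearMap ℝ (fun _ : Fin k => V) (V →ₗ[ℝ] F) :=
    (ContinuousLinearMap.coeLM ℝ).compMultilinearMap M
  let M2 : MultilinearMap ℝ (fun _ : Fin (k + 1) => V) F :=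
    MultilinearMap.uncurryRight (M := fun _ : Fin (k + 1) => V) M1
  refine ⟨a • M2, fun z => ?_⟩
  show a • (p z z) = a • M2 fun _ => z
  rw [hM z]
  rfl

theorem hf_hom {k : ℕ} {p : V → F} (hp : HF V F k p) (t : ℝ) (z : V) :
    p (t • z) = t ^ k • p z := by
  obtain ⟨M, hM⟩ := hp
  rw [hM, hM]
  have := M.map_smul_univ (fun _ => t) (fun _ => z)
  simpa using this

theorem tayF (r : ℕ) : ∀ (F : Type) [NormedAddCommGroup F] [NormedSpace ℝ F] (f : V → F),
    ContDiffAt ℝ r f 0 → ∃ u : ℕ → V → F, (∀ k, HF V F k (u k)) ∧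
      (fun z => f z - ∑ k ∈ Finset.range (r + 1), u k z) =o[𝓝 0] (fun z => ‖z‖ ^ r) := by
  induction r with
  | zero =>
    intro F _ _ f hf
    refine ⟨fun k => if k = 0 then fun _ => f 0 else 0, fun k => ?_, ?_⟩
    · by_cases hk : k = 0
      · subst hk
        simpa using hf_const (V := V) (f 0)
      · simp only [hk, if_false]
        exact ⟨0, fun z => rfl⟩
    · simp only [zero_add, Finset.range_one, Finset.sum_singleton, if_true, pow_zero]
      rw [isLittleO_one_iff]
      have h := hf.continuousAt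
      have h2 : Tendsto (fun z => f z - f 0) (𝓝 0) (𝓝 (f 0 - f 0)) :=
        h.tendsto.sub tendsto_const_nhds
      simpa using h2
  | succ r ih =>
    intro F _ _ f hf
    have hf2 : ContDiffAt ℝ ((r : ℕ∞) + 1 : ℕ∞) f 0 := by exact_mod_cast hf
    have hf3 : ContDiffAt ℝ ((r : WithTop ℕ∞) + 1) f 0 := by exact_mod_cast hf
    rw [contDiffAt_succ_iff_hasFDerivAt] at hf3
    obtain ⟨f', ⟨W, hW, hWd⟩, hf'⟩ := hf3
    obtain ⟨u', hu', ho⟩ := ih _ f' hf'
    refine ⟨fun k => Nat.casesOn k (fun _ => f 0) (fun k => fun z => (1 / ((k : ℝ) + 1)) • (u' k z z)),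
      ?_, ?_⟩
    · rintro (_ | k)
      · exact hf_const (f 0)
      · exact hf_apply (hu' k) _
    · rw [isLittleO_iff]
      intro c hc
      have h1 := (isLittleO_iff.1 ho) hc
      obtain ⟨δ, hδ, hb⟩ := Metric.mem_nhds_iff.1 (inter_mem h1 hW)
      filter_upwards [Metric.ball_mem_nhds (0 : V) hδ] with z hz
      rw [Finset.sum_range_succ']
      show ‖f z - (∑ k ∈ Finset.range (r + 1), (1 / ((k : ℝ) + 1)) • (u' k z z) + f 0)‖ ≤
        c * ‖‖z‖ ^ (r + 1)‖
      have hzt : ∀ t ∈ Icc (0 : ℝ) 1, t • z ∈ Metric.ball (0 : V) δ := by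
        intro t ht
        rw [mem_ball_zero_iff] at hz ⊢
        rw [norm_smul, Real.norm_eq_abs, abs_of_nonneg ht.1]
        calc t * ‖z‖ ≤ 1 * ‖z‖ := mul_le_mul_of_nonneg_right ht.2 (norm_nonneg _)
          _ < δ := by rw [one_mul]; exact hz
      have key := norm_image_sub_le_of_norm_deriv_le_segment_01'
        (f := fun t : ℝ => f (t • z) - ∑ k ∈ Finset.range (r + 1),
          (t ^ (k + 1) / ((k : ℝ) + 1)) • (u' k z z))
        (f' := fun t : ℝ => f' (t • z) z - ∑ k ∈ Finset.range (r + 1), t ^ k • (u' k z z))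
        (C := c * ‖z‖ ^ (r + 1)) ?_ ?_
      · have e : f z - (∑ k ∈ Finset.range (r + 1), (1 / ((k : ℝ) + 1)) • (u' k z z) + f 0) =
            (f ((1 : ℝ) • z) - ∑ k ∈ Finset.range (r + 1),
              ((1 : ℝ) ^ (k + 1) / ((k : ℝ) + 1)) • (u' k z z)) -
            (f ((0 : ℝ) • z) - ∑ k ∈ Finset.range (r + 1),
              ((0 : ℝ) ^ (k + 1) / ((k : ℝ) + 1)) • (u' k z z)) := by
          simp
          abel
        rw [e]
        refine key.trans (le_of_eq ?_)
        rw [Real.norm_eq_abs, abs_of_nonneg (by positivity)]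
      · intro t ht
        refine HasDerivAt.hasDerivWithinAt ?_
        refine HasDerivAt.sub ?_ ?_
        · have hd := (hb (hzt t ht)).2
          have h2 := hWd _ hd
          have h3 : HasDerivAt (fun t : ℝ => t • z) z t := by
            simpa using (hasDerivAt_id t).smul_const z
          exact h2.comp_hasDerivAt t h3
        · refine HasDerivAt.fun_sum fun k _ => ?_
          have h4 : HasDerivAt (fun t : ℝ => t ^ (k + 1) / ((k : ℝ) + 1)) (t ^ k) t := by
            have := (hasDerivAt_pow (k + 1) t).div_const ((k : ℝ) + 1)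
            refine this.congr_deriv ?_
            have : ((k : ℝ) + 1) ≠ 0 := by positivity
            push_cast
            field_simp
          exact h4.smul_const _
      · intro t ht
        have ht' : t ∈ Icc (0 : ℝ) 1 := ⟨ht.1, ht.2.le⟩
        have h5 := (hb (hzt t ht')).1
        change ‖f' (t • z) - ∑ k ∈ Finset.range (r + 1), u' k (t • z)‖ ≤ c * ‖‖t • z‖ ^ r‖ at h5
        have e2 : f' (t • z) z - ∑ k ∈ Finset.range (r + 1), t ^ k • (u' k z z) =
            (f' (t • z) - ∑ k ∈ Finset.range (r + 1), u' k (t • z)) z := by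
          rw [_root_.sub_apply, _root_.sum_apply]
          congr 1
          refine Finset.sum_congr rfl fun k _ => ?_
          rw [hf_hom (hu' k) t z, _root_.smul_apply]
        rw [e2]
        refine (ContinuousLinearMap.le_opNorm _ _).trans ?_
        rw [pow_succ, ← mul_assoc]
        refine mul_le_mul_of_nonneg_right (h5.trans ?_) (norm_nonneg _)
        rw [Real.norm_eq_abs, abs_of_nonneg (by positivity)]
        refine mul_le_mul_of_nonneg_left ?_ hc.le
        refine pow_le_pow_left₀ (norm_nonneg _) ?_ _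
        rw [norm_smul, Real.norm_eq_abs, abs_of_nonneg ht.1]
        calc t * ‖z‖ ≤ 1 * ‖z‖ := mul_le_mul_of_nonneg_right ht.2.le (norm_nonneg _)
          _ = ‖z‖ := one_mul _

/-- coefficients of a small polynomial vanish -/
theorem coef0 (n : ℕ) : ∀ a : ℕ → F,
    (fun t : ℝ => ∑ k ∈ Finset.range n, t ^ k • a k) =o[𝓝[>] 0] (fun t : ℝ => t ^ (n - 1)) →
    ∀ k < n, a k = 0 := by
  induction n with
  | zero => intro a _ k hk; omega
  | succ n ih =>
    intro a h
    rw [Nat.add_sub_cancel] at h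
    have hl : Tendsto (fun t : ℝ => ∑ k ∈ Finset.range (n + 1), t ^ k • a k) (𝓝[>] 0) (𝓝 0) := by
      have hb : (fun t : ℝ => t ^ n) =O[𝓝[>] 0] (fun _ : ℝ => (1 : ℝ)) := by
        have : Tendsto (fun t : ℝ => t ^ n) (𝓝[>] 0) (𝓝 (0 ^ n)) :=
          ((continuous_pow n).tendsto 0).mono_left nhdsWithin_le_nhds
        exact this.isBigO_one ℝ
      exact (isLittleO_one_iff ℝ).1 (h.trans_isBigO hb)
    have hl2 : Tendsto (fun t : ℝ => ∑ k ∈ Finset.range (n + 1), t ^ k • a k) (𝓝[>] 0)
        (𝓝 (∑ k ∈ Finset.range (n + 1), (0 : ℝ) ^ k • a k)) := by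
      refine Tendsto.mono_left ?_ nhdsWithin_le_nhds
      have hc : Continuous fun t : ℝ => ∑ k ∈ Finset.range (n + 1), t ^ k • a k := by fun_prop
      exact hc.tendsto 0
    have h0 : a 0 = 0 := by
      have e := tendsto_nhds_unique hl2 hl
      rw [Finset.sum_range_succ'] at e
      simpa using e
    rcases Nat.eq_zero_or_pos n with hn | hn
    · subst hn
      intro k hk
      have : k = 0 := by omega
      rw [this]; exact h0
    · have h1 : (fun t : ℝ => ∑ k ∈ Finset.range n, t ^ k • a (k + 1)) =o[𝓝[>] 0]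
          (fun t : ℝ => t ^ (n - 1)) := by
        have h2 := (isBigO_refl (fun t : ℝ => t⁻¹) (𝓝[>] 0)).smul_isLittleO h
        refine h2.congr' ?_ ?_
        · filter_upwards [self_mem_nhdsWithin] with t ht
          have ht0 : t ≠ 0 := ne_of_gt ht
          rw [Finset.sum_range_succ', h0, smul_zero, add_zero, Finset.smul_sum]
          refine Finset.sum_congr rfl fun k _ => ?_
          rw [smul_smul, pow_succ, mul_comm, mul_assoc, mul_inv_cancel₀ ht0, mul_one]
        · filter_upwards [self_mem_nhdsWithin] with t ht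
          have ht0 : t ≠ 0 := ne_of_gt ht
          obtain ⟨m, rfl⟩ := Nat.exists_eq_succ_of_ne_zero hn.ne'
          rw [smul_eq_mul, Nat.succ_eq_add_one, Nat.add_sub_cancel, pow_succ, mul_comm,
            mul_assoc, mul_inv_cancel₀ ht0, mul_one]
      intro k hk
      rcases Nat.eq_zero_or_pos k with hk0 | hk0
      · rw [hk0]; exact h0
      · obtain ⟨m, rfl⟩ := Nat.exists_eq_succ_of_ne_zero hk0.ne'
        exact ih (fun k => a (k + 1)) h1 m (by omega)

end TAY_

open TAY_

theorem p_TAY : T_TAY := by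
  intro V _ _ _ j u hj hu ho
  obtain ⟨w, hw, hlo⟩ := tayF j V u hu
  have hzero : ∀ z, ∀ k < j, w k z = 0 := by
    intro z
    apply coef0 j (fun k => w k z)
    have ht : Tendsto (fun t : ℝ => t • z) (𝓝[>] 0) (𝓝 0) := by
      have hc : Continuous fun t : ℝ => t • z := by fun_prop
      have := hc.tendsto 0
      rw [zero_smul] at this
      exact this.mono_left nhdsWithin_le_nhds
    have hb : ∀ m : ℕ, (fun t : ℝ => ‖t • z‖ ^ m) =O[𝓝[>] 0] (fun t : ℝ => t ^ m) := by
      intro m
      refine IsBigO.of_bound (‖z‖ ^ m) ?_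
      filter_upwards [self_mem_nhdsWithin] with t ht
      have ht0 : (0 : ℝ) < t := ht
      rw [norm_pow, norm_norm, norm_smul, norm_pow, mul_pow, mul_comm]
    have hlow : (fun t : ℝ => t ^ j) =o[𝓝[>] 0] (fun t : ℝ => t ^ (j - 1)) := by
      have h1 := isLittleO_pow_pow (𝕜 := ℝ) (show j - 1 < j by omega)
      exact h1.mono nhdsWithin_le_nhds
    have a1 : (fun t : ℝ => u (t • z)) =o[𝓝[>] 0] (fun t : ℝ => t ^ (j - 1)) :=
      (ho.comp_tendsto ht).trans_isBigO (hb (j - 1))
    have a2 : (fun t : ℝ => u (t • z) - ∑ k ∈ Finset.range (j + 1), w k (t • z)) =o[𝓝[>] 0]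
        (fun t : ℝ => t ^ (j - 1)) :=
      ((hlo.comp_tendsto ht).trans_isBigO (hb j)).trans hlow
    have a3 : (fun t : ℝ => t ^ j • w j z) =o[𝓝[>] 0] (fun t : ℝ => t ^ (j - 1)) := by
      have h2 := hlow.smul_isBigO (isBigO_refl (fun _ : ℝ => w j z) (𝓝[>] 0))
      have h3 : (fun t : ℝ => t ^ (j - 1) • w j z) =O[𝓝[>] 0] (fun t : ℝ => t ^ (j - 1)) := by
        refine IsBigO.of_bound ‖w j z‖ (Eventually.of_forall fun t => ?_)
        rw [norm_smul, mul_comm]
      exact h2.trans_isBigO h3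
    have a4 := (a1.sub a2).sub a3
    refine a4.congr_left (fun t => ?_)
    rw [Finset.sum_range_succ, sub_sub_cancel, hf_hom (hw j) t z, add_sub_cancel_right]
    refine Finset.sum_congr rfl fun k _ => ?_
    rw [hf_hom (hw k) t z]
  obtain ⟨M, hM⟩ := hw j
  refine ⟨w j, ⟨M, ?_⟩, ?_⟩
  · funext z
    exact (hM z).symm
  · refine hlo.congr_left (fun z => ?_)
    rw [Finset.sum_range_succ, Finset.sum_eq_zero (fun k hk => hzero z k (Finset.mem_range.1 hk)),
      zero_add]

end Pool.Agent.Zex
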