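import Pool.Agent.Zex.Targets
import Pool.Agent.Pal.VOL

/-!
# ZEX: TRL, a chart in which the measure is Lebesgue measure can be translated
-/

set_option autoImplicit false

open Set MeasureTheory Filter Topology Metric Asymptotics
open scoped Manifold ContDiff

namespace Pool.Agent.Zex

open Pool.Agent.Pal (E Ch IsDiffeo IsVolume Rob Uni Mod Near Nbd OneSink ext)
open Pool.Agent.Pal.VOL_ (uni_trans trans_src trans_app)

theorem p_TRL : T_TRL := by
  intro n M _ _ _ _ _ μ e p he _
  refine ⟨e.trans (Homeomorph.addRight (-(e p))).toOpenPartialHomeomorph, uni_trans he _,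
    trans_src e _, ?_, ?_⟩
  · intro x
    rw [trans_app, sub_eq_add_neg]
  · intro y
    simp [Homeomorph.addRight]

end Pool.Agent.Zex
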