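import Pool.Agent.Zex.Targets

/-!
# ZEX: VAR, first variation of the area of a closed curve
-/

set_option autoImplicit false

open Set MeasureTheory Filter Topology Metric Asymptotics
open scoped Manifold ContDiff

namespace Pool.Agent.Zex

namespace VAR_

variable {V : Type} [NormedAddCommGroup V] [NormedSpace ℝ V]

theorem anti (Ω : V →L[ℝ] V →L[ℝ] ℝ) (h : ∀ v, Ω v v = 0) (v w : V) : Ω v w = -Ω w v := by
  have h1 := h (v + w)
  simp only [map_add, add_apply, h v, h w] at h1
  linarith

theorem cont (Ω : V →L[ℝ] V →L[ℝ] ℝ) {f g : ℝ → V} (hf : Continuous f) (hg : Continuous g) :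
    Continuous fun t => Ω (f t) (g t) :=
  (Ω.continuous.comp hf).clm_apply hg

end VAR_

open VAR_ in
theorem p_VAR : T_VAR := by
  intro V _ _ Ω a b hΩ ha hb ha0 hb0
  have hca : Continuous a := ha.continuous
  have hcb : Continuous b := hb.continuous
  have hca' : Continuous (deriv a) := ha.continuous_deriv le_rfl
  have hcb' : Continuous (deriv b) := hb.continuous_deriv le_rfl
  have hda : ∀ t, HasDerivAt a (deriv a t) t := fun t =>
    (ha.differentiable (by norm_num) t).hasDerivAt
  have hdb : ∀ t, HasDerivAt b (deriv b t) t := fun t =>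
    (hb.differentiable (by norm_num) t).hasDerivAt
  have hd : ∀ t, HasDerivAt (fun s => Ω (a s) (b s)) (Ω (deriv a t) (b t) + Ω (a t) (deriv b t))
      t := by
    intro t
    have h1 : HasDerivAt (fun s => Ω (a s)) (Ω (deriv a t)) t :=
      (Ω.hasFDerivAt (x := a t)).comp_hasDerivAt t (hda t)
    exact h1.clm_apply (hdb t)
  have hI : ∫ t in (0 : ℝ)..(2 * Real.pi), (Ω (deriv a t) (b t) + Ω (a t) (deriv b t)) = 0 := by
    rw [intervalIntegral.integral_eq_sub_of_hasDerivAt (fun t _ => hd t)
      (((cont Ω hca' hcb).add (cont Ω hca hcb')).intervalIntegrable _ _), ← ha0, ← hb0, sub_self]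
  have i1 := (cont Ω hcb hcb').intervalIntegrable (μ := volume) 0 (2 * Real.pi)
  have i2 := (cont Ω hca hca').intervalIntegrable (μ := volume) 0 (2 * Real.pi)
  have i3 : IntervalIntegrable (fun t => Ω (b t - a t) (deriv a t + deriv b t)) volume 0
      (2 * Real.pi) :=
    (cont Ω (hcb.sub hca) (hca'.add hcb')).intervalIntegrable (μ := volume) 0 (2 * Real.pi)
  rw [← sub_eq_zero, ← intervalIntegral.integral_sub i1 i2,
    ← intervalIntegral.integral_sub (i1.sub i2) i3]
  refine Eq.trans ?_ hI
  apply intervalIntegral.integral_congr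
  intro t _
  simp only [map_sub, map_add, sub_apply]
  rw [anti Ω hΩ (b t) (deriv a t)]
  ring

end Pool.Agent.Zex
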