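import Pool.Agent.Pal.FINAL
import Pool.Agent.Zex.GRW
import Pool.Agent.Zex.INV
import Pool.Agent.Zex.EV
import Pool.Agent.Zex.PLA
import Pool.Agent.Zex.SPL
import Pool.Agent.Zex.STP
import Pool.Agent.Zex.LA
import Pool.Agent.Zex.BDD
import Pool.Agent.Zex.DNS
import Pool.Agent.Zex.LIN
import Pool.Agent.Zex.HPF
import Pool.Agent.Zex.TAY
import Pool.Agent.Zex.COH
import Pool.Agent.Zex.NF
import Pool.Agent.Zex.VAR
import Pool.Agent.Zex.ARE
import Pool.Agent.Zex.ACT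
import Pool.Agent.Zex.ANV
import Pool.Agent.Zex.SBK
import Pool.Agent.Zex.FAM
import Pool.Agent.Zex.DTS
import Pool.Agent.Zex.HAM
import Pool.Agent.Zex.SYX
import Pool.Agent.Zex.TRL
import Pool.Agent.Zex.MAIN6

/-!
# Symplectic periodic points all of whose exponents vanish: assembly
-/

set_option autoImplicit false

namespace Pool.Agent.Zex

theorem tLIN : T_LIN := p_LIN (p_LA p_INV p_EV p_PLA p_SPL p_STP) (p_DNS p_BDD)

theorem tNF : T_NF := p_NF p_HPF p_TAY (p_COH p_HPF p_BDD p_INV)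

theorem tANV : T_ANV := p_ANV p_VAR (p_ARE p_VAR) p_BDD

theorem tSBK : T_SBK := p_SBK tNF p_ACT tANV

theorem tSYX : T_SYX := p_SYX p_FAM p_HAM p_DTS

theorem tMAIN6 : T_MAIN6 := p_MAIN6 p_GRW p_INV tLIN tSBK tSYX p_TRL Pool.Agent.Pal.tEXT
  Pool.Agent.Pal.diff1 Pool.Agent.Pal.tVOLP Pool.Agent.Pal.tMAIN3

end Pool.Agent.Zex
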