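import Pool.Agent.Zex.Targets

/-!
# Target ACT: the action is smooth with a nondegenerate minimum
-/

set_option autoImplicit false

open Set MeasureTheory Filter Topology Metric Asymptotics
open scoped Manifold ContDiff

namespace Pool.Agent.Zex

namespace ACT_

/-- parametric integrals of functions of class `C^n` -/
theorem contDiff_param {E : Type} [NormedAddCommGroup E] [NormedSpace ℝ E]
    [FiniteDimensional ℝ E] (a b : ℝ) (n : ℕ) :
    ∀ (G : Type) [NormedAddCommGroup G] [NormedSpace ℝ G] [CompleteSpace G] (F : E × ℝ → G),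
    ContDiff ℝ n F → ContDiff ℝ n (fun x => ∫ s in a..b, F (x, s)) := by
  have : ProperSpace E := FiniteDimensional.proper ℝ E
  induction n with
  | zero =>
    intro G _ _ _ F hF
    rw [CharP.cast_eq_zero, contDiff_zero] at hF ⊢
    exact intervalIntegral.continuous_parametric_intervalIntegral_of_continuous'
      (f := fun x s => F (x, s)) hF a b
  | succ n ih =>
    intro G _ _ _ F hF
    have e : ((n + 1 : ℕ) : WithTop ℕ∞) = n + 1 := by push_cast; rfl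
    rw [e] at hF ⊢
    set F' : E × ℝ → E →L[ℝ] G := fun p => (fderiv ℝ F p).comp (ContinuousLinearMap.inl ℝ E ℝ)
      with hF'
    have hF'n : ContDiff ℝ n F' := (hF.fderiv_right le_rfl).clm_comp contDiff_const
    have hc : Continuous F' := hF'n.continuous
    rw [contDiff_succ_iff_hasFDerivAt]
    refine ⟨fun x => ∫ s in a..b, F' (x, s), ih _ F' hF'n, ?_⟩
    intro x₀
    obtain ⟨C, hC⟩ := ((isCompact_closedBall x₀ 1).prod
      (isCompact_uIcc (a := a) (b := b))).exists_bound_of_continuousOn (f := F')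
      hc.continuousOn
    refine intervalIntegral.hasFDerivAt_integral_of_dominated_of_fderiv_le
      (F := fun x s => F (x, s)) (F' := fun x s => F' (x, s)) (s := Metric.ball x₀ 1)
      (bound := fun _ => C) (Metric.ball_mem_nhds x₀ one_pos) ?_ ?_ ?_ ?_ ?_ ?_
    · refine Eventually.of_forall fun x => ?_
      exact (hF.continuous.comp (by fun_prop : Continuous fun s : ℝ => (x, s))).aestronglyMeasurable
    · exact (hF.continuous.comp
        (by fun_prop : Continuous fun s : ℝ => (x₀, s))).intervalIntegrable _ _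
    · exact (hc.comp (by fun_prop : Continuous fun s : ℝ => (x₀, s))).aestronglyMeasurable
    · refine Eventually.of_forall fun t ht x hx => hC (x, t) ⟨?_, ?_⟩
      · exact Metric.ball_subset_closedBall hx
      · exact uIoc_subset_uIcc ht
    · exact continuous_const.intervalIntegrable _ _
    · refine Eventually.of_forall fun t _ x _ => ?_
      have h1 : HasFDerivAt F (fderiv ℝ F (x, t)) (x, t) :=
        (hF.differentiable (by simp) (x, t)).hasFDerivAt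
      have h2 : HasFDerivAt (fun y : E => (y, t)) (ContinuousLinearMap.inl ℝ E ℝ) x :=
        hasFDerivAt_prodMk_left x t
      exact h1.comp x h2

theorem contDiff_param_infty {E : Type} [NormedAddCommGroup E] [NormedSpace ℝ E]
    [FiniteDimensional ℝ E] (a b : ℝ) {F : E × ℝ → ℝ} (hF : ContDiff ℝ ∞ F) :
    ContDiff ℝ ∞ (fun x => ∫ s in a..b, F (x, s)) := by
  rw [contDiff_infty] at hF ⊢
  exact fun n => contDiff_param a b n ℝ F (hF n)

variable {V : Type} [NormedAddCommGroup V] [NormedSpace ℝ V]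

theorem Rt_apply (J : V →L[ℝ] V) (t : ℝ) (z : V) :
    Rt J t z = Real.cos t • z + Real.sin t • J z := by
  simp [Rt]

theorem Rt_norm_le (J : V →L[ℝ] V) (t : ℝ) (z : V) : ‖Rt J t z‖ ≤ (1 + ‖J‖) * ‖z‖ := by
  rw [Rt_apply]
  calc ‖Real.cos t • z + Real.sin t • J z‖ ≤ ‖Real.cos t • z‖ + ‖Real.sin t • J z‖ :=
        norm_add_le _ _
    _ = |Real.cos t| * ‖z‖ + |Real.sin t| * ‖J z‖ := by
        rw [norm_smul, norm_smul, Real.norm_eq_abs, Real.norm_eq_abs]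
    _ ≤ 1 * ‖z‖ + 1 * (‖J‖ * ‖z‖) := by
        gcongr
        · exact Real.abs_cos_le_one t
        · exact Real.abs_sin_le_one t
        · exact J.le_opNorm z
    _ = (1 + ‖J‖) * ‖z‖ := by ring

theorem Rt_inv (J : V →L[ℝ] V) (hJ : ∀ v, J (J v) = -v) (t : ℝ) (z : V) :
    Rt J (-t) (Rt J t z) = z := by
  rw [Rt_apply, Rt_apply]
  simp only [map_add, map_smul, hJ, Real.cos_neg, Real.sin_neg, smul_add, smul_neg,
    smul_smul]
  have h := Real.sin_sq_add_cos_sq t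
  have h2 : z = (Real.sin t ^ 2 + Real.cos t ^ 2) • z := by rw [h, one_smul]
  nth_rewrite 5 [h2]
  rw [add_smul]
  module

theorem Rt_norm_ge (J : V →L[ℝ] V) (hJ : ∀ v, J (J v) = -v) (t : ℝ) (z : V) :
    ‖z‖ ≤ (1 + ‖J‖) * ‖Rt J t z‖ := by
  have := Rt_norm_le J (-t) (Rt J t z)
  rwa [Rt_inv J hJ] at this

/-- coercivity -/
theorem coer [FiniteDimensional ℝ V] (Ω : V →L[ℝ] V →L[ℝ] ℝ) (J : V →L[ℝ] V)
    (h : ∀ v, v ≠ 0 → 0 < Ω v (J v)) : ∃ κ : ℝ, 0 < κ ∧ ∀ v, κ * ‖v‖ ^ 2 ≤ Ω v (J v) := by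
  have : ProperSpace V := FiniteDimensional.proper ℝ V
  have hcont : Continuous fun v : V => Ω v (J v) := by fun_prop
  by_cases hne : (sphere (0 : V) 1).Nonempty
  · obtain ⟨w, hw, hmin⟩ := (isCompact_sphere (0 : V) 1).exists_isMinOn hne hcont.continuousOn
    have hw1 : ‖w‖ = 1 := by simpa using hw
    have hw0 : w ≠ 0 := by
      intro h0
      rw [h0, norm_zero] at hw1
      exact zero_ne_one hw1
    refine ⟨Ω w (J w), h w hw0, fun v => ?_⟩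
    by_cases hv : v = 0
    · simp [hv]
    have hvn : 0 < ‖v‖ := norm_pos_iff.mpr hv
    have hu : (‖v‖⁻¹ • v) ∈ sphere (0 : V) 1 := by
      rw [mem_sphere_zero_iff_norm, norm_smul, norm_inv, norm_norm, inv_mul_cancel₀ hvn.ne']
    have h1 : Ω w (J w) ≤ Ω (‖v‖⁻¹ • v) (J (‖v‖⁻¹ • v)) := hmin hu
    have h2 : Ω (‖v‖⁻¹ • v) (J (‖v‖⁻¹ • v)) = ‖v‖⁻¹ ^ 2 * Ω v (J v) := by
      simp only [map_smul, smul_apply, smul_eq_mul]
      ring
    rw [h2] at h1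
    calc Ω w (J w) * ‖v‖ ^ 2 ≤ ‖v‖⁻¹ ^ 2 * Ω v (J v) * ‖v‖ ^ 2 := by gcongr
      _ = Ω v (J v) := by field_simp
  · refine ⟨1, one_pos, fun v => ?_⟩
    by_cases hv : v = 0
    · simp [hv]
    exfalso
    apply hne
    have hvn : 0 < ‖v‖ := norm_pos_iff.mpr hv
    refine ⟨‖v‖⁻¹ • v, ?_⟩
    rw [mem_sphere_zero_iff_norm, norm_smul, norm_inv, norm_norm, inv_mul_cancel₀ hvn.ne']

/-- the integrand near `0` -/
theorem near (Ω : V →L[ℝ] V →L[ℝ] ℝ) (J : V →L[ℝ] V) (P : V → V) (hP : ContDiff ℝ ∞ P)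
    (hP0 : P 0 = 0) (hD : fderiv ℝ P 0 = ContinuousLinearMap.id ℝ V) (η : ℝ) (hη : 0 < η) :
    ∀ᶠ y in 𝓝 (0 : V), |Ω (P y) (fderiv ℝ P y (J y)) - Ω y (J y)| ≤ η * ‖y‖ ^ 2 := by
  set K : ℝ := ‖Ω‖ * ‖J‖ with hK
  have hK0 : 0 ≤ K := by positivity
  set ε : ℝ := min 1 (η / (3 * K + 3)) with hε
  have hε0 : 0 < ε := by
    rw [hε]
    positivity
  have hε1 : ε ≤ 1 := min_le_left _ _
  have hε2 : 3 * K * ε ≤ η := by
    have h1 : ε ≤ η / (3 * K + 3) := min_le_right _ _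
    calc 3 * K * ε ≤ 3 * K * (η / (3 * K + 3)) := by gcongr
      _ = (3 * K / (3 * K + 3)) * η := by ring
      _ ≤ 1 * η := by
        gcongr
        rw [div_le_one (by positivity)]
        linarith
      _ = η := one_mul η
  have hdiff : HasFDerivAt P (ContinuousLinearMap.id ℝ V) 0 := by
    rw [← hD]
    exact (hP.differentiable (by simp) 0).hasFDerivAt
  have e1 : ∀ᶠ y in 𝓝 (0 : V), ‖P y - y‖ ≤ ε * ‖y‖ := by
    have := hdiff.isLittleO.def hε0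
    simpa [hP0] using this
  have e2 : ∀ᶠ y in 𝓝 (0 : V), ‖fderiv ℝ P y - ContinuousLinearMap.id ℝ V‖ ≤ ε := by
    have hc : Continuous (fderiv ℝ P) := hP.continuous_fderiv (by simp)
    have h1 : ContinuousAt (fderiv ℝ P) 0 := hc.continuousAt
    have h2 := h1.eventually_mem (closedBall_mem_nhds _ hε0)
    filter_upwards [h2] with y hy
    rw [hD] at hy
    simpa [dist_eq_norm] using hy
  filter_upwards [e1, e2] with y h1 h2
  set A : V →L[ℝ] V := fderiv ℝ P y with hA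
  have h3 : Ω (P y) (A (J y)) - Ω y (J y) =
      Ω (P y - y) (A (J y)) + Ω y ((A - ContinuousLinearMap.id ℝ V) (J y)) := by
    simp only [map_sub, sub_apply, ContinuousLinearMap.id_apply]
    ring
  have h5 : ‖A (J y)‖ ≤ 2 * (‖J‖ * ‖y‖) := by
    have h6 : A (J y) = (A - ContinuousLinearMap.id ℝ V) (J y) + J y := by simp
    rw [h6]
    calc ‖(A - ContinuousLinearMap.id ℝ V) (J y) + J y‖
        ≤ ‖(A - ContinuousLinearMap.id ℝ V) (J y)‖ + ‖J y‖ := norm_add_le _ _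
      _ ≤ ‖A - ContinuousLinearMap.id ℝ V‖ * ‖J y‖ + ‖J y‖ := by
        gcongr
        exact ContinuousLinearMap.le_opNorm _ _
      _ ≤ 1 * ‖J y‖ + ‖J y‖ := by
        gcongr
        exact h2.trans hε1
      _ = 2 * ‖J y‖ := by ring
      _ ≤ 2 * (‖J‖ * ‖y‖) := by
        gcongr
        exact J.le_opNorm y
  rw [h3]
  calc |Ω (P y - y) (A (J y)) + Ω y ((A - ContinuousLinearMap.id ℝ V) (J y))|
      ≤ |Ω (P y - y) (A (J y))| + |Ω y ((A - ContinuousLinearMap.id ℝ V) (J y))| := abs_add_le _ _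
    _ ≤ ‖Ω‖ * ‖P y - y‖ * ‖A (J y)‖ +
        ‖Ω‖ * ‖y‖ * ‖(A - ContinuousLinearMap.id ℝ V) (J y)‖ := by
        gcongr
        · rw [← Real.norm_eq_abs]
          exact Ω.le_opNorm₂ _ _
        · rw [← Real.norm_eq_abs]
          exact Ω.le_opNorm₂ _ _
    _ ≤ ‖Ω‖ * (ε * ‖y‖) * (2 * (‖J‖ * ‖y‖)) + ‖Ω‖ * ‖y‖ * (ε * (‖J‖ * ‖y‖)) := by
        gcongr
        calc ‖(A - ContinuousLinearMap.id ℝ V) (J y)‖
            ≤ ‖A - ContinuousLinearMap.id ℝ V‖ * ‖J y‖ := ContinuousLinearMap.le_opNorm _ _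
          _ ≤ ε * (‖J‖ * ‖y‖) := by
            gcongr
            exact J.le_opNorm y
    _ = 3 * K * ε * ‖y‖ ^ 2 := by
        rw [hK]
        ring
    _ ≤ η * ‖y‖ ^ 2 := by gcongr

/-- the integrand -/
noncomputable def gg (Ω : V →L[ℝ] V →L[ℝ] ℝ) (J : V →L[ℝ] V) (P : V → V) (y : V) : ℝ :=
  Ω (P y) (fderiv ℝ P y (J y))

theorem gg_smooth (Ω : V →L[ℝ] V →L[ℝ] ℝ) (J : V →L[ℝ] V) (P : V → V) (hP : ContDiff ℝ ∞ P) :
    ContDiff ℝ ∞ (gg Ω J P) := by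
  have hfd : ContDiff ℝ ∞ (fderiv ℝ P) := hP.fderiv_right (by simp)
  have h1 : ContDiff ℝ ∞ fun y => fderiv ℝ P y (J y) := hfd.clm_apply J.contDiff
  have h2 : ContDiff ℝ ∞ fun y => Ω (P y) := Ω.contDiff.comp hP
  exact h2.clm_apply h1

theorem R_smooth (J : V →L[ℝ] V) : ContDiff ℝ ∞ (fun p : V × ℝ => Rt J p.2 p.1) := by
  have h1 : (fun p : V × ℝ => Rt J p.2 p.1) =
      fun p : V × ℝ => Real.cos p.2 • p.1 + Real.sin p.2 • J p.1 := by
    funext p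
    exact Rt_apply J p.2 p.1
  rw [h1]
  have h2 : ContDiff ℝ ∞ (fun p : V × ℝ => Real.cos p.2) := Real.contDiff_cos.comp contDiff_snd
  have h3 : ContDiff ℝ ∞ (fun p : V × ℝ => Real.sin p.2) := Real.contDiff_sin.comp contDiff_snd
  have h4 : ContDiff ℝ ∞ (fun p : V × ℝ => J p.1) := J.contDiff.comp contDiff_fst
  exact (h2.smul contDiff_fst).add (h3.smul h4)

theorem act_eq (Ω : V →L[ℝ] V →L[ℝ] ℝ) (J : V →L[ℝ] V) (P : V → V) (z : V) :
    act Ω J P z = ∫ t in (0 : ℝ)..(2 * Real.pi), gg Ω J P (Rt J t z) := rfl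

/-- pointwise bounds -/
theorem bounds [FiniteDimensional ℝ V] (Ω : V →L[ℝ] V →L[ℝ] ℝ) (J : V →L[ℝ] V) (P : V → V)
    (h : ∀ v, v ≠ 0 → 0 < Ω v (J v)) (hP : ContDiff ℝ ∞ P)
    (hP0 : P 0 = 0) (hD : fderiv ℝ P 0 = ContinuousLinearMap.id ℝ V) :
    ∃ a M δ : ℝ, 0 < a ∧ 0 ≤ M ∧ 0 < δ ∧ ∀ y : V, ‖y‖ < δ → a * ‖y‖ ^ 2 ≤ gg Ω J P y ∧
      |gg Ω J P y| ≤ M * ‖y‖ ^ 2 := by
  obtain ⟨κ, hκ, hcoer⟩ := coer Ω J h
  have hnear := near Ω J P hP hP0 hD (κ / 2) (by positivity)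
  obtain ⟨δ, hδ, hball⟩ := Metric.eventually_nhds_iff.mp hnear
  refine ⟨κ / 2, ‖Ω‖ * ‖J‖ + κ / 2, δ, by positivity, by positivity, hδ, ?_⟩
  intro y hy
  have h2 : |gg Ω J P y - Ω y (J y)| ≤ κ / 2 * ‖y‖ ^ 2 := hball (y := y) (by simpa using hy)
  have h3 := hcoer y
  have h4 := abs_le.mp h2
  have h5 : |Ω y (J y)| ≤ ‖Ω‖ * ‖J‖ * ‖y‖ ^ 2 := by
    rw [← Real.norm_eq_abs]
    calc ‖Ω y (J y)‖ ≤ ‖Ω‖ * ‖y‖ * ‖J y‖ := Ω.le_opNorm₂ _ _
      _ ≤ ‖Ω‖ * ‖y‖ * (‖J‖ * ‖y‖) := by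
          gcongr
          exact J.le_opNorm _
      _ = ‖Ω‖ * ‖J‖ * ‖y‖ ^ 2 := by ring
  have h6 := abs_le.mp h5
  refine ⟨by linarith [h4.1], ?_⟩
  rw [abs_le, add_mul]
  constructor
  · linarith [h6.1, h4.1]
  · linarith [h6.2, h4.2]

theorem small (δ c : ℝ) (hδ : 0 < δ) (hc : 0 < c) : ∀ᶠ z in 𝓝 (0 : V), ‖z‖ < δ / c := by
  have := Metric.ball_mem_nhds (0 : V) (show 0 < δ / c by positivity)
  filter_upwards [this] with z hz
  simpa using hz

theorem upper (Ω : V →L[ℝ] V →L[ℝ] ℝ) (J : V →L[ℝ] V) (P : V → V) (c M δ : ℝ)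
    (hc : c = 1 + ‖J‖) (hM : 0 ≤ M)
    (hb : ∀ y : V, ‖y‖ < δ → |gg Ω J P y| ≤ M * ‖y‖ ^ 2) (z : V) (hz : ‖z‖ < δ / c) :
    ‖act Ω J P z‖ ≤ M * c ^ 2 * (2 * Real.pi) * ‖z‖ ^ 2 := by
  have hc0 : 0 < c := by
    rw [hc]
    positivity
  have h1 : ∀ t ∈ Set.uIoc (0 : ℝ) (2 * Real.pi),
      ‖gg Ω J P (Rt J t z)‖ ≤ M * (c ^ 2 * ‖z‖ ^ 2) := by
    intro t _
    have h0 : ‖Rt J t z‖ ≤ c * ‖z‖ := by
      rw [hc]
      exact Rt_norm_le J t z
    have h0' : ‖Rt J t z‖ < δ := by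
      calc ‖Rt J t z‖ ≤ c * ‖z‖ := h0
        _ < c * (δ / c) := by gcongr
        _ = δ := by field_simp
    rw [Real.norm_eq_abs]
    refine (hb _ h0').trans ?_
    have h2 : ‖Rt J t z‖ ^ 2 ≤ c ^ 2 * ‖z‖ ^ 2 := by
      rw [← mul_pow]
      exact pow_le_pow_left₀ (norm_nonneg _) h0 2
    exact mul_le_mul_of_nonneg_left h2 hM
  have h2 := intervalIntegral.norm_integral_le_of_norm_le_const h1
  rw [← act_eq, sub_zero, abs_of_pos (by positivity)] at h2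
  refine h2.trans (le_of_eq ?_)
  ring

theorem lower (Ω : V →L[ℝ] V →L[ℝ] ℝ) (J : V →L[ℝ] V) (hJ : ∀ v, J (J v) = -v) (P : V → V)
    (hP : ContDiff ℝ ∞ P) (c a δ : ℝ) (hc : c = 1 + ‖J‖) (ha : 0 < a)
    (hb : ∀ y : V, ‖y‖ < δ → a * ‖y‖ ^ 2 ≤ gg Ω J P y) (z : V) (hz : ‖z‖ < δ / c) :
    2 * Real.pi * a / c ^ 2 * ‖z‖ ^ 2 ≤ act Ω J P z := by
  have hc0 : 0 < c := by
    rw [hc]
    positivity
  have hcz : Continuous fun t : ℝ => gg Ω J P (Rt J t z) := by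
    have e1 : Continuous (gg Ω J P) := (gg_smooth Ω J P hP).continuous
    have e2 : Continuous (fun t : ℝ => Rt J t z) := by
      have e3 : (fun t : ℝ => Rt J t z) = fun t : ℝ => Real.cos t • z + Real.sin t • J z := by
        funext t
        exact Rt_apply J t z
      rw [e3]
      fun_prop
    exact e1.comp e2
  have h1 : ∀ t ∈ Set.Icc (0 : ℝ) (2 * Real.pi),
      a * (‖z‖ ^ 2 / c ^ 2) ≤ gg Ω J P (Rt J t z) := by
    intro t _
    have h0 : ‖Rt J t z‖ ≤ c * ‖z‖ := by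
      rw [hc]
      exact Rt_norm_le J t z
    have h0' : ‖Rt J t z‖ < δ := by
      calc ‖Rt J t z‖ ≤ c * ‖z‖ := h0
        _ < c * (δ / c) := by gcongr
        _ = δ := by field_simp
    refine le_trans ?_ (hb _ h0')
    have h3 : ‖z‖ ≤ c * ‖Rt J t z‖ := by
      rw [hc]
      exact Rt_norm_ge J hJ t z
    have h2 : ‖z‖ ^ 2 / c ^ 2 ≤ ‖Rt J t z‖ ^ 2 := by
      rw [div_le_iff₀ (by positivity), mul_comm, ← mul_pow]
      exact pow_le_pow_left₀ (norm_nonneg _) h3 2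
    exact mul_le_mul_of_nonneg_left h2 ha.le
  have hpi : (0 : ℝ) ≤ 2 * Real.pi := by positivity
  have hi1 : IntervalIntegrable (fun _ : ℝ => a * (‖z‖ ^ 2 / c ^ 2)) volume 0 (2 * Real.pi) :=
    intervalIntegrable_const
  have hi2 : IntervalIntegrable (fun t : ℝ => gg Ω J P (Rt J t z)) volume 0 (2 * Real.pi) :=
    hcz.intervalIntegrable _ _
  have h2 : (∫ _t in (0 : ℝ)..(2 * Real.pi), a * (‖z‖ ^ 2 / c ^ 2)) ≤
      ∫ t in (0 : ℝ)..(2 * Real.pi), gg Ω J P (Rt J t z) :=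
    intervalIntegral.integral_mono_on hpi hi1 hi2 h1
  have h3 : (∫ _t in (0 : ℝ)..(2 * Real.pi), a * (‖z‖ ^ 2 / c ^ 2)) =
      2 * Real.pi * a / c ^ 2 * ‖z‖ ^ 2 := by
    rw [intervalIntegral.integral_const, sub_zero, smul_eq_mul]
    ring
  rw [h3] at h2
  exact h2

end ACT_

open ACT_

theorem p_ACT : T_ACT := by
  intro V _ _ _ Ω J P hJ hP hP0 hD
  obtain ⟨a, M, δ, ha, hM, hδ, hb⟩ := bounds Ω J P hJ.pos hP hP0 hD
  have hc0 : 0 < 1 + ‖J‖ := by positivity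
  have hsmall := small (V := V) δ (1 + ‖J‖) hδ hc0
  refine ⟨?_, ?_, ?_, ?_⟩
  · have h1 := contDiff_param_infty (E := V) 0 (2 * Real.pi)
      ((gg_smooth Ω J P hP).comp (R_smooth J))
    exact h1
  · rw [act_eq]
    simp [gg, hP0]
  · have hO : act Ω J P =O[𝓝 (0 : V)] fun z => ‖z - 0‖ ^ 2 := by
      refine IsBigO.of_bound (M * (1 + ‖J‖) ^ 2 * (2 * Real.pi)) ?_
      filter_upwards [hsmall] with z hz
      have h1 := upper Ω J P (1 + ‖J‖) M δ rfl hM (fun y hy => (hb y hy).2) z hz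
      rw [sub_zero, norm_pow, norm_norm]
      exact h1
    exact (hO.hasFDerivAt (by norm_num)).fderiv
  · refine ⟨2 * Real.pi * a / (1 + ‖J‖) ^ 2, by positivity, ?_⟩
    filter_upwards [hsmall] with z hz
    exact lower Ω J hJ.sq P hP (1 + ‖J‖) a δ rfl ha (fun y hy => (hb y hy).1) z hz

end Pool.Agent.Zex
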