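import Pool.Agent.Pal.Targets2

/-!
# Symplectic periodic points all of whose exponents vanish: working definitions
-/

set_option autoImplicit false

open Set MeasureTheory Filter Topology Metric Asymptotics
open scoped Manifold ContDiff

namespace Pool.Agent.Zex

section Linear

variable {V : Type} [NormedAddCommGroup V] [NormedSpace ℝ V]

/-- `Ω` is a symplectic form: alternating and nondegenerate. -/
structure Sf (Ω : V →L[ℝ] V →L[ℝ] ℝ) : Prop where
  alt : ∀ v, Ω v v = 0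
  nd : ∀ v, (∀ w, Ω v w = 0) → v = 0

/-- `L` preserves `Ω`. -/
def Pres (Ω : V →L[ℝ] V →L[ℝ] ℝ) (L : V →L[ℝ] V) : Prop := ∀ v w, Ω (L v) (L w) = Ω v w

/-- `J` is a complex structure compatible with `Ω`. -/
structure Cs (Ω : V →L[ℝ] V →L[ℝ] ℝ) (J : V →L[ℝ] V) : Prop where
  sq : ∀ v, J (J v) = -v
  pres : Pres Ω J
  pos : ∀ v, v ≠ 0 → 0 < Ω v (J v)

/-- The powers of `L` grow subexponentially. -/
def SubExp (L : V →L[ℝ] V) : Prop := ∀ c : ℝ, 1 < c → ∃ C : ℝ, ∀ n : ℕ, ‖L ^ n‖ ≤ C * c ^ n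

/-- The circle action defined by `J`. -/
noncomputable def Rt (J : V →L[ℝ] V) (t : ℝ) : V →L[ℝ] V :=
  Real.cos t • ContinuousLinearMap.id ℝ V + Real.sin t • J

/-- `L` is elliptic, commutes with `J`, and the circle of `J` is in the closure of its powers. -/
structure Ell (Ω : V →L[ℝ] V →L[ℝ] ℝ) (L J : V →L[ℝ] V) : Prop where
  pres : Pres Ω L
  cs : Cs Ω J
  comm : ∀ v, L (J v) = J (L v)
  dens : ∀ s δ : ℝ, 0 < δ → ∃ n : ℕ, ‖L ^ n - Rt J s‖ < δ

/-- `L` is a limit of elliptic maps. -/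
def Good (Ω : V →L[ℝ] V →L[ℝ] ℝ) (L : V →L[ℝ] V) : Prop :=
  ∀ ε : ℝ, 0 < ε → ∃ L' J : V →L[ℝ] V, ‖L' - L‖ < ε ∧ Pres Ω L' ∧ Cs Ω J ∧
    ∀ v, L' (J v) = J (L' v)

/-- The restriction of `Ω` to a subspace. -/
noncomputable def rs (Ω : V →L[ℝ] V →L[ℝ] ℝ) (Z : Submodule ℝ V) : Z →L[ℝ] Z →L[ℝ] ℝ :=
  Ω.bilinearComp Z.subtypeL Z.subtypeL

variable (V) in
/-- The restriction to the diagonal of multilinear maps. -/
def diagL (j : ℕ) : MultilinearMap ℝ (fun _ : Fin j => V) V →ₗ[ℝ] (V → V) where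
  toFun := fun M z => M fun _ => z
  map_add' := fun _ _ => rfl
  map_smul' := fun _ _ => rfl

variable (V) in
/-- The homogeneous polynomial maps of degree `j`. -/
noncomputable def hp (j : ℕ) : Submodule ℝ (V → V) := LinearMap.range (diagL V j)

/-- The germ of `T` at `0` preserves `Ω`. -/
def Sy (Ω : V →L[ℝ] V →L[ℝ] ℝ) (T : V → V) : Prop := ∀ᶠ y in 𝓝 (0 : V), Pres Ω (fderiv ℝ T y)

/-- The action of the image under `P` of the orbit of `z` under the circle. -/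
noncomputable def act (Ω : V →L[ℝ] V →L[ℝ] ℝ) (J : V →L[ℝ] V) (P : V → V) (z : V) : ℝ :=
  ∫ t in (0 : ℝ)..(2 * Real.pi), Ω (P (Rt J t z)) (fderiv ℝ P (Rt J t z) (J (Rt J t z)))

end Linear

end Pool.Agent.Zex
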